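import Pool.Agent.TNB.Stmts

set_option autoImplicit false

namespace Pool.Agent.TNB

open scoped BigOperators

theorem ann_proof : Stmt_ANN := by
  classical
  intro I J _ _ s D _ o g hg
  let Lr : J → ((I → ℝ) →ₗ[ℝ] ℝ) := fun j => ∑ i, s j i • LinearMap.proj i
  let Le : I → ((I → ℝ) →ₗ[ℝ] ℝ) := fun i => if s o i = 0 then 0 else LinearMap.proj i
  let K : (I → ℝ) →ₗ[ℝ] ℝ := ∑ i, g i • LinearMap.proj i
  have hLr : ∀ j α, Lr j α = ∑ i, α i * s j i := by
    intro j α
    simp only [Lr, LinearMap.sum_apply, LinearMap.smul_apply, LinearMap.proj_apply, smul_eq_mul]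
    exact Finset.sum_congr rfl fun i _ => mul_comm _ _
  have hK : ∀ α, K α = ∑ i, α i * g i := by
    intro α
    simp only [K, LinearMap.sum_apply, LinearMap.smul_apply, LinearMap.proj_apply, smul_eq_mul]
    exact Finset.sum_congr rfl fun i _ => mul_comm _ _
  have hker : ⨅ k, LinearMap.ker (Sum.elim Lr Le k) ≤ LinearMap.ker K := by
    intro α hα
    rw [Submodule.mem_iInf] at hα
    rw [LinearMap.mem_ker, hK]
    apply hg
    refine ⟨fun i hi => ?_, fun j => ?_⟩
    · have h := hα (Sum.inr i)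
      simp only [Sum.elim_inr, LinearMap.mem_ker, Le, if_neg hi, LinearMap.proj_apply] at h
      exact h
    · have h := hα (Sum.inl j)
      rw [LinearMap.mem_ker, Sum.elim_inl, hLr] at h
      exact h
  have hmem := mem_span_of_iInf_ker_le_ker hker
  rw [Submodule.mem_span_range_iff_exists_fun] at hmem
  obtain ⟨c, hc⟩ := hmem
  refine ⟨fun j => c (Sum.inl j), fun i hi => ?_⟩
  have h := congrArg (fun T : (I → ℝ) →ₗ[ℝ] ℝ => T (Pi.single i 1)) hc
  simp only [Fintype.sum_sum_type, Sum.elim_inl, Sum.elim_inr, LinearMap.add_apply, LinearMap.sum_apply,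
    LinearMap.smul_apply, smul_eq_mul, hLr, hK] at h
  have h1 : ∀ j, ∑ i', (Pi.single i (1 : ℝ) : I → ℝ) i' * s j i' = s j i := by
    intro j
    rw [Finset.sum_eq_single i]
    · simp
    · intro b _ hb
      simp [Pi.single_eq_of_ne hb]
    · simp
  have h2 : ∑ i', (Pi.single i (1 : ℝ) : I → ℝ) i' * g i' = g i := by
    rw [Finset.sum_eq_single i]
    · simp
    · intro b _ hb
      simp [Pi.single_eq_of_ne hb]
    · simp
  have h3 : ∀ i', Le i' (Pi.single i (1 : ℝ)) = 0 := by
    intro i'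
    by_cases hi' : s o i' = 0
    · simp [Le, hi']
    · have hne : i' ≠ i := fun e => hi' (e ▸ hi)
      simp [Le, hi', Pi.single_eq_of_ne hne]
  simp only [h1, h2, h3, mul_zero, Finset.sum_const_zero, add_zero] at h
  exact h

end Pool.Agent.TNB
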