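import Pool.Agent.TNB.Stmts

/-!
# MP_76926f_co, module COM: combinatorial no-go for partial linear spaces
-/

set_option autoImplicit false

namespace Pool.Agent.TNB.COMAux

open Pool.Agent.TNB

section
variable {I J : Type} [Fintype I] [Fintype J] {inc : J → I → Prop}

open Classical in
/-- the points on a line -/
noncomputable def pts {I J : Type} [Fintype I] (inc : J → I → Prop) (j : J) : Finset I :=
  Finset.univ.filter fun i => inc j i

/-- the transposed incidence -/
def tr {I J : Type} (inc : J → I → Prop) : I → J → Prop := fun i j => inc j i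

omit [Fintype J] in
theorem mem_pts {j : J} {i : I} : i ∈ pts inc j ↔ inc j i := by
  classical
  simp [pts]

omit [Fintype I] in
theorem mem_tr {j : J} {i : I} : j ∈ pts (tr inc) i ↔ inc j i :=
  mem_pts (inc := tr inc) (j := i) (i := j)

omit [Fintype J] in
theorem two_iff {j : J} :
    2 ≤ (pts inc j).card ↔ ∃ a b, a ≠ b ∧ inc j a ∧ inc j b := by
  classical
  constructor
  · intro h
    obtain ⟨a, ha, b, hb, hab⟩ := Finset.one_lt_card.1 (show 1 < (pts inc j).card by omega)
    exact ⟨a, b, hab, mem_pts.1 ha, mem_pts.1 hb⟩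
  · rintro ⟨a, b, hab, ha, hb⟩
    have : 1 < (pts inc j).card := Finset.one_lt_card.2 ⟨a, mem_pts.2 ha, b, mem_pts.2 hb, hab⟩
    omega

theorem two_of_two (h : PL inc) {j k : J} (hjk : j ≠ k) {p : I} (hj : inc j p) (hk : inc k p) :
    2 ≤ (pts inc k).card := by
  obtain ⟨i, h1, _, h3⟩ := h.rowE j j k hjk.symm hjk.symm
  refine two_iff.2 ⟨p, i, ?_, hk, h3⟩
  rintro rfl
  exact h1 hj

theorem second (h : PL inc) {j : J} (hj : 2 ≤ (pts inc j).card) {p : I} (hp : inc j p) :
    ∃ k, k ≠ j ∧ inc k p := by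
  obtain ⟨a, b, hab, ha, hb⟩ := two_iff.1 hj
  have : ∃ q, q ≠ p ∧ inc j q := by
    by_cases e : a = p
    · exact ⟨b, fun e' => hab (e.trans e'.symm), hb⟩
    · exact ⟨a, e, ha⟩
  obtain ⟨q, hq, hjq⟩ := this
  obtain ⟨k, h1, _, h3⟩ := h.colE q q p hq.symm hq.symm
  refine ⟨k, ?_, h3⟩
  rintro rfl
  exact h1 hjq

omit [Fintype J] in
theorem other {j : J} (hj : 2 ≤ (pts inc j).card) (p : I) : ∃ q, q ≠ p ∧ inc j q := by
  obtain ⟨a, b, hab, ha, hb⟩ := two_iff.1 hj
  by_cases e : a = p
  · exact ⟨b, fun e' => hab (e.trans e'.symm), hb⟩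
  · exact ⟨a, e, ha⟩

theorem third (h : PL inc) {j : J} (hj : 2 ≤ (pts inc j).card) {p q : I} (hp : inc j p) (hq : inc j q) :
    ∃ r, r ≠ p ∧ r ≠ q ∧ inc j r := by
  obtain ⟨k, hk, hkp⟩ := second h hj hp
  obtain ⟨k', hk', hkq⟩ := second h hj hq
  obtain ⟨i, h1, h2, h3⟩ := h.rowE k k' j hk.symm hk'.symm
  refine ⟨i, ?_, ?_, h3⟩
  · rintro rfl
    exact h1 hkp
  · rintro rfl
    exact h2 hkq

/-- a line with the least number of points among those with at least two -/
structure Base (inc : J → I → Prop) (s : ℕ) (o : J) : Prop where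
  card : (pts inc o).card = s
  two : 2 ≤ s
  min : ∀ j, 2 ≤ (pts inc j).card → s ≤ (pts inc j).card

/-- a choice of lines different from `o` through its points -/
def Valid (inc : J → I → Prop) (o : J) (L : I → J) : Prop := ∀ p, inc o p → L p ≠ o ∧ inc (L p) p

theorem exists_valid (h : PL inc) {o : J} (ho : 2 ≤ (pts inc o).card) : ∃ L, Valid inc o L := by
  classical
  have : ∀ p, ∃ k, inc o p → k ≠ o ∧ inc k p := by
    intro p
    by_cases hp : inc o p
    · obtain ⟨k, h1, h2⟩ := second h ho hp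
      exact ⟨k, fun _ => ⟨h1, h2⟩⟩
    · exact ⟨o, fun e => absurd e hp⟩
  choose L hL using this
  exact ⟨L, hL⟩

omit [Fintype I] [Fintype J] in
open Classical in
theorem valid_update {o : J} {L : I → J} (hL : Valid inc o L) {p : I} {l : J} (h1 : l ≠ o) (h2 : inc l p) :
    Valid inc o (Function.update L p l) := by
  intro q hq
  by_cases e : q = p
  · subst e
    rw [Function.update_self]
    exact ⟨h1, h2⟩
  · rw [Function.update_of_ne e]
    exact hL q hq

/-- the property of the line `m` given by the relation -/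
structure Tr (inc : J → I → Prop) (s : ℕ) (o : J) (L : I → J) (x : I) (m : J) (f g : I → I) : Prop where
  through : inc m x
  card : (pts inc m).card = s
  disj : ∀ i, inc m i → ¬ inc o i
  f1 : ∀ p, inc o p → inc m (f p)
  f2 : ∀ p, inc o p → inc (L p) (f p)
  g1 : ∀ i, inc m i → inc o (g i)
  g2 : ∀ i, inc m i → inc (L (g i)) i
  gf : ∀ p, inc o p → g (f p) = p

theorem fact (h : PL inc) {s : ℕ} {o : J} (hb : Base inc s o) {L : I → J} (hL : Valid inc o L)
    {p x : I} (hp : inc o p) (hx : inc (L p) x) (hxp : x ≠ p) :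
    ∃ m f g, Tr inc s o L x m f g := by
  classical
  obtain ⟨m, hmx, hm⟩ := h.rel o L hL p x hp hx hxp
  have hg : ∀ i, ∃ p', inc m i → inc o p' ∧ inc (L p') i := by
    intro i
    by_cases hi : inc m i
    · obtain ⟨_, p', h1, h2⟩ := hm i hi
      exact ⟨p', fun _ => ⟨h1, h2⟩⟩
    · exact ⟨i, fun e => absurd e hi⟩
  choose g hg using hg
  have hdis : ∀ i, inc m i → ¬ inc o i := fun i hi => (hm i hi).1
  have hne : ∀ p', inc o p' → m ≠ L p' := by
    rintro p' hp' rfl
    exact hdis p' (hL p' hp').2 hp'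
  have hginj : Set.InjOn g (pts inc m) := by
    intro i hi i' hi' e
    have hi := mem_pts.1 (Finset.mem_coe.1 hi)
    have hi' := mem_pts.1 (Finset.mem_coe.1 hi')
    by_contra hii
    obtain ⟨a1, a2⟩ := hg i hi
    obtain ⟨b1, b2⟩ := hg i' hi'
    rw [← e] at b2
    exact h.pls m (L (g i)) i i' (hne _ a1) hii hi hi' a2 b2
  have hmaps : Set.MapsTo g (pts inc m) (pts inc o) := by
    intro i hi
    have hi := mem_pts.1 (Finset.mem_coe.1 hi)
    exact Finset.mem_coe.2 (mem_pts.2 (hg i hi).1)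
  have h1 : (pts inc m).card ≤ (pts inc o).card := Finset.card_le_card_of_injOn g hmaps hginj
  have h2 : 2 ≤ (pts inc m).card := two_of_two h (hne p hp).symm hx hmx
  have h3 := hb.min m h2
  have h4 : (pts inc m).card = s := le_antisymm (h1.trans_eq hb.card) h3
  have himg : (pts inc m).image g = pts inc o := by
    refine Finset.eq_of_subset_of_card_le ?_ ?_
    · intro y hy
      obtain ⟨i, hi, rfl⟩ := Finset.mem_image.1 hy
      exact hmaps (Finset.mem_coe.2 hi)
    · rw [Finset.card_image_of_injOn hginj, h4, hb.card]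
  have hf : ∀ q, ∃ i, inc o q → inc m i ∧ g i = q := by
    intro q
    by_cases hq : inc o q
    · have : q ∈ (pts inc m).image g := by rw [himg]; exact mem_pts.2 hq
      obtain ⟨i, hi, e⟩ := Finset.mem_image.1 this
      exact ⟨i, fun _ => ⟨mem_pts.1 hi, e⟩⟩
    · exact ⟨q, fun e => absurd e hq⟩
  choose f hf using hf
  refine ⟨m, f, g, hmx, h4, hdis, fun q hq => (hf q hq).1, ?_, fun i hi => (hg i hi).1,
    fun i hi => (hg i hi).2, fun q hq => (hf q hq).2⟩
  intro q hq
  have := (hg (f q) (hf q hq).1).2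
  rwa [(hf q hq).2] at this

theorem disj (h : PL inc) {s : ℕ} {o : J} (hb : Base inc s o) {p q : I} (hpq : p ≠ q) (hp : inc o p)
    (hq : inc o q) {l l' : J} (hl : l ≠ o) (hl' : l' ≠ o) (hlp : inc l p) (hlq : inc l' q) {x : I}
    (h1 : inc l x) (h2 : inc l' x) : False := by
  classical
  obtain ⟨L0, hL0⟩ := exists_valid h (o := o) (by rw [hb.card]; exact hb.two)
  have hV := valid_update (valid_update hL0 hl' hlq) hl hlp
  have ep : Function.update (Function.update L0 q l') p l p = l := Function.update_self ..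
  have eq : Function.update (Function.update L0 q l') p l q = l' := by
    rw [Function.update_of_ne hpq.symm, Function.update_self]
  have hxo : ¬ inc o x := by
    intro hx
    have e1 : x = p := by
      by_contra e
      exact h.pls l o x p hl e h1 hlp hx hp
    have e2 : x = q := by
      by_contra e
      exact h.pls l' o x q hl' e h2 hlq hx hq
    exact hpq (e1.symm.trans e2)
  have hxp : x ≠ p := by
    rintro rfl
    exact hxo hp
  obtain ⟨m, f, g, t⟩ := fact h hb hV hp (x := x) (by rw [ep]; exact h1) hxp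
  have a1 := t.f1 p hp
  have a2 := t.f2 p hp
  have b1 := t.f1 q hq
  have b2 := t.f2 q hq
  rw [ep] at a2
  rw [eq] at b2
  have hml : m ≠ l := by
    rintro rfl
    exact t.disj p hlp hp
  have hml' : m ≠ l' := by
    rintro rfl
    exact t.disj q hlq hq
  have c1 : f p = x := by
    by_contra e
    exact h.pls m l (f p) x hml e a1 t.through a2 h1
  have c2 : f q = x := by
    by_contra e
    exact h.pls m l' (f q) x hml' e b1 t.through b2 h2
  have := t.gf p hp
  rw [c1, ← c2, t.gf q hq] at this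
  exact hpq this.symm

open Classical in
theorem minj (h : PL inc) {s : ℕ} {o : J} (hb : Base inc s o) {L : I → J} (hL : Valid inc o L) {p : I}
    (hp : inc o p) {l l1 : J} (hl : l ≠ o) (hlp : inc l p) (hl1p : inc l1 p) (hll : l ≠ l1)
    {x : I} {m : J} {f g : I → I} (t : Tr inc s o (Function.update L p l1) x m f g) {z : I} (hmz : inc m z)
    (hlz : inc l z) : False := by
  have h1 := t.g1 z hmz
  have h2 := t.g2 z hmz
  by_cases e : g z = p
  · rw [e, Function.update_self] at h2
    have hzp : z ≠ p := by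
      rintro rfl
      exact t.disj z hmz hp
    exact h.pls l l1 z p hll hzp hlz hlp h2 hl1p
  · rw [Function.update_of_ne e] at h2
    exact disj h hb (Ne.symm e) hp h1 hl (hL _ h1).1 hlp (hL _ h1).2 hlz h2

open Classical in
theorem family (h : PL inc) {s : ℕ} {o : J} (hb : Base inc s o) {L : I → J} (hL : Valid inc o L) {p r x : I}
    (hp : inc o p) (hr : inc o r) (hrp : r ≠ p) (hx : inc (L r) x) (hxr : x ≠ r) :
    ∃ (M : J → J) (f g : J → I → I),
      (∀ l, l ≠ o → inc l p → Tr inc s o (Function.update L p l) x (M l) (f l) (g l)) ∧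
      ∀ l l1, l ≠ o → inc l p → l1 ≠ o → inc l1 p → M l = M l1 → l = l1 := by
  have : ∀ l, ∃ m f g, (l ≠ o → inc l p → Tr inc s o (Function.update L p l) x m f g) := by
    intro l
    by_cases hl : l ≠ o ∧ inc l p
    · obtain ⟨m, f, g, t⟩ := fact h hb (valid_update hL hl.1 hl.2) hr (x := x)
        (by rw [Function.update_of_ne hrp]; exact hx) hxr
      exact ⟨m, f, g, fun _ _ => t⟩
    · exact ⟨l, id, id, fun h1 h2 => absurd ⟨h1, h2⟩ hl⟩
  choose M f g hM using this
  refine ⟨M, f, g, hM, ?_⟩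
  intro l l1 h1 h2 h3 h4 e
  by_contra hll
  have t := hM l h1 h2
  have t1 := hM l1 h3 h4
  have a1 := t.f1 p hp
  have a2 := t.f2 p hp
  rw [Function.update_self] at a2
  rw [e] at a1
  exact minj h hb hL hp h1 h2 h4 hll t1 a1 a2

theorem deg_le (h : PL inc) {s : ℕ} {o : J} (hb : Base inc s o) {p q : I} (hpq : p ≠ q) (hp : inc o p)
    (hq : inc o q) {l' : J} (hl' : l' ≠ o) (hlq : inc l' q) :
    (pts (tr inc) p).card ≤ (pts inc l').card := by
  classical
  have ho : 2 ≤ (pts inc o).card := by rw [hb.card]; exact hb.two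
  obtain ⟨L0, hL0⟩ := exists_valid h ho
  obtain ⟨r, hrp, hrq, hr⟩ := third h ho hp hq
  have hk : 2 ≤ (pts inc (L0 r)).card := two_of_two h (hL0 r hr).1.symm hr (hL0 r hr).2
  obtain ⟨x, hxr, hx⟩ := other hk r
  have hV := valid_update hL0 hl' hlq
  obtain ⟨M, f, g, hM, hinj⟩ := family h hb hV (p := p) (r := r) (x := x) hp hr hrp
    (by rw [Function.update_of_ne hrq]; exact hx) hxr
  have key : ((pts (tr inc) p).erase o).card ≤ ((pts inc l').erase q).card := by
    refine Finset.card_le_card_of_injOn (fun l => f l q) ?_ ?_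
    · intro l hl
      obtain ⟨h1, h2⟩ := Finset.mem_erase.1 (Finset.mem_coe.1 hl)
      have h2 : inc l p := mem_tr.1 h2
      have t := hM l h1 h2
      have b1 := t.f1 q hq
      have b2 := t.f2 q hq
      rw [Function.update_of_ne hpq.symm, Function.update_self] at b2
      refine Finset.mem_coe.2 (Finset.mem_erase.2 ⟨?_, mem_pts.2 b2⟩)
      intro e
      change f l q = q at e
      rw [e] at b1
      exact t.disj q b1 hq
    · intro l hl l1 hl1 e
      change f l q = f l1 q at e
      obtain ⟨h1, h2⟩ := Finset.mem_erase.1 (Finset.mem_coe.1 hl)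
      have h2 : inc l p := mem_tr.1 h2
      obtain ⟨h3, h4⟩ := Finset.mem_erase.1 (Finset.mem_coe.1 hl1)
      have h4 : inc l1 p := mem_tr.1 h4
      refine hinj l l1 h1 h2 h3 h4 ?_
      by_contra hMM
      have t := hM l h1 h2
      have t1 := hM l1 h3 h4
      have b1 := t.f1 q hq
      have b2 := t.f2 q hq
      rw [Function.update_of_ne hpq.symm, Function.update_self] at b2
      have c1 := t1.f1 q hq
      rw [← e] at c1
      have hxy : x ≠ f l q := by
        intro exy
        rw [← exy] at b2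
        exact disj h hb hrq hr hq (hL0 r hr).1 hl' (hL0 r hr).2 hlq hx b2
      exact h.pls (M l) (M l1) x (f l q) hMM hxy t.through b1 t1.through c1
  have ho1 : o ∈ pts (tr inc) p := mem_pts.2 hp
  have hq1 : q ∈ pts inc l' := mem_pts.2 hlq
  rw [Finset.card_erase_of_mem ho1, Finset.card_erase_of_mem hq1] at key
  have := Finset.card_pos.2 ⟨o, ho1⟩
  have := Finset.card_pos.2 ⟨q, hq1⟩
  omega

theorem deg_le_s (h : PL inc) {s : ℕ} {o : J} (hb : Base inc s o) {p : I} (hp : inc o p) :
    (pts (tr inc) p).card ≤ s := by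
  classical
  have ho : 2 ≤ (pts inc o).card := by rw [hb.card]; exact hb.two
  obtain ⟨L0, hL0⟩ := exists_valid h ho
  obtain ⟨p2, hp2p, hp2⟩ := other ho p
  have hk : 2 ≤ (pts inc (L0 p2)).card := two_of_two h (hL0 p2 hp2).1.symm hp2 (hL0 p2 hp2).2
  obtain ⟨x, hxr, hx⟩ := other hk p2
  obtain ⟨m, f, g, t⟩ := fact h hb hL0 hp2 hx hxr
  have hbm : Base inc s m := ⟨t.card, hb.two, hb.min⟩
  have hmL : ∀ q, inc o q → L0 q ≠ m := by
    intro q hq e
    exact t.disj q (by rw [← e]; exact (hL0 q hq).2) hq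
  -- a third line through the point of m on L0 p
  have h2 : 2 ≤ (pts (tr inc) (f p)).card :=
    two_iff.2 ⟨m, L0 p, (hmL p hp).symm, t.f1 p hp, t.f2 p hp⟩
  obtain ⟨l1, hl1m, hl1L, hl1⟩ := third h.tr h2 (p := m) (q := L0 p) (t.f1 p hp) (t.f2 p hp)
  have hl1 : inc l1 (f p) := hl1
  let L' : I → J := fun i => if i = f p then l1 else L0 (g i)
  have hL' : Valid inc m L' := by
    intro i hi
    by_cases e : i = f p
    · have : L' i = l1 := if_pos e
      rw [this, e]
      exact ⟨hl1m, hl1⟩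
    · have : L' i = L0 (g i) := if_neg e
      rw [this]
      exact ⟨hmL _ (t.g1 i hi), t.g2 i hi⟩
  have hfne : ∀ q, inc o q → q ≠ p → f q ≠ f p := by
    intro q hq hqp e
    have := t.gf q hq
    rw [e, t.gf p hp] at this
    exact hqp this.symm
  have e2 : L' (f p2) = L0 p2 := by
    have : L' (f p2) = L0 (g (f p2)) := if_neg (hfne p2 hp2 hp2p)
    rw [this, t.gf p2 hp2]
  obtain ⟨m', f', g', t'⟩ := fact h hbm hL' (p := f p2) (x := p2) (t.f1 p2 hp2)
    (by rw [e2]; exact (hL0 p2 hp2).2) (by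
      intro e
      have := t.f1 p2 hp2
      rw [← e] at this
      exact t.disj p2 this hp2)
  have hm'o : m' ≠ o := by
    intro e
    have a1 := t'.f1 (f p) (t.f1 p hp)
    have a2 := t'.f2 (f p) (t.f1 p hp)
    have e3 : L' (f p) = l1 := if_pos rfl
    rw [e] at a1
    rw [e3] at a2
    by_cases ez : f' (f p) = p
    · rw [ez] at a2
      have hpf : p ≠ f p := by
        intro e'
        have := t.f1 p hp
        rw [← e'] at this
        exact t.disj p this hp
      exact h.pls l1 (L0 p) p (f p) hl1L hpf a2 hl1 (hL0 p hp).2 (t.f2 p hp)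
    · exact disj h hbm (hfne _ a1 ez).symm (t.f1 p hp) (t.f1 _ a1) hl1m (hmL _ a1) hl1 (t.f2 _ a1) a2
        (hL0 _ a1).2
  have := deg_le h hb hp2p.symm hp hp2 hm'o t'.through
  rwa [t'.card] at this

theorem exists_base {o : J} (ho : 2 ≤ (pts inc o).card) : ∃ s o', Base inc s o' := by
  classical
  have hne : (Finset.univ.filter fun j => 2 ≤ (pts inc j).card).Nonempty :=
    ⟨o, Finset.mem_filter.2 ⟨Finset.mem_univ _, ho⟩⟩
  obtain ⟨o', h1, h2⟩ := Finset.exists_min_image _ (fun j => (pts inc j).card) hne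
  exact ⟨_, o', rfl, (Finset.mem_filter.1 h1).2, fun j hj =>
    h2 j (Finset.mem_filter.2 ⟨Finset.mem_univ _, hj⟩)⟩

theorem no_two (h : PL inc) {o : J} (ho : 2 ≤ (pts inc o).card) : False := by
  classical
  obtain ⟨s, o, hb⟩ := exists_base ho
  have ho : 2 ≤ (pts inc o).card := by rw [hb.card]; exact hb.two
  have hD : ∀ {j : J}, 2 ≤ (pts inc j).card → ∀ {p}, inc j p → 2 ≤ (pts (tr inc) p).card := by
    intro j hj p hp
    obtain ⟨k, hk, hkp⟩ := second h hj hp
    exact two_iff.2 ⟨j, k, hk.symm, hp, hkp⟩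
  have hC : ∀ {p : I}, 2 ≤ (pts (tr inc) p).card → ∀ {j}, inc j p → 2 ≤ (pts inc j).card := by
    intro p hp j hj
    obtain ⟨k, hk, hkp⟩ := second h.tr hp (p := j) hj
    exact two_iff.2 ⟨p, k, hk.symm, hj, hkp⟩
  obtain ⟨p, _, hp⟩ := other ho (Classical.choice ⟨(two_iff.1 ho).choose⟩)
  obtain ⟨t, u, hu⟩ := exists_base (hD ho hp)
  have hu2 : 2 ≤ (pts (tr inc) u).card := by rw [hu.card]; exact hu.two
  obtain ⟨v, _, hv⟩ := other hu2 o
  have hv : inc v u := hv
  have hts : t ≤ s := (hu.min p (hD ho hp)).trans (deg_le_s h hb hp)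
  have hst : s ≤ t := (hb.min v (hC hu2 hv)).trans (deg_le_s h.tr hu (p := v) hv)
  have est : t = s := le_antisymm hts hst
  subst est
  -- degrees of the points of minimal lines
  have hA : ∀ j, (pts inc j).card = t → ∀ p, inc j p → (pts (tr inc) p).card = t := by
    intro j hj p hp
    have hbj : Base inc t j := ⟨hj, hb.two, hb.min⟩
    refine le_antisymm (deg_le_s h hbj hp) (hu.min p (hD ?_ hp))
    rw [hj]
    exact hb.two
  have hB : ∀ p, (pts (tr inc) p).card = t → ∀ j, inc j p → (pts inc j).card = t := by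
    intro p hp j hj
    have hbj : Base (tr inc) t p := ⟨hp, hu.two, hu.min⟩
    refine le_antisymm (deg_le_s h.tr hbj (p := j) hj) (hb.min j (hC ?_ hj))
    rw [hp]
    exact hu.two
  obtain ⟨L0, hL0⟩ := exists_valid h ho
  obtain ⟨p1, hp1p, hp1⟩ := other ho p
  obtain ⟨p3, h3p1, h3p, hp3⟩ := third h ho hp1 hp
  have hk : 2 ≤ (pts inc (L0 p)).card := two_of_two h (hL0 p hp).1.symm hp (hL0 p hp).2
  obtain ⟨x, hxp, hx⟩ := other hk p
  have hDx : (pts (tr inc) x).card = t :=
    hA (L0 p) (hB p (hA o hb.card p hp) _ (hL0 p hp).2) x hx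
  have hD1 : (pts (tr inc) p1).card = t := hA o hb.card p1 hp1
  have hD3 : 2 ≤ (pts (tr inc) p3).card := hD ho hp3
  obtain ⟨M, f, g, hM, hinj⟩ := family h hb hL0 (p := p1) (r := p) (x := x) hp1 hp hp1p.symm hx hxp
  have hmaps : ∀ l ∈ (pts (tr inc) p1).erase o, M l ∈ (pts (tr inc) x).erase (L0 p) := by
    intro l hl
    obtain ⟨h1, h2⟩ := Finset.mem_erase.1 hl
    have tl := hM l h1 (mem_tr.1 h2)
    refine Finset.mem_erase.2 ⟨?_, mem_tr.2 tl.through⟩
    intro e
    exact tl.disj p (by rw [e]; exact (hL0 p hp).2) hp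
  have hinj' : Set.InjOn M ((pts (tr inc) p1).erase o) := by
    intro l hl l1 hl1 e
    obtain ⟨h1, h2⟩ := Finset.mem_erase.1 (Finset.mem_coe.1 hl)
    obtain ⟨h3, h4⟩ := Finset.mem_erase.1 (Finset.mem_coe.1 hl1)
    exact hinj l l1 h1 (mem_tr.1 h2) h3 (mem_tr.1 h4) e
  have ho1 : o ∈ pts (tr inc) p1 := mem_tr.2 hp1
  have hx1 : L0 p ∈ pts (tr inc) x := mem_tr.2 hx
  have himg : ((pts (tr inc) p1).erase o).image M = (pts (tr inc) x).erase (L0 p) := by
    refine Finset.eq_of_subset_of_card_le ?_ ?_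
    · intro y hy
      obtain ⟨i, hi, rfl⟩ := Finset.mem_image.1 hy
      exact hmaps i hi
    · rw [Finset.card_image_of_injOn hinj', Finset.card_erase_of_mem ho1, Finset.card_erase_of_mem hx1,
        hDx, hD1]
  obtain ⟨l3, hl3o, hl3L, hl3⟩ := third h.tr hD3 (p := o) (q := L0 p3) hp3 (hL0 p3 hp3).2
  have hl3 : inc l3 p3 := hl3
  obtain ⟨m, f', g', t'⟩ := fact h hb (valid_update hL0 hl3o hl3) hp (x := x)
    (by rw [Function.update_of_ne h3p.symm]; exact hx) hxp
  have hmem : m ∈ (pts (tr inc) x).erase (L0 p) := by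
    refine Finset.mem_erase.2 ⟨?_, mem_tr.2 t'.through⟩
    intro e
    exact t'.disj p (by rw [e]; exact (hL0 p hp).2) hp
  rw [← himg] at hmem
  obtain ⟨l, hl, hlm⟩ := Finset.mem_image.1 hmem
  obtain ⟨h1, h2⟩ := Finset.mem_erase.1 hl
  have tl := hM l h1 (mem_tr.1 h2)
  have a1 := tl.f1 p3 hp3
  have a2 := tl.f2 p3 hp3
  rw [Function.update_of_ne h3p1] at a2
  rw [hlm] at a1
  exact minj h hb hL0 hp3 (hL0 p3 hp3).1 (hL0 p3 hp3).2 hl3 hl3L.symm t' a1 a2

end

end Pool.Agent.TNB.COMAux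

namespace Pool.Agent.TNB

theorem com_proof : Stmt_COM := by
  intro I J _ _ inc h j i i' h1 h2
  by_contra hii
  exact COMAux.no_two h (o := j) (COMAux.two_iff.2 ⟨i, i', hii, h1, h2⟩)

end Pool.Agent.TNB
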