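import Pool.Agent.TNB.Stmts

/-!
Module DIM: dimension of the space of dependencies of the vertices on a facet.
-/

set_option autoImplicit false

namespace Pool.Agent.TNB

open scoped BigOperators

namespace DIMX

variable {I J : Type} [Fintype I] [Fintype J]

/-- restriction of functions on `I` to the vertices on facet `o` -/
def res (s : J → I → ℝ) (o : J) : (I → ℝ) →ₗ[ℝ] ({i // s o i = 0} → ℝ) where
  toFun α i := α i
  map_add' _ _ := rfl
  map_smul' _ _ := rfl

theorem sum_res (s : J → I → ℝ) (o : J) [Fintype {i // s o i = 0}] (α : I → ℝ)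
    (hα : ∀ i, s o i ≠ 0 → α i = 0) (g : I → ℝ) :
    ∑ i : {i // s o i = 0}, α i * g i = ∑ i, α i * g i := by
  classical
  have h1 : ∑ i : {i // s o i = 0}, α i * g i = ∑ i ∈ Finset.univ.filter (fun i => s o i = 0), α i * g i := by
    exact (Finset.sum_subtype (Finset.univ.filter (fun i => s o i = 0)) (by simp)
      (fun i => α i * g i)).symm
  rw [h1, Finset.sum_filter]
  apply Finset.sum_congr rfl
  intro i _
  split_ifs with h
  · rfl
  · rw [hα i h, zero_mul]

theorem sum_eq' {ι : Type} (i1 i2 : Fintype ι) (a b : ι → ℝ) (h : ∀ i, a i = b i) :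
    (@Finset.univ ι i1).sum a = (@Finset.univ ι i2).sum b := by
  have : i1 = i2 := Subsingleton.elim _ _
  subst this
  exact Finset.sum_congr rfl fun i _ => h i

end DIMX

open DIMX in
theorem dim_proof (hK : Stmt_KER) : Stmt_DIM := by
  classical
  intro I J _ _ s D h o
  let W' := {i : I // s o i = 0}
  have hcard : (W s o).card = Fintype.card W' := by
    rw [Fintype.card_subtype]
    congr 1
  let A : Matrix J I ℝ := Matrix.of s
  let B : Matrix J W' ℝ := Matrix.of fun j i => s j i
  have hA : A.transpose.rank = D := by
    rw [Matrix.rank_transpose]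
    exact h.rank
  have e1 : A.transpose.rank + Module.finrank ℝ (LinearMap.ker A.transpose.mulVecLin) = Fintype.card J := by
    have := LinearMap.finrank_range_add_finrank_ker A.transpose.mulVecLin
    rw [Module.finrank_fintype_fun_eq_card] at this
    exact this
  have e2 : B.transpose.rank + Module.finrank ℝ (LinearMap.ker B.transpose.mulVecLin) = Fintype.card J := by
    have := LinearMap.finrank_range_add_finrank_ker B.transpose.mulVecLin
    rw [Module.finrank_fintype_fun_eq_card] at this
    exact this
  have e3 : B.rank + Module.finrank ℝ (LinearMap.ker B.mulVecLin) = Fintype.card W' := by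
    have := LinearMap.finrank_range_add_finrank_ker B.mulVecLin
    rw [Module.finrank_fintype_fun_eq_card] at this
    exact this
  have e4 : B.transpose.rank = B.rank := Matrix.rank_transpose B
  have mA : ∀ c : J → ℝ, c ∈ LinearMap.ker A.transpose.mulVecLin ↔ ∀ i, ∑ j, c j * s j i = 0 := by
    intro c
    rw [LinearMap.mem_ker, Matrix.mulVecLin_apply, funext_iff]
    apply forall_congr'
    intro i
    have : (A.transpose.mulVec c) i = ∑ j, c j * s j i := by
      simp only [Matrix.mulVec, dotProduct, Matrix.transpose_apply, A, Matrix.of_apply]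
      exact Finset.sum_congr rfl fun j _ => mul_comm _ _
    rw [this]
    rfl
  have mB : ∀ c : J → ℝ, c ∈ LinearMap.ker B.transpose.mulVecLin ↔ ∀ i, s o i = 0 → ∑ j, c j * s j i = 0 := by
    intro c
    rw [LinearMap.mem_ker, Matrix.mulVecLin_apply, funext_iff]
    constructor
    · intro hc i hi
      have h1 := hc ⟨i, hi⟩
      have : (B.transpose.mulVec c) ⟨i, hi⟩ = ∑ j, c j * s j i := by
        simp only [Matrix.mulVec, dotProduct, Matrix.transpose_apply, B, Matrix.of_apply]
        exact Finset.sum_congr rfl fun j _ => mul_comm _ _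
      rw [this] at h1
      exact h1
    · rintro hc ⟨i, hi⟩
      have : (B.transpose.mulVec c) ⟨i, hi⟩ = ∑ j, c j * s j i := by
        simp only [Matrix.mulVec, dotProduct, Matrix.transpose_apply, B, Matrix.of_apply]
        exact Finset.sum_congr rfl fun j _ => mul_comm _ _
      rw [this]
      exact hc i hi
  have mC : ∀ α : W' → ℝ, α ∈ LinearMap.ker B.mulVecLin ↔ ∀ j, ∑ i, α i * s j i = 0 := by
    intro α
    rw [LinearMap.mem_ker, Matrix.mulVecLin_apply, funext_iff]
    apply forall_congr'
    intro j
    have : (B.mulVec α) j = ∑ i, α i * s j i := by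
      simp only [Matrix.mulVec, dotProduct, B, Matrix.of_apply]
      exact Finset.sum_congr rfl fun j _ => mul_comm _ _
    rw [this]
    rfl
  -- the kernel of the transpose of `B`
  have sumS : ∀ (t : ℝ) (i : I), ∑ j, (Pi.single o t : J → ℝ) j * s j i = t * s o i := by
    intro t i
    rw [Finset.sum_eq_single o]
    · rw [Pi.single_eq_same]
    · intro j _ hj
      rw [Pi.single_eq_of_ne hj, zero_mul]
    · intro hj
      exact absurd (Finset.mem_univ o) hj
  have hsup : LinearMap.ker B.transpose.mulVecLin =
      LinearMap.ker A.transpose.mulVecLin ⊔ Submodule.span ℝ {(Pi.single o 1 : J → ℝ)} := by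
    apply le_antisymm
    · intro c hc
      obtain ⟨t, ht⟩ := hK I J s D h o c ((mB c).1 hc)
      have h1 : c - (Pi.single o t : J → ℝ) ∈ LinearMap.ker A.transpose.mulVecLin := by
        rw [mA]
        intro i
        have : ∑ j, (c - (Pi.single o t : J → ℝ)) j * s j i =
            ∑ j, c j * s j i - ∑ j, (Pi.single o t : J → ℝ) j * s j i := by
          rw [← Finset.sum_sub_distrib]
          exact Finset.sum_congr rfl fun j _ => by rw [Pi.sub_apply, sub_mul]
        rw [this, sumS, ht, sub_self]
      have h2 : (Pi.single o t : J → ℝ) ∈ Submodule.span ℝ {(Pi.single o 1 : J → ℝ)} := by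
        rw [Submodule.mem_span_singleton]
        refine ⟨t, ?_⟩
        rw [← Pi.single_smul, smul_eq_mul, mul_one]
      have h3 := Submodule.add_mem_sup h1 h2
      rwa [sub_add_cancel] at h3
    · apply sup_le
      · intro c hc
        rw [mB]
        intro i _
        exact (mA c).1 hc i
      · rw [Submodule.span_singleton_le_iff_mem, mB]
        intro i hi
        rw [sumS, hi, mul_zero]
  have hinf : LinearMap.ker A.transpose.mulVecLin ⊓ Submodule.span ℝ {(Pi.single o 1 : J → ℝ)} = ⊥ := by
    rw [eq_bot_iff]
    rintro c ⟨h1, h2⟩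
    obtain ⟨t, rfl⟩ := Submodule.mem_span_singleton.1 h2
    obtain ⟨i, hi⟩ := h.rowpos o
    have h3 := (mA _).1 h1 i
    rw [← Pi.single_smul, smul_eq_mul, mul_one, sumS] at h3
    have : t = 0 := by
      rcases mul_eq_zero.1 h3 with h4 | h4
      · exact h4
      · exact absurd h4 hi.ne'
    rw [this, zero_smul]
    exact Submodule.zero_mem _
  have e5 : Module.finrank ℝ (LinearMap.ker B.transpose.mulVecLin) =
      Module.finrank ℝ (LinearMap.ker A.transpose.mulVecLin) + 1 := by
    have h1 := Submodule.finrank_sup_add_finrank_inf_eq (LinearMap.ker A.transpose.mulVecLin)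
      (Submodule.span ℝ {(Pi.single o 1 : J → ℝ)})
    rw [← hsup, hinf, finrank_bot, add_zero] at h1
    rw [h1, finrank_span_singleton]
    intro h2
    have h3 := congrFun h2 o
    rw [Pi.single_eq_same] at h3
    exact one_ne_zero h3
  -- `Rel s o` is the kernel of `B`
  have e6 : Module.finrank ℝ (Rel s o) = Module.finrank ℝ (LinearMap.ker B.mulVecLin) := by
    let f : Rel s o →ₗ[ℝ] LinearMap.ker B.mulVecLin :=
      LinearMap.codRestrict _ ((res s o).comp (Rel s o).subtype) (by
        rintro ⟨α, hα, hα'⟩
        rw [mC]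
        intro j
        have := sum_res s o α hα (fun i => s j i)
        exact this.trans (hα' j))
    apply LinearEquiv.finrank_eq (LinearEquiv.ofBijective f ⟨?_, ?_⟩)
    · rw [injective_iff_map_eq_zero]
      rintro ⟨α, hα, hα'⟩ h0
      apply Subtype.ext
      funext i
      by_cases hi : s o i = 0
      · exact congrFun (congrArg Subtype.val h0) ⟨i, hi⟩
      · exact hα i hi
    · rintro ⟨β, hβ⟩
      let α : I → ℝ := fun i => if hi : s o i = 0 then β ⟨i, hi⟩ else 0
      have hα : ∀ i, s o i ≠ 0 → α i = 0 := fun i hi => dif_neg hi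
      have hαβ : ∀ i : W', α i = β i := fun i => dif_pos i.2
      refine ⟨⟨α, hα, fun j => ?_⟩, ?_⟩
      · have h1 := sum_res s o α hα (fun i => s j i)
        rw [← h1]
        have h2 := (mC β).1 hβ j
        have h3 : ∀ i : W', α i * s j i = β i * s j i := by
          intro i
          rw [hαβ i]
        exact (sum_eq' _ _ _ _ h3).trans h2
      · apply Subtype.ext
        funext i
        exact hαβ i
  rw [hcard, e6]
  omega

end Pool.Agent.TNB
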