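import Pool.Agent.TNB.Stmts

/-!
# MP_76926f_co: module FAC
-/

set_option autoImplicit false

namespace Pool.Agent.TNB

open scoped BigOperators

theorem fac_proof : Stmt_FAC := by
  classical
  intro I J _ _ s D h o c hc
  set g : I → ℝ := fun i => ∑ j, c j * s j i with hg
  set T : ℝ := ∑ i, |g i| / s o i with hT
  have hTi : ∀ i, 0 < s o i → |g i| ≤ T * s o i := by
    intro i hi
    have h1 : |g i| / s o i ≤ T :=
      Finset.single_le_sum (f := fun i => |g i| / s o i)
        (fun k _ => div_nonneg (abs_nonneg _) (h.nonneg o k)) (Finset.mem_univ i)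
    exact (div_le_iff₀ hi).mp h1
  have hsum : ∀ i, ∑ j, (c j + if j = o then T else 0) * s j i = g i + T * s o i := by
    intro i
    simp only [add_mul, Finset.sum_add_distrib, ite_mul, zero_mul, Finset.sum_ite_eq',
      Finset.mem_univ, if_true, hg]
  have hnn : ∀ i, 0 ≤ ∑ j, (c j + if j = o then T else 0) * s j i := by
    intro i
    rw [hsum]
    rcases (h.nonneg o i).lt_or_eq with hi | hi
    · have h1 := hTi i hi
      have h2 := neg_abs_le (g i)
      linarith
    · rw [← hi, mul_zero, add_zero]
      exact hc i hi.symm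
  obtain ⟨μ, hμ0, hμ⟩ := h.rowK _ hnn
  refine ⟨fun j => if j = o then 0 else μ j, fun j => ?_, by simp, fun i hi => ?_⟩
  · by_cases hj : j = o
    · simp [hj]
    · simp only [hj, if_false]
      exact hμ0 j
  · have h1 := hμ i
    rw [hsum, hi, mul_zero, add_zero] at h1
    change g i = _
    rw [h1]
    refine Finset.sum_congr rfl fun j _ => ?_
    by_cases hj : j = o
    · simp [hj, hi]
    · simp [hj]

end Pool.Agent.TNB
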