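import Pool.Agent.TNB.Stmts

/-!
Module FULL: as many facets as the rank implies as many vertices as the rank.
-/

set_option autoImplicit false

namespace Pool.Agent.TNB

open scoped BigOperators

theorem full_proof (hN2 : Stmt_N2) : Stmt_FULL := by
  classical
  intro I J _ _ s D h hJ
  -- the column map is onto
  have hsurj : ∀ y : J → ℝ, ∃ c : I → ℝ, ∀ k, ∑ i, c i * s k i = y k := by
    have h1 : LinearMap.range (Matrix.of s).mulVecLin = ⊤ := by
      apply Submodule.eq_top_of_finrank_eq
      have h2 := h.rank
      rw [Matrix.rank] at h2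
      rw [h2, Module.finrank_fintype_fun_eq_card, hJ]
    intro y
    have h3 : y ∈ LinearMap.range (Matrix.of s).mulVecLin := by rw [h1]; trivial
    obtain ⟨c, hc⟩ := h3
    refine ⟨c, fun k => ?_⟩
    have h4 := congrFun hc k
    rw [Matrix.mulVecLin_apply] at h4
    simp only [Matrix.mulVec, dotProduct, Matrix.of_apply] at h4
    rw [← h4]
    exact Finset.sum_congr rfl (fun i _ => mul_comm _ _)
  have hcol : ∀ j : J, ∃ i : I, 0 < s j i ∧ ∀ k, k ≠ j → s k i = 0 := by
    intro j
    obtain ⟨c, hc⟩ := hsurj (fun k => if k = j then 1 else 0)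
    obtain ⟨μ, hμ0, hμ⟩ := h.colK c (fun k => by rw [hc k]; split_ifs <;> norm_num)
    have h5 : ∑ i, μ i * s j i = 1 := by rw [← hμ j, hc j]; simp
    have h6 : ∃ i ∈ Finset.univ, 0 < μ i * s j i := by
      by_contra hcon
      push Not at hcon
      have : ∑ i, μ i * s j i ≤ 0 := Finset.sum_nonpos hcon
      linarith
    obtain ⟨i, _, hi⟩ := h6
    have hμi : 0 < μ i := by
      rcases (hμ0 i).lt_or_eq with h7 | h7
      · exact h7
      · rw [← h7] at hi; simp at hi
    refine ⟨i, ?_, ?_⟩
    · rcases (h.nonneg j i).lt_or_eq with h7 | h7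
      · exact h7
      · rw [← h7] at hi; simp at hi
    · intro k hk
      have h8 : ∑ i, μ i * s k i = 0 := by rw [← hμ k, hc k]; simp [hk]
      have h9 := (Finset.sum_eq_zero_iff_of_nonneg
        (fun i _ => mul_nonneg (hμ0 i) (h.nonneg k i))).mp h8 i (Finset.mem_univ _)
      rcases mul_eq_zero.mp h9 with h10 | h10
      · exact absurd h10 hμi.ne'
      · exact h10
  choose f hf1 hf2 using hcol
  have hinj : Function.Injective f := by
    intro j j' hjj
    by_contra hne
    have h1 := hf2 j j' (fun e => hne e.symm)
    rw [hjj] at h1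
    exact absurd h1 (hf1 j').ne'
  have honto : Function.Surjective f := by
    intro i
    by_contra hcon
    push Not at hcon
    set lam : I → ℝ := fun x => (if x = i then 1 else 0) -
      ∑ j, (s j i / s j (f j)) * (if x = f j then 1 else 0) with hlam
    have hdep : ∀ k, ∑ x, lam x * s k x = 0 := by
      intro k
      simp only [hlam, sub_mul, Finset.sum_sub_distrib, Finset.sum_mul]
      rw [Finset.sum_comm]
      have e1 : ∑ x, (if x = i then (1 : ℝ) else 0) * s k x = s k i := by simp
      have e2 : ∀ j, ∑ x, (s j i / s j (f j)) * (if x = f j then (1 : ℝ) else 0) * s k x =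
          (s j i / s j (f j)) * s k (f j) := by
        intro j
        have : ∀ x, (s j i / s j (f j)) * (if x = f j then (1 : ℝ) else 0) * s k x =
            if x = f j then (s j i / s j (f j)) * s k x else 0 := by
          intro x
          split_ifs <;> ring
        simp only [this]
        simp
      rw [e1, Finset.sum_congr rfl (fun j _ => e2 j), Finset.sum_eq_single k]
      · rw [div_mul_cancel₀ _ (hf1 k).ne', sub_self]
      · intro j _ hj
        rw [hf2 j k (fun e => hj e.symm), mul_zero]
      · intro hk
        exact absurd (Finset.mem_univ k) hk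
    have hsum0 : ∀ x, 0 ≤ ∑ j, (s j i / s j (f j)) * (if x = f j then (1 : ℝ) else 0) := by
      intro x
      apply Finset.sum_nonneg
      intro j _
      apply mul_nonneg (div_nonneg (h.nonneg _ _) (h.nonneg _ _))
      split_ifs <;> norm_num
    have hpos : ∀ x, 0 < lam x → x = i := by
      intro x hx
      by_contra hne
      simp only [hlam, hne, if_false] at hx
      linarith [hsum0 x]
    have hne : lam ≠ 0 := by
      intro h0
      have h1 := congrFun h0 i
      simp only [hlam, if_true, Pi.zero_apply] at h1
      have h2 : ∑ j, (s j i / s j (f j)) * (if i = f j then (1 : ℝ) else 0) = 0 := by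
        apply Finset.sum_eq_zero
        intro j _
        have : ¬ i = f j := fun e => hcon j e.symm
        simp [this]
      rw [h2] at h1
      norm_num at h1
    obtain ⟨a, b, c, hab, _, _, ha, hb, _⟩ := hN2 J I (fun i j => s j i) D h.tr lam hdep hne
    exact hab ((hpos a ha).trans (hpos b hb).symm)
  have := Fintype.card_of_bijective ⟨hinj, honto⟩
  omega

end Pool.Agent.TNB
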