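import Pool.Agent.TNB.Stmts

set_option autoImplicit false

namespace Pool.Agent.TNB

open scoped BigOperators

theorem ker_proof : Stmt_KER := by
  intro I J _ _ s D h o c hc
  classical
  set g : I → ℝ := fun i => ∑ j, c j * s j i with hg
  set T : ℝ := ∑ i, |g i| / s o i with hT
  have hTn : ∀ i, 0 ≤ |g i| / s o i := fun i => div_nonneg (abs_nonneg _) (h.nonneg o i)
  have hpos : ∀ i, 0 ≤ g i + T * s o i := by
    intro i
    rcases (h.nonneg o i).eq_or_lt with h0 | h0
    · have : g i = 0 := hc i h0.symm
      rw [this, ← h0]; simp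
    · have h1 : |g i| / s o i ≤ T := Finset.single_le_sum (fun i _ => hTn i) (Finset.mem_univ i)
      have h2 : |g i| ≤ T * s o i := by
        rwa [div_le_iff₀ h0] at h1
      have h3 := neg_abs_le (g i)
      linarith
  obtain ⟨μ, hμ, hμe⟩ := h.rowK (fun j => c j + if j = o then T else 0) (by
    intro i
    have e : ∑ j, (c j + if j = o then T else 0) * s j i = g i + T * s o i := by
      simp [add_mul, Finset.sum_add_distrib, hg, ite_mul]
    rw [e]; exact hpos i)
  have e : ∀ i, g i + T * s o i = ∑ j, μ j * s j i := by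
    intro i
    rw [← hμe i]
    simp [add_mul, Finset.sum_add_distrib, hg, ite_mul]
  have hz : ∀ j, j ≠ o → μ j = 0 := by
    intro j hj
    obtain ⟨i, hi, -, hji⟩ := h.rowE o o j hj hj
    have h1 : ∑ j, μ j * s j i = 0 := by
      rw [← e i, hi]
      have : g i = 0 := hc i hi
      rw [this]; simp
    rw [Finset.sum_eq_zero_iff_of_nonneg (fun j _ => mul_nonneg (hμ j) (h.nonneg j i))] at h1
    have h2 := h1 j (Finset.mem_univ j)
    rcases mul_eq_zero.1 h2 with h3 | h3
    · exact h3
    · exact absurd h3 hji.ne'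
  refine ⟨μ o - T, fun i => ?_⟩
  have h1 : ∑ j, μ j * s j i = μ o * s o i := by
    rw [Finset.sum_eq_single o]
    · intro j _ hj
      rw [hz j hj]; simp
    · intro ho; exact absurd (Finset.mem_univ o) ho
  have h2 := e i
  rw [h1] at h2
  show g i = _
  linarith

end Pool.Agent.TNB
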