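import Pool.Agent.TNB.Stmts

/-!
# MP_76926f_co: the main theorem for slack matrices
-/

set_option autoImplicit false

namespace Pool.Agent.TNB

open scoped BigOperators

namespace MAINAux

theorem not_pos_iff {I J : Type} [Fintype I] [Fintype J] {s : J → I → ℝ} {D : ℕ} (h : Good s D) {j : J} {i : I} :
    ¬ 0 < s j i ↔ s j i = 0 := by
  constructor
  · intro h0
    exact le_antisymm (not_lt.1 h0) (h.nonneg j i)
  · intro h0
    rw [h0]
    exact lt_irrefl 0

theorem card_split {I J : Type} [Fintype I] [Fintype J] {s : J → I → ℝ} {D : ℕ} (h : Good s D) (j : J) :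
    (W s j).card + (C s j).card = Fintype.card I := by
  classical
  rw [← Finset.card_union_of_disjoint]
  · rw [← Finset.card_univ]
    congr 1
    ext i
    simp only [Finset.mem_union, mem_W, mem_C, Finset.mem_univ, iff_true]
    rcases (h.nonneg j i).lt_or_eq with h1 | h1
    · exact Or.inr h1
    · exact Or.inl h1.symm
  · rw [Finset.disjoint_left]
    intro i hi hi'
    rw [mem_W] at hi
    rw [mem_C] at hi'
    rw [hi] at hi'
    exact lt_irrefl _ hi'

theorem isPL (REL : Stmt_REL) {I J : Type} [Fintype I] [Fintype J] {s : J → I → ℝ} {D : ℕ} (h : Good s D)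
    (hp : ∀ j k i i', j ≠ k → i ≠ i' → 0 < s j i → 0 < s j i' → 0 < s k i → ¬ 0 < s k i') :
    PL (fun j i => 0 < s j i) where
  rowE := by
    intro j j' m h1 h2
    obtain ⟨i, a, b, c⟩ := h.rowE j j' m h1 h2
    exact ⟨i, (not_pos_iff h).2 a, (not_pos_iff h).2 b, c⟩
  colE := by
    intro i i' l h1 h2
    obtain ⟨j, a, b, c⟩ := h.colE i i' l h1 h2
    exact ⟨j, (not_pos_iff h).2 a, (not_pos_iff h).2 b, c⟩
  pls := hp
  rel := REL I J s D h hp
  relc := by
    have hp' : ∀ j k i i', j ≠ k → i ≠ i' → 0 < (fun (i : I) (j : J) => s j i) j i →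
        0 < (fun (i : I) (j : J) => s j i) j i' → 0 < (fun (i : I) (j : J) => s j i) k i →
        ¬ 0 < (fun (i : I) (j : J) => s j i) k i' :=
      fun i i' j j' hi hj h1 h2 h3 h4 => hp j j' i i' hj hi h1 h3 h2 h4
    exact REL J I (fun i j => s j i) D h.tr hp'

end MAINAux

open MAINAux in
theorem main_proof (T1 : Stmt_T1) (DIM : Stmt_DIM) (SIM : Stmt_SIM) (ONE : Stmt_ONE) (TWO : Stmt_TWO)
    (REL : Stmt_REL) (COM : Stmt_COM) (MIS : Stmt_MIS) : Stmt_MAIN := by
  intro I J _ _ s D h hc
  have hA : ∀ j, D + 2 ≤ (W s j).card := by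
    intro j
    have h0 : Module.finrank ℝ (Rel s j) ≠ 0 := by
      intro h0
      exact hc (SIM I J s D h j (Submodule.finrank_eq_zero.1 h0))
    have h1 := ONE I J s D h j
    have h2 := TWO I J s D h j
    have h3 := DIM I J s D h j
    omega
  have hB : ∃ j k p q, j ≠ k ∧ p ≠ q ∧ 0 < s j p ∧ 0 < s j q ∧ 0 < s k p ∧ 0 < s k q := by
    by_contra H
    have hp : ∀ j k i i', j ≠ k → i ≠ i' → 0 < s j i → 0 < s j i' → 0 < s k i → ¬ 0 < s k i' :=
      fun j k i i' hjk hii h1 h2 h3 h4 => H ⟨j, k, i, i', hjk, hii, h1, h2, h3, h4⟩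
    exact hc (MIS I J s D h (COM I J (fun j i => 0 < s j i) (isPL REL h hp)))
  refine ⟨hA, hB, ?_⟩
  obtain ⟨j, k, p, q, hjk, hpq, jp, jq, kp, kq⟩ := hB
  obtain ⟨a, b, hab, ja, jb, ka, kb⟩ := T1 I J s D h j p q hpq jp jq k hjk.symm
  classical
  have hap : a ≠ p := by
    rintro rfl
    rw [ka] at kp
    exact lt_irrefl _ kp
  have haq : a ≠ q := by
    rintro rfl
    rw [ka] at kq
    exact lt_irrefl _ kq
  have hbp : b ≠ p := by
    rintro rfl
    rw [kb] at kp
    exact lt_irrefl _ kp
  have hbq : b ≠ q := by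
    rintro rfl
    rw [kb] at kq
    exact lt_irrefl _ kq
  have hsub : ({a, b, p, q} : Finset I) ⊆ C s j := by
    intro x hx
    simp only [Finset.mem_insert, Finset.mem_singleton] at hx
    rw [mem_C]
    rcases hx with rfl | rfl | rfl | rfl
    · exact ja
    · exact jb
    · exact jp
    · exact jq
  have hcard : ({a, b, p, q} : Finset I).card = 4 := by
    rw [Finset.card_insert_of_notMem, Finset.card_insert_of_notMem, Finset.card_insert_of_notMem,
      Finset.card_singleton]
    · simpa using hpq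
    · simp [hbp, hbq]
    · simp [hab, hap, haq]
  have h4 := Finset.card_le_card hsub
  rw [hcard] at h4
  have h5 := card_split h j
  have h6 := hA j
  omega

end Pool.Agent.TNB
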