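import Pool.Agent.TNB.Stmts

/-!
# MP_76926f_co: module N2
-/

set_option autoImplicit false

namespace Pool.Agent.TNB

open scoped BigOperators

theorem n2_proof : Stmt_N2 := by
  intro I J _ _ s D h lam hlam hne
  by_contra hcon
  have hc : ∀ a b c, a ≠ b → a ≠ c → b ≠ c → 0 < lam a → 0 < lam b → lam c ≤ 0 := by
    intro a b c h1 h2 h3 h4 h5
    by_contra h6
    exact hcon ⟨a, b, c, h1, h2, h3, h4, h5, lt_of_not_ge h6⟩
  by_cases hp : ∃ a, 0 < lam a
  · obtain ⟨a, ha⟩ := hp
    obtain ⟨j, j', hj, hj', hall⟩ : ∃ j j', 0 < lam j ∧ 0 < lam j' ∧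
        ∀ m, m ≠ j → m ≠ j' → lam m ≤ 0 := by
      by_cases hb : ∃ b, b ≠ a ∧ 0 < lam b
      · obtain ⟨b, hba, hb⟩ := hb
        exact ⟨a, b, ha, hb, fun m h1 h2 => hc a b m hba.symm h1.symm h2.symm ha hb⟩
      · refine ⟨a, a, ha, ha, fun m h1 _ => ?_⟩
        by_contra h6
        exact hb ⟨m, h1, lt_of_not_ge h6⟩
    by_cases hm : ∃ m, lam m < 0
    · obtain ⟨m, hm⟩ := hm
      have hmj : m ≠ j := by rintro rfl; exact absurd hm (not_lt.mpr hj.le)
      have hmj' : m ≠ j' := by rintro rfl; exact absurd hm (not_lt.mpr hj'.le)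
      obtain ⟨i, h1, h2, h3⟩ := h.rowE j j' m hmj hmj'
      have hlt : ∑ k, lam k * s k i < ∑ _k : J, (0 : ℝ) := by
        apply Finset.sum_lt_sum
        · intro k _
          by_cases hk : k = j
          · rw [hk, h1, mul_zero]
          · by_cases hk' : k = j'
            · rw [hk', h2, mul_zero]
            · exact mul_nonpos_of_nonpos_of_nonneg (hall k hk hk') (h.nonneg k i)
        · exact ⟨m, Finset.mem_univ m, mul_neg_of_neg_of_pos hm h3⟩
      rw [hlam i, Finset.sum_const_zero] at hlt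
      exact lt_irrefl 0 hlt
    · have hnn : ∀ m, 0 ≤ lam m := fun m => by
        by_contra h6
        exact hm ⟨m, lt_of_not_ge h6⟩
      obtain ⟨i, hi⟩ := h.rowpos j
      have hlt : ∑ _k : J, (0 : ℝ) < ∑ k, lam k * s k i := by
        apply Finset.sum_lt_sum
        · intro k _
          exact mul_nonneg (hnn k) (h.nonneg k i)
        · exact ⟨j, Finset.mem_univ j, mul_pos hj hi⟩
      rw [hlam i, Finset.sum_const_zero] at hlt
      exact lt_irrefl 0 hlt
  · have hnp : ∀ m, lam m ≤ 0 := fun m => by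
      by_contra h6
      exact hp ⟨m, lt_of_not_ge h6⟩
    have hex : ∃ m, lam m ≠ 0 := by
      by_contra h6
      apply hne
      funext m
      by_contra h7
      exact h6 ⟨m, h7⟩
    obtain ⟨m, hm⟩ := hex
    have hm' : lam m < 0 := lt_of_le_of_ne (hnp m) hm
    obtain ⟨i, hi⟩ := h.rowpos m
    have hlt : ∑ k, lam k * s k i < ∑ _k : J, (0 : ℝ) := by
      apply Finset.sum_lt_sum
      · intro k _
        exact mul_nonpos_of_nonpos_of_nonneg (hnp k) (h.nonneg k i)
      · exact ⟨m, Finset.mem_univ m, mul_neg_of_neg_of_pos hm' hi⟩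
    rw [hlam i, Finset.sum_const_zero] at hlt
    exact lt_irrefl 0 hlt

end Pool.Agent.TNB
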