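import Pool.Agent.TNB.Stmts

/-!
# MP_76926f_co, module REL
-/

set_option autoImplicit false

namespace Pool.Agent.TNB

open scoped BigOperators

theorem rel_proof : Stmt_REL := by
  classical
  intro I J _ _ s D hG hP o l hl p x hp hx hxp
  have hz : ∀ q i, 0 < s o q → 0 < s o i → i ≠ q → s (l q) i = 0 := by
    intro q i hq hi hiq
    have h1 := hP o (l q) q i (hl q hq).1.symm hiq.symm hq hi (hl q hq).2
    exact le_antisymm (not_lt.1 h1) (hG.nonneg _ _)
  obtain ⟨A, hA⟩ : ∃ A : Finset I, A = C s o := ⟨_, rfl⟩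
  have hAm : ∀ q, q ∈ A ↔ 0 < s o q := by
    intro q
    rw [hA]
    exact mem_C
  obtain ⟨a, ha⟩ : ∃ a : I → ℝ, a = fun q => s o q / s (l q) q := ⟨_, rfl⟩
  have hapos : ∀ q, q ∈ A → 0 < a q := by
    intro q hq
    rw [ha]
    exact div_pos ((hAm q).1 hq) (hl q ((hAm q).1 hq)).2
  obtain ⟨c, hc⟩ : ∃ c : J → ℝ,
      c = fun j => (∑ q ∈ A, if l q = j then a q else 0) - (if o = j then 1 else 0) := ⟨_, rfl⟩
  have hf : ∀ i, ∑ j, c j * s j i = (∑ q ∈ A, a q * s (l q) i) - s o i := by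
    intro i
    rw [hc]
    simp only [sub_mul, Finset.sum_sub_distrib, Finset.sum_mul, ite_mul, zero_mul, one_mul]
    rw [Finset.sum_comm]
    simp
  have hf0 : ∀ i, 0 < s o i → ∑ j, c j * s j i = 0 := by
    intro i hi
    rw [hf, Finset.sum_eq_single i]
    · rw [ha]
      have h1 := (hl i hi).2
      field_simp
      ring
    · intro q hq hqi
      rw [hz q i ((hAm q).1 hq) hi hqi.symm, mul_zero]
    · intro h
      exact absurd ((hAm i).2 hi) h
  have hf1 : ∀ i, ¬ 0 < s o i → ∑ j, c j * s j i = ∑ q ∈ A, a q * s (l q) i := by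
    intro i hi
    have h1 : s o i = 0 := le_antisymm (not_lt.1 hi) (hG.nonneg _ _)
    rw [hf, h1, sub_zero]
  have hnn : ∀ i, 0 ≤ ∑ j, c j * s j i := by
    intro i
    by_cases hi : 0 < s o i
    · rw [hf0 i hi]
    · rw [hf1 i hi]
      exact Finset.sum_nonneg fun q hq => mul_nonneg (hapos q hq).le (hG.nonneg _ _)
  obtain ⟨μ, hμ0, hμ⟩ := hG.rowK c hnn
  have hxo : ¬ 0 < s o x := by
    intro h
    have h1 := hz p x hp h hxp
    rw [h1] at hx
    exact lt_irrefl 0 hx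
  have hpos : 0 < ∑ j, μ j * s j x := by
    rw [← hμ x, hf1 x hxo]
    refine Finset.sum_pos' (fun q hq => mul_nonneg (hapos q hq).le (hG.nonneg _ _)) ?_
    exact ⟨p, (hAm p).2 hp, mul_pos (hapos p ((hAm p).2 hp)) hx⟩
  obtain ⟨m, -, hm⟩ := Finset.exists_lt_of_sum_lt
    (s := (Finset.univ : Finset J)) (f := fun _ => (0 : ℝ)) (g := fun j => μ j * s j x)
    (by simpa using hpos)
  have hm' : 0 < μ m * s m x := hm
  have hμm : 0 < μ m := by
    rcases (hμ0 m).lt_or_eq with h | h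
    · exact h
    · rw [← h, zero_mul] at hm'
      exact absurd hm' (lt_irrefl 0)
  have hmx : 0 < s m x := by
    rcases (hG.nonneg m x).lt_or_eq with h | h
    · exact h
    · rw [← h, mul_zero] at hm'
      exact absurd hm' (lt_irrefl 0)
  refine ⟨m, hmx, ?_⟩
  intro i hi
  have h1 : 0 < ∑ j, c j * s j i := by
    rw [hμ i]
    refine Finset.sum_pos' (fun j _ => mul_nonneg (hμ0 j) (hG.nonneg _ _)) ?_
    exact ⟨m, Finset.mem_univ m, mul_pos hμm hi⟩
  have h2 : ¬ 0 < s o i := by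
    intro h
    rw [hf0 i h] at h1
    exact lt_irrefl 0 h1
  refine ⟨h2, ?_⟩
  rw [hf1 i h2] at h1
  obtain ⟨q, hq, hq'⟩ := Finset.exists_lt_of_sum_lt
    (s := A) (f := fun _ => (0 : ℝ)) (g := fun q => a q * s (l q) i) (by simpa using h1)
  refine ⟨q, (hAm q).1 hq, ?_⟩
  rcases (hG.nonneg (l q) i).lt_or_eq with h | h
  · exact h
  · have hq'' : 0 < a q * s (l q) i := hq'
    rw [← h, mul_zero] at hq''
    exact absurd hq'' (lt_irrefl 0)

end Pool.Agent.TNB
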