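import Pool.Agent.TNB.Stmts

/-!
# MP_76926f_co: modules MIS, ONE, TWO
-/

set_option autoImplicit false

namespace Pool.Agent.TNB

open scoped BigOperators

theorem mis_proof2 : Stmt_MIS := by
  classical
  intro I J _ _ s D h huniq
  choose f hf using h.rowpos
  have hzero : ∀ j i, i ≠ f j → s j i = 0 := by
    intro j i hi
    by_contra hne
    exact hi (huniq j i (f j) (lt_of_le_of_ne (h.nonneg j i) (Ne.symm hne)) (hf j))
  have hinj : Function.Injective f := by
    intro j k hjk
    by_contra hne
    obtain ⟨i, h1, _, h2⟩ := h.rowE j j k (Ne.symm hne) (Ne.symm hne)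
    have : i = f k := huniq k i (f k) h2 (hf k)
    rw [this, ← hjk] at h1
    exact (hf j).ne' h1
  have hsurj : Function.Surjective f := by
    intro i
    obtain ⟨j, hj⟩ := h.colpos i
    exact ⟨j, huniq j (f j) i (hf j) hj⟩
  have hcard : Fintype.card J = Fintype.card I := Fintype.card_of_bijective ⟨hinj, hsurj⟩
  have hli : LinearIndependent ℝ (Matrix.of s).row := by
    rw [Fintype.linearIndependent_iff]
    intro c hc j
    have h1 := congrFun hc (f j)
    simp only [Finset.sum_apply, Pi.smul_apply, smul_eq_mul, Pi.zero_apply] at h1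
    rw [Finset.sum_eq_single j] at h1
    · rcases mul_eq_zero.1 h1 with h2 | h2
      · exact h2
      · exact absurd h2 (hf j).ne'
    · intro k _ hk
      have : (Matrix.of s).row k (f j) = s k (f j) := rfl
      rw [this, hzero k (f j) (fun e => hk (hinj e).symm), mul_zero]
    · intro hj
      exact absurd (Finset.mem_univ j) hj
  have := hli.rank_matrix
  rw [h.rank] at this
  rw [← hcard, ← this]

namespace ONEX50

variable {I J : Type} [Fintype I] [Fintype J]

open Classical in
/-- two point vector -/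
noncomputable def gg (al : I → ℝ) (a b : I) : I → ℝ :=
  fun i => (if i = a then 1 / al a else 0) + (if i = b then 1 / (-al b) else 0)

theorem sum_gg (al F : I → ℝ) (a b : I) :
    ∑ i, F i * gg al a b i = F a * (1 / al a) + F b * (1 / (-al b)) := by
  classical
  simp [gg, mul_add, Finset.sum_add_distrib]

theorem gg_left (al : I → ℝ) (a b : I) (ha : 0 < al a) (hb : al b < 0) : gg al a b a = 1 / al a := by
  have : a ≠ b := by rintro rfl; linarith
  simp [gg, this]

theorem gg_right (al : I → ℝ) (a b : I) (ha : 0 < al a) (hb : al b < 0) : gg al a b b = 1 / (-al b) := by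
  have : b ≠ a := by rintro rfl; linarith
  simp [gg, this]

theorem gg_off (al : I → ℝ) (a b i : I) (ha : i ≠ a) (hb : i ≠ b) : gg al a b i = 0 := by
  simp [gg, ha, hb]

theorem gg_nonneg (al : I → ℝ) (a b : I) (ha : 0 < al a) (hb : al b < 0) (i : I) : 0 ≤ gg al a b i := by
  unfold gg
  have h1 : 0 ≤ 1 / al a := by positivity
  have h2 : 0 ≤ 1 / (-al b) := by
    apply div_nonneg zero_le_one; linarith
  split_ifs <;> linarith

end ONEX50

open ONEX50 in
theorem one_proof2 (hN2 : Stmt_N2) (hANN : Stmt_ANN) (hSQ : Stmt_SQ) : Stmt_ONE := by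
  classical
  intro I J _ _ s D h o hfin
  obtain ⟨⟨al, halR⟩, hal0, hspan⟩ := finrank_eq_one_iff'.1 hfin
  have hal : al ≠ 0 := fun e => hal0 (by ext1; exact e)
  have hsupp : ∀ i, s o i ≠ 0 → al i = 0 := halR.1
  have hrel : ∀ j, ∑ i, al i * s j i = 0 := halR.2
  have hspan' : ∀ α ∈ Rel s o, ∃ c : ℝ, ∀ i, α i = c * al i := by
    intro α hα
    obtain ⟨c, hc⟩ := hspan ⟨α, hα⟩
    refine ⟨c, fun i => ?_⟩
    have := congrArg (fun z : Rel s o => z.1 i) hc
    simpa using this.symm
  obtain ⟨a, a', -, haa', -, -, ha, ha', -⟩ := hN2 J I (fun i j => s j i) D h.tr al hrel hal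
  obtain ⟨b, b', -, hbb', -, -, hb, hb', -⟩ := hN2 J I (fun i j => s j i) D h.tr (-al)
    (fun j => by simpa using hrel j) (neg_ne_zero.2 hal)
  have hb : al b < 0 := by simpa using hb
  have hb' : al b' < 0 := by simpa using hb'
  have hW : ∀ i, al i ≠ 0 → s o i = 0 := by
    intro i hi
    by_contra hne
    exact hi (hsupp i hne)
  let A : Fin 4 → I := ![a, a, a', a']
  let B : Fin 4 → I := ![b, b', b, b']
  have hA : ∀ k, 0 < al (A k) := by
    intro k; fin_cases k <;> simp [A, ha, ha']
  have hB : ∀ k, al (B k) < 0 := by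
    intro k; fin_cases k <;> simp [B, hb, hb']
  have hAB : ∀ k k', k ≠ k' → A k ≠ A k' ∨ B k ≠ B k' := by
    intro k k' hk
    fin_cases k <;> fin_cases k' <;> simp_all [A, B, Ne.symm haa', Ne.symm hbb']
  refine hSQ I J s D h o (fun k => gg al (A k) (B k)) ?_ ?_ ?_ ?_ ?_ ?_
  · intro k i _
    exact gg_nonneg al _ _ (hA k) (hB k) i
  · intro k
    refine hANN I J s D h o _ ?_
    intro α hα
    obtain ⟨c, hc⟩ := hspan' α hα
    rw [sum_gg, hc, hc]
    have h1 := (hA k).ne'
    have h2 := (hB k).ne
    field_simp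
    ring
  · intro k
    refine ⟨A k, hW _ (hA k).ne', ?_⟩
    show 0 < gg al (A k) (B k) (A k)
    rw [gg_left al _ _ (hA k) (hB k)]
    exact one_div_pos.2 (hA k)
  · intro k j _ hz
    refine ⟨al (A k) * s j (A k), ?_⟩
    have hne : A k ≠ B k := by
      intro e
      have := hA k; have := hB k; rw [← e] at this; linarith
    have h2 : al (A k) * s j (A k) + al (B k) * s j (B k) = 0 := by
      rw [← hrel j]
      symm
      rw [← Finset.sum_pair hne (f := fun i => al i * s j i)]
      symm
      apply Finset.sum_subset (Finset.subset_univ _)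
      intro i _ hi
      simp only [Finset.mem_insert, Finset.mem_singleton, not_or] at hi
      by_cases hoi : s o i = 0
      · rw [hz i hoi (gg_off al _ _ i hi.1 hi.2), mul_zero]
      · rw [hsupp i hoi, zero_mul]
    intro i hoi
    by_cases h3 : i = A k
    · rw [h3, gg_left al _ _ (hA k) (hB k)]
      have := (hA k).ne'
      field_simp
    · by_cases h4 : i = B k
      · rw [h4, gg_right al _ _ (hA k) (hB k)]
        have := (hB k).ne
        field_simp
        linarith
      · show s j i = al (A k) * s j (A k) * gg al (A k) (B k) i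
        rw [gg_off al _ _ i h3 h4, mul_zero]
        exact hz i hoi (gg_off al _ _ i h3 h4)
  · intro k k' hk
    rcases hAB k k' hk with h1 | h1
    · refine ⟨A k, hW _ (hA k).ne', Or.inr ⟨?_, ?_⟩⟩
      · exact gg_off al _ _ _ h1 (fun e => by have := hA k; have := hB k'; rw [← e] at this; linarith)
      · show 0 < gg al (A k) (B k) (A k)
        rw [gg_left al _ _ (hA k) (hB k)]
        exact one_div_pos.2 (hA k)
    · refine ⟨B k, hW _ (hB k).ne, Or.inr ⟨?_, ?_⟩⟩
      · exact gg_off al _ _ _ (fun e => by have := hA k'; have := hB k; rw [e] at this; linarith) h1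
      · show 0 < gg al (A k) (B k) (B k)
        rw [gg_right al _ _ (hA k) (hB k)]
        exact one_div_pos.2 (by linarith [hB k])
  · intro i _
    show gg al a b i + gg al a' b' i = gg al a b' i + gg al a' b i
    unfold gg
    ring

namespace TWOX50

variable {I J : Type}

open Classical in
/-- three point vector -/
noncomputable def gg (al be : I → ℝ) (w b c : I) : I → ℝ :=
  fun i => (if i = b then 1 / al b else 0) + (if i = c then 1 / (-al c) else 0) +
    (if i = w then -(be b / al b + be c / (-al c)) / be w else 0)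

theorem sum_gg [Fintype I] (al be F : I → ℝ) (w b c : I) :
    ∑ i, F i * gg al be w b c i = F b * (1 / al b) + F c * (1 / (-al c)) +
      F w * (-(be b / al b + be c / (-al c)) / be w) := by
  classical
  simp [gg, mul_add, Finset.sum_add_distrib]

theorem gg_b (al be : I → ℝ) (w b c : I) (hb : 0 < al b) (hc : al c < 0) (hw : al w = 0) :
    gg al be w b c b = 1 / al b := by
  have h1 : b ≠ c := by rintro rfl; linarith
  have h2 : b ≠ w := by rintro rfl; linarith
  simp [gg, h1, h2]

theorem gg_c (al be : I → ℝ) (w b c : I) (hb : 0 < al b) (hc : al c < 0) (hw : al w = 0) :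
    gg al be w b c c = 1 / (-al c) := by
  have h1 : c ≠ b := by rintro rfl; linarith
  have h2 : c ≠ w := by rintro rfl; linarith
  simp [gg, h1, h2]

theorem gg_w (al be : I → ℝ) (w b c : I) (hb : 0 < al b) (hc : al c < 0) (hw : al w = 0) :
    gg al be w b c w = -(be b / al b + be c / (-al c)) / be w := by
  have h1 : w ≠ b := by rintro rfl; linarith
  have h2 : w ≠ c := by rintro rfl; linarith
  simp [gg, h1, h2]

theorem gg_off (al be : I → ℝ) (w b c i : I) (h1 : i ≠ b) (h2 : i ≠ c) (h3 : i ≠ w) :
    gg al be w b c i = 0 := by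
  simp [gg, h1, h2, h3]

/-- choice of the two smallest and a third element -/
theorem choose3 [Fintype I] (P : I → Prop) (x : I → ℝ) (h : ∃ a b c, a ≠ b ∧ a ≠ c ∧ b ≠ c ∧ P a ∧ P b ∧ P c) :
    ∃ a b c, a ≠ b ∧ a ≠ c ∧ b ≠ c ∧ P a ∧ P b ∧ P c ∧ x a ≤ x b ∧ ∀ i, P i → i ≠ a → x b ≤ x i := by
  classical
  obtain ⟨a0, b0, c0, hab, hac, hbc, ha, hb, hc⟩ := h
  let S : Finset I := Finset.univ.filter P
  have hS : ∀ i, i ∈ S ↔ P i := by simp [S]
  obtain ⟨a, haS, hamin⟩ := Finset.exists_min_image S x ⟨a0, (hS _).2 ha⟩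
  have hcard : 3 ≤ S.card := by
    have : ({a0, b0, c0} : Finset I) ⊆ S := by
      intro i hi
      simp only [Finset.mem_insert, Finset.mem_singleton] at hi
      rcases hi with rfl | rfl | rfl <;> simp [hS, ha, hb, hc]
    have h2 := Finset.card_le_card this
    rwa [Finset.card_eq_three.2 ⟨a0, b0, c0, hab, hac, hbc, rfl⟩] at h2
  have h1 : 2 ≤ (S.erase a).card := by rw [Finset.card_erase_of_mem haS]; omega
  obtain ⟨b, hbS, hbmin⟩ := Finset.exists_min_image (S.erase a) x (Finset.card_pos.1 (by omega))
  have h2 : 1 ≤ ((S.erase a).erase b).card := by rw [Finset.card_erase_of_mem hbS]; omega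
  obtain ⟨c, hcS⟩ := Finset.card_pos.1 h2
  have hcS' := Finset.mem_erase.1 hcS
  have hcS'' := Finset.mem_erase.1 hcS'.2
  have hbS' := Finset.mem_erase.1 hbS
  refine ⟨a, b, c, Ne.symm hbS'.1, Ne.symm hcS''.1, Ne.symm hcS'.1, (hS _).1 haS, (hS _).1 hbS'.2,
    (hS _).1 hcS''.2, hamin b hbS'.2, ?_⟩
  intro i hi hia
  exact hbmin i (Finset.mem_erase.2 ⟨hia, (hS _).2 hi⟩)

end TWOX50

open TWOX50 in
/-- the part after the choice of the points -/
theorem two_aux (hANN : Stmt_ANN) (hSQ : Stmt_SQ) (I J : Type) [Fintype I] [Fintype J] (s : J → I → ℝ) (D : ℕ)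
    (h : Good s D) (o : J) (al be : I → ℝ) (hal : al ∈ Rel s o) (hbe : be ∈ Rel s o)
    (hspan : ∀ α ∈ Rel s o, ∃ c d : ℝ, ∀ i, α i = c * al i + d * be i)
    (b b' c c' w : I) (hbb : b ≠ b') (hcc : c ≠ c') (hb : 0 < al b) (hb' : 0 < al b') (hc : al c < 0)
    (hc' : al c' < 0) (hw : al w = 0) (hbw : be w ≠ 0)
    (ht : ∀ x ∈ [b, b'], ∀ y ∈ [c, c'], 0 ≤ -(be x / al x + be y / (-al y)) / be w) : False := by
  classical
  have hW : ∀ i, al i ≠ 0 → s o i = 0 := by
    intro i hi
    by_contra hne
    exact hi (hal.1 i hne)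
  have hWw : s o w = 0 := by
    by_contra hne
    exact hbw (hbe.1 w hne)
  let A : Fin 4 → I := ![b, b, b', b']
  let B : Fin 4 → I := ![c, c', c, c']
  have hA : ∀ k, 0 < al (A k) := by
    intro k; fin_cases k <;> simp [A, hb, hb']
  have hB : ∀ k, al (B k) < 0 := by
    intro k; fin_cases k <;> simp [B, hc, hc']
  have hT : ∀ k, 0 ≤ -(be (A k) / al (A k) + be (B k) / (-al (B k))) / be w := by
    intro k
    apply ht
    · fin_cases k <;> simp [A]
    · fin_cases k <;> simp [B]
  have hAB : ∀ k k', k ≠ k' → A k ≠ A k' ∨ B k ≠ B k' := by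
    intro k k' hk
    fin_cases k <;> fin_cases k' <;> simp_all [A, B, Ne.symm hbb, Ne.symm hcc]
  have hAw : ∀ k, A k ≠ w := by
    intro k e
    have := hA k
    rw [e, hw] at this
    exact lt_irrefl _ this
  have hBw : ∀ k, B k ≠ w := by
    intro k e
    have := hB k
    rw [e, hw] at this
    exact lt_irrefl _ this
  have hne : ∀ k k', A k ≠ B k' := by
    intro k k' e
    have h1 := hA k
    have h2 := hB k'
    rw [← e] at h2
    linarith
  have hpos : ∀ k i, 0 ≤ gg al be w (A k) (B k) i := by
    intro k i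
    by_cases h1 : i = A k
    · rw [h1, gg_b al be w _ _ (hA k) (hB k) hw]
      exact (one_div_pos.2 (hA k)).le
    · by_cases h2 : i = B k
      · rw [h2, gg_c al be w _ _ (hA k) (hB k) hw]
        exact (one_div_pos.2 (by linarith [hB k])).le
      · by_cases h3 : i = w
        · rw [h3, gg_w al be w _ _ (hA k) (hB k) hw]
          exact hT k
        · rw [gg_off al be w _ _ i h1 h2 h3]
  refine hSQ I J s D h o (fun k => gg al be w (A k) (B k)) (fun k i _ => hpos k i) ?_ ?_ ?_ ?_ ?_
  · intro k
    refine hANN I J s D h o _ ?_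
    intro α hα
    obtain ⟨p, q, hpq⟩ := hspan α hα
    rw [sum_gg, hpq, hpq, hpq, hw]
    have h1 := (hA k).ne'
    have h2 := (hB k).ne
    field_simp
    ring
  · intro k
    refine ⟨A k, hW _ (hA k).ne', ?_⟩
    show 0 < gg al be w (A k) (B k) (A k)
    rw [gg_b al be w _ _ (hA k) (hB k) hw]
    exact one_div_pos.2 (hA k)
  · intro k j _ hz
    refine ⟨al (A k) * s j (A k), ?_⟩
    have key : ∀ be' : I → ℝ, be' ∈ Rel s o →
        be' (A k) * s j (A k) + be' (B k) * s j (B k) + be' w * s j w = 0 := by
      intro be' hb'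
      rw [← hb'.2 j]
      have e : ∑ i ∈ ({A k, B k, w} : Finset I), be' i * s j i = ∑ i, be' i * s j i := by
        apply Finset.sum_subset (Finset.subset_univ _)
        intro i _ hi
        simp only [Finset.mem_insert, Finset.mem_singleton, not_or] at hi
        by_cases hoi : s o i = 0
        · rw [hz i hoi (gg_off al be w _ _ i hi.1 hi.2.1 hi.2.2), mul_zero]
        · rw [hb'.1 i hoi, zero_mul]
      rw [← e, Finset.sum_insert, Finset.sum_pair (hBw k), add_assoc]
      simp only [Finset.mem_insert, Finset.mem_singleton, not_or]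
      exact ⟨hne k k, hAw k⟩
    have k1 := key al hal
    have k2 := key be hbe
    rw [hw, zero_mul, add_zero] at k1
    have h1 := (hA k).ne'
    have h2 := (hB k).ne
    intro i hoi
    by_cases h3 : i = A k
    · rw [h3, gg_b al be w _ _ (hA k) (hB k) hw]
      field_simp
    · by_cases h4 : i = B k
      · rw [h4, gg_c al be w _ _ (hA k) (hB k) hw]
        field_simp
        linarith
      · by_cases h5 : i = w
        · rw [h5, gg_w al be w _ _ (hA k) (hB k) hw]
          have e1 : s j (B k) = -(al (A k) * s j (A k)) / al (B k) := by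
            field_simp
            linarith
          have e2 : s j w = -(be (A k) * s j (A k) + be (B k) * s j (B k)) / be w := by
            field_simp
            linarith
          rw [e2, e1]
          field_simp
        · show s j i = al (A k) * s j (A k) * gg al be w (A k) (B k) i
          rw [gg_off al be w _ _ i h3 h4 h5, mul_zero]
          exact hz i hoi (gg_off al be w _ _ i h3 h4 h5)
  · intro k k' hk
    rcases hAB k k' hk with h1 | h1
    · refine ⟨A k, hW _ (hA k).ne', Or.inr ⟨?_, ?_⟩⟩
      · exact gg_off al be w _ _ _ h1 (hne k k') (hAw k)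
      · show 0 < gg al be w (A k) (B k) (A k)
        rw [gg_b al be w _ _ (hA k) (hB k) hw]
        exact one_div_pos.2 (hA k)
    · refine ⟨B k, hW _ (hB k).ne, Or.inr ⟨?_, ?_⟩⟩
      · exact gg_off al be w _ _ _ (Ne.symm (hne k' k)) h1 (hBw k)
      · show 0 < gg al be w (A k) (B k) (B k)
        rw [gg_c al be w _ _ (hA k) (hB k) hw]
        exact one_div_pos.2 (by linarith [hB k])
  · intro i _
    show gg al be w b c i + gg al be w b' c' i = gg al be w b c' i + gg al be w b' c i
    unfold gg
    split_ifs <;> ring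

open TWOX50 in
theorem two_proof2 (hN2 : Stmt_N2) (hANN : Stmt_ANN) (hSQ : Stmt_SQ) : Stmt_TWO := by
  classical
  intro I J _ _ s D h o hfin
  -- a basis of the relations and a point in the support of the first one
  let B := Module.finBasisOfFinrankEq ℝ (Rel s o) hfin
  have hB : ∀ α : Rel s o, ∀ i, α.1 i = B.repr α 0 * (B 0).1 i + B.repr α 1 * (B 1).1 i := by
    intro α i
    have h1 := B.sum_repr α
    rw [Fin.sum_univ_two] at h1
    have h2 := congrArg (fun z : Rel s o => z.1 i) h1
    simpa using h2.symm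
  obtain ⟨w0, hw0⟩ : ∃ w0, (B 0).1 w0 ≠ 0 := by
    by_contra hcon
    push Not at hcon
    apply B.ne_zero 0
    ext1
    exact funext hcon
  obtain ⟨al, hal_def⟩ : ∃ al : I → ℝ, al = fun i => (B 1).1 i - ((B 1).1 w0 / (B 0).1 w0) * (B 0).1 i := ⟨_, rfl⟩
  obtain ⟨be, hbe_def⟩ : ∃ be : I → ℝ, be = fun i => (1 / (B 0).1 w0) * (B 0).1 i := ⟨_, rfl⟩
  have halR : al ∈ Rel s o := by
    rw [hal_def]
    exact (Rel s o).sub_mem (B 1).2 ((Rel s o).smul_mem ((B 1).1 w0 / (B 0).1 w0) (B 0).2)
  have hbeR : be ∈ Rel s o := by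
    rw [hbe_def]
    exact (Rel s o).smul_mem (1 / (B 0).1 w0) (B 0).2
  have halw : al w0 = 0 := by
    rw [hal_def]
    field_simp
    ring
  have hbew : be w0 = 1 := by
    rw [hbe_def]
    field_simp
  have hal : al ≠ 0 := by
    intro e
    have h1 : B 1 = ((B 1).1 w0 / (B 0).1 w0) • B 0 := by
      ext1
      funext i
      have h2 := congrFun e i
      rw [hal_def] at h2
      simp only [Pi.zero_apply] at h2
      have h3 : (((B 1).1 w0 / (B 0).1 w0) • B 0).1 i = ((B 1).1 w0 / (B 0).1 w0) * (B 0).1 i := rfl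
      rw [h3]
      linarith
    have h4 := congrArg (fun z => B.repr z 1) h1
    simp at h4
  have hspan : ∀ α ∈ Rel s o, ∃ c d : ℝ, ∀ i, α i = c * al i + d * be i := by
    intro α hα
    refine ⟨B.repr ⟨α, hα⟩ 1, B.repr ⟨α, hα⟩ 0 * (B 0).1 w0 + B.repr ⟨α, hα⟩ 1 * (B 1).1 w0, fun i => ?_⟩
    have h1 := hB ⟨α, hα⟩ i
    simp only at h1
    rw [h1, hal_def, hbe_def]
    field_simp
    ring
  -- three elements on each side
  have hrelal : ∀ j, ∑ i, al i * s j i = 0 := halR.2
  have hrelbe : ∀ j, ∑ i, be i * s j i = 0 := hbeR.2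
  obtain ⟨b1, b2, b3, hb12, hb13, hb23, hb1, hb2, hb3, hx12, hxmin⟩ :=
    choose3 (fun i => 0 < al i) (fun i => be i / al i) (hN2 J I (fun i j => s j i) D h.tr al hrelal hal)
  obtain ⟨c1, c2, c3, hc12, hc13, hc23, hc1, hc2, hc3, hy12, hymin⟩ :=
    choose3 (fun i => al i < 0) (fun i => be i / (-al i)) (by
      obtain ⟨a, b, c, h1, h2, h3, h4, h5, h6⟩ := hN2 J I (fun i j => s j i) D h.tr (-al)
        (fun j => by simpa using hrelal j) (neg_ne_zero.2 hal)
      exact ⟨a, b, c, h1, h2, h3, by simpa using h4, by simpa using h5, by simpa using h6⟩)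
  by_cases hcase : be b2 / al b2 + be c2 / (-al c2) ≤ 0
  · refine two_aux hANN hSQ I J s D h o al be halR hbeR hspan b1 b2 c1 c2 w0 hb12 hc12 hb1 hb2 hc1 hc2 halw
      (by rw [hbew]; exact one_ne_zero) ?_
    intro x hx y hy
    rw [hbew, div_one]
    have h1 : be x / al x ≤ be b2 / al b2 := by
      simp only [List.mem_cons, List.not_mem_nil, or_false] at hx
      rcases hx with rfl | rfl
      · exact hx12
      · exact le_rfl
    have h2 : be y / (-al y) ≤ be c2 / (-al c2) := by
      simp only [List.mem_cons, List.not_mem_nil, or_false] at hy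
      rcases hy with rfl | rfl
      · exact hy12
      · exact le_rfl
    linarith
  · push Not at hcase
    obtain ⟨w1, hw1, hbw1⟩ : ∃ w1, al w1 = 0 ∧ be w1 < 0 := by
      by_contra hcon
      push Not at hcon
      set x2 := be b2 / al b2 with hx2
      set y2 := be c2 / (-al c2) with hy2
      have hne0 : (fun i => -be i + x2 * al i) ≠ 0 := by
        intro e
        have := congrFun e w0
        simp [halw, hbew] at this
      have hr0 : ∀ j, ∑ i, (-be i + x2 * al i) * s j i = 0 := by
        intro j
        have e1 : ∑ i, (-be i + x2 * al i) * s j i = -(∑ i, be i * s j i) + x2 * ∑ i, al i * s j i := by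
          rw [Finset.mul_sum, ← Finset.sum_neg_distrib, ← Finset.sum_add_distrib]
          apply Finset.sum_congr rfl
          intro i _
          ring
        rw [e1, hrelal, hrelbe]
        simp
      obtain ⟨p, q, r, hpq, hpr, hqr, hp, hq, hr⟩ :=
        hN2 J I (fun i j => s j i) D h.tr (fun i => -be i + x2 * al i) hr0 hne0
      have hin : ∀ i, 0 < -be i + x2 * al i → i = b1 ∨ i = c1 := by
        intro i hi
        rcases lt_trichotomy (al i) 0 with h1 | h1 | h1
        · right
          by_contra hne1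
          have h2 := hymin i h1 hne1
          have h3 : 0 < -al i := by linarith
          have h4 : be i / (-al i) < -x2 := by
            rw [div_lt_iff₀ h3]
            linarith
          linarith
        · have h2 := hcon i h1
          rw [h1] at hi
          linarith
        · left
          by_contra hne1
          have h2 := hxmin i h1 hne1
          have h4 : be i / al i < x2 := by
            rw [div_lt_iff₀ h1]
            linarith
          linarith
      rcases hin p hp with h1 | h1 <;> rcases hin q hq with h2 | h2 <;> rcases hin r hr with h3 | h3 <;>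
        first
        | exact hpq (h1.trans h2.symm)
        | exact hpr (h1.trans h3.symm)
        | exact hqr (h2.trans h3.symm)
    refine two_aux hANN hSQ I J s D h o al be halR hbeR hspan b2 b3 c2 c3 w1 hb23 hc23 hb2 hb3 hc2 hc3 hw1
      hbw1.ne ?_
    intro x hx y hy
    have h1 : be b2 / al b2 ≤ be x / al x := by
      simp only [List.mem_cons, List.not_mem_nil, or_false] at hx
      rcases hx with rfl | rfl
      · exact le_rfl
      · exact hxmin _ hb3 (Ne.symm hb13)
    have h2 : be c2 / (-al c2) ≤ be y / (-al y) := by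
      simp only [List.mem_cons, List.not_mem_nil, or_false] at hy
      rcases hy with rfl | rfl
      · exact le_rfl
      · exact hymin _ hc3 (Ne.symm hc13)
    exact div_nonneg_of_nonpos (by linarith) hbw1.le

end Pool.Agent.TNB
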