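import Pool.Agent.TNB.Stmts

/-!
# MP_76926f_co: module SIM
-/

set_option autoImplicit false

namespace Pool.Agent.TNB

open scoped BigOperators

namespace SIMAux

/-- for every vertex `w` on `o` there is a facet missing only `w` among the vertices on `o` -/
theorem facet {I J : Type} [Fintype I] [Fintype J] (s : J → I → ℝ) (D : ℕ) (h : Good s D)
    (hANN : Stmt_ANN) (hFAC : Stmt_FAC) (o : J) (hR : Rel s o = ⊥) (w : I) (hw : s o w = 0) :
    ∃ j, j ≠ o ∧ 0 < s j w ∧ ∀ i, s o i = 0 → i ≠ w → s j i = 0 := by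
  classical
  obtain ⟨c, hc⟩ := hANN I J s D h o (Pi.single w (1 : ℝ)) (by
    intro α hα
    rw [hR, Submodule.mem_bot] at hα
    subst hα
    simp)
  obtain ⟨μ, hμ, hμo, hμs⟩ := hFAC I J s D h o c (by
    intro i hi
    rw [hc i hi]
    by_cases hiw : i = w
    · subst hiw
      simp
    · rw [Pi.single_eq_of_ne hiw])
  have h1 : ∑ j, μ j * s j w = 1 := by
    rw [← hμs w hw, hc w hw, Pi.single_eq_same]
  have h0 : ∀ i, s o i = 0 → i ≠ w → ∑ j, μ j * s j i = 0 := by
    intro i hi hiw
    rw [← hμs i hi, hc i hi, Pi.single_eq_of_ne hiw]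
  have hex : ∃ j, 0 < μ j * s j w := by
    by_contra hcon
    push Not at hcon
    have : ∑ j, μ j * s j w ≤ 0 := Finset.sum_nonpos fun j _ => hcon j
    linarith
  obtain ⟨j, hj⟩ := hex
  have hμj : 0 < μ j := by
    rcases (hμ j).lt_or_eq with hlt | heq
    · exact hlt
    · rw [← heq] at hj
      simp at hj
  have hsj : 0 < s j w := by
    rcases (h.nonneg j w).lt_or_eq with hlt | heq
    · exact hlt
    · rw [← heq] at hj
      simp at hj
  refine ⟨j, ?_, hsj, ?_⟩
  · rintro rfl
    rw [hμo] at hμj
    exact lt_irrefl _ hμj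
  · intro i hi hiw
    have hsum := h0 i hi hiw
    have hz := (Finset.sum_eq_zero_iff_of_nonneg (fun k _ => mul_nonneg (hμ k) (h.nonneg k i))).1 hsum j
      (Finset.mem_univ j)
    rcases mul_eq_zero.1 hz with hz | hz
    · exact absurd hz (ne_of_gt hμj)
    · exact hz

end SIMAux

theorem sim_proof (hN2 : Stmt_N2) (hKER : Stmt_KER) (hDIM : Stmt_DIM) (hANN : Stmt_ANN)
    (hFAC : Stmt_FAC) (hFULL : Stmt_FULL) : Stmt_SIM := by
  classical
  intro I J _ _ s D h o hR
  have hD : 0 + D = (W s o).card + 1 := by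
    have := hDIM I J s D h o
    rw [hR, finrank_bot] at this
    exact this
  have hf0 : ∀ w, ∃ j, s o w = 0 → (j ≠ o ∧ 0 < s j w ∧ ∀ i, s o i = 0 → i ≠ w → s j i = 0) := by
    intro w
    by_cases hw : s o w = 0
    · obtain ⟨j, hj⟩ := SIMAux.facet s D h hANN hFAC o hR w hw
      exact ⟨j, fun _ => hj⟩
    · exact ⟨o, fun hh => absurd hh hw⟩
  choose f hf using hf0
  -- every other facet is one of them
  have hsurj : ∀ j, j ≠ o → ∃ w, s o w = 0 ∧ f w = j := by
    intro j hj
    by_contra hcon
    push Not at hcon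
    set c : J → ℝ := fun k => (if k = j then 1 else 0)
      - ∑ w ∈ W s o, (if k = f w then s j w / s (f w) w else 0) with hcdef
    have hcs : ∀ i, ∑ k, c k * s k i = s j i - ∑ w ∈ W s o, s j w / s (f w) w * s (f w) i := by
      intro i
      simp only [hcdef, sub_mul, Finset.sum_sub_distrib, Finset.sum_mul]
      rw [Finset.sum_comm]
      congr 1
      · simp
      · refine Finset.sum_congr rfl fun w _ => ?_
        simp
    obtain ⟨t, ht⟩ := hKER I J s D h o c (by
      intro i hi
      rw [hcs i, Finset.sum_eq_single i]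
      · obtain ⟨_, hpos, _⟩ := hf i hi
        rw [div_mul_cancel₀ _ (ne_of_gt hpos), sub_self]
      · intro w hw hwi
        rw [mem_W] at hw
        obtain ⟨_, _, hz⟩ := hf w hw
        rw [hz i hi (Ne.symm hwi), mul_zero]
      · intro hni
        exact absurd (mem_W.2 hi) hni)
    set lam : J → ℝ := fun k => c k - (if k = o then t else 0) with hlam
    have hdep : ∀ i, ∑ k, lam k * s k i = 0 := by
      intro i
      simp only [hlam, sub_mul, Finset.sum_sub_distrib]
      rw [ht i]
      simp
    have hnp : ∀ k, k ≠ j → k ≠ o → lam k ≤ 0 := by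
      intro k hkj hko
      simp only [hlam, hcdef, if_neg hkj, if_neg hko, sub_zero, zero_sub]
      rw [Left.neg_nonpos_iff]
      refine Finset.sum_nonneg fun w hw => ?_
      split_ifs
      · exact div_nonneg (h.nonneg _ _) (h.nonneg _ _)
      · exact le_refl _
    have hlj : lam j = 1 := by
      simp only [hlam, hcdef, if_true, if_neg hj, sub_zero]
      rw [Finset.sum_eq_zero, sub_zero]
      intro w hw
      rw [if_neg]
      intro hh
      exact hcon w (mem_W.1 hw) hh.symm
    have hne : lam ≠ 0 := by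
      intro hz
      rw [hz] at hlj
      simp at hlj
    obtain ⟨a, b, d, hab, had, hbd, ha, hb, hd⟩ := hN2 I J s D h lam hdep hne
    have hin : ∀ k, 0 < lam k → k = j ∨ k = o := by
      intro k hk
      by_contra hcc
      push Not at hcc
      have := hnp k hcc.1 hcc.2
      linarith
    rcases hin a ha with ha' | ha' <;> rcases hin b hb with hb' | hb' <;> rcases hin d hd with hd' | hd'
    · exact hab (ha'.trans hb'.symm)
    · exact hab (ha'.trans hb'.symm)
    · exact had (ha'.trans hd'.symm)
    · exact hbd (hb'.trans hd'.symm)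
    · exact hbd (hb'.trans hd'.symm)
    · exact had (ha'.trans hd'.symm)
    · exact hab (ha'.trans hb'.symm)
    · exact hab (ha'.trans hb'.symm)
  have hinj : ∀ w ∈ W s o, ∀ w' ∈ W s o, f w = f w' → w = w' := by
    intro w hw w' hw' hww
    by_contra hne
    rw [mem_W] at hw hw'
    obtain ⟨_, _, hz⟩ := hf w hw
    obtain ⟨_, hp, _⟩ := hf w' hw'
    have := hz w' hw' (Ne.symm hne)
    rw [hww] at this
    exact (ne_of_gt hp) this
  have hJ : (Finset.univ : Finset J) = insert o ((W s o).image f) := by
    ext j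
    simp only [Finset.mem_univ, Finset.mem_insert, Finset.mem_image, true_iff]
    by_cases hj : j = o
    · exact Or.inl hj
    · obtain ⟨w, hw, hwj⟩ := hsurj j hj
      exact Or.inr ⟨w, mem_W.2 hw, hwj⟩
  have ho : o ∉ (W s o).image f := by
    intro hmem
    obtain ⟨w, hw, hwo⟩ := Finset.mem_image.1 hmem
    exact (hf w (mem_W.1 hw)).1 hwo
  have hcard : Fintype.card J = D := by
    rw [← Finset.card_univ, hJ, Finset.card_insert_of_notMem ho,
      Finset.card_image_of_injOn (fun w hw w' hw' hh => hinj w hw w' hw' hh)]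
    omega
  exact hFULL I J s D h hcard

end Pool.Agent.TNB
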