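import Pool.Agent.TNB.Stmts

/-!
# MP_76926f_co: module SQ
-/

set_option autoImplicit false

namespace Pool.Agent.TNB

open scoped BigOperators

namespace SQAux

theorem exists_pos {J : Type} [Fintype J] (f : J → ℝ) (h : 0 < ∑ j, f j) : ∃ j, 0 < f j := by
  by_contra hc
  push Not at hc
  have : ∑ j, f j ≤ 0 := Finset.sum_nonpos (fun j _ => hc j)
  linarith

theorem no_three {J : Type} (p q a b c : J) (hab : a ≠ b) (hac : a ≠ c) (hbc : b ≠ c)
    (ha : a = p ∨ a = q) (hb : b = p ∨ b = q) (hc : c = p ∨ c = q) : False := by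
  rcases ha with rfl | rfl <;> rcases hb with rfl | rfl <;> rcases hc with rfl | rfl <;>
    first
      | exact hab rfl
      | exact hac rfl
      | exact hbc rfl

end SQAux

open SQAux in
theorem sq_proof (hN2 : Stmt_N2) (hKER : Stmt_KER) (hFAC : Stmt_FAC) : Stmt_SQ := by
  classical
  intro I J _ _ s D hs o g hg0 hgc hgp hext hdist hsum
  have key : ∀ k : Fin 4, ∃ (j : J) (t : ℝ), j ≠ o ∧ 0 < t ∧ ∀ i, s o i = 0 → s j i = t * g k i := by
    intro k
    obtain ⟨c, hc⟩ := hgc k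
    obtain ⟨μ, hμ, hμo, hμe⟩ := hFAC I J s D hs o c
      (fun i hi => by rw [hc i hi]; exact hg0 k i hi)
    obtain ⟨i0, hi0, hpos⟩ := hgp k
    have h1 : 0 < ∑ j, μ j * s j i0 := by
      rw [← hμe i0 hi0, hc i0 hi0]; exact hpos
    obtain ⟨j, hj⟩ := exists_pos _ h1
    have hμj : 0 < μ j := by
      rcases (hμ j).lt_or_eq with h | h
      · exact h
      · rw [← h, zero_mul] at hj
        exact absurd hj (lt_irrefl _)
    have hjo : j ≠ o := by
      rintro rfl
      rw [hμo] at hμj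
      exact lt_irrefl _ hμj
    have hz : ∀ i, s o i = 0 → g k i = 0 → s j i = 0 := by
      intro i hi hgi
      have h0 : ∑ j, μ j * s j i = 0 := by rw [← hμe i hi, hc i hi, hgi]
      have h2 := (Finset.sum_eq_zero_iff_of_nonneg
        (fun j _ => mul_nonneg (hμ j) (hs.nonneg j i))).1 h0 j (Finset.mem_univ j)
      exact (mul_eq_zero.1 h2).resolve_left hμj.ne'
    obtain ⟨t, ht⟩ := hext k j hjo hz
    refine ⟨j, t, hjo, ?_, ht⟩
    have h3 : 0 < s j i0 := by
      rcases (hs.nonneg j i0).lt_or_eq with h | h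
      · exact h
      · rw [← h, mul_zero] at hj
        exact absurd hj (lt_irrefl _)
    rw [ht i0 hi0] at h3
    exact (mul_pos_iff_of_pos_right hpos).1 h3
  choose jj t hjo ht hjt using key
  have hinj : ∀ k k', k ≠ k' → jj k ≠ jj k' := by
    intro k k' hkk heq
    obtain ⟨i, hi, h⟩ := hdist k k' hkk
    have e1 := hjt k i hi
    have e2 := hjt k' i hi
    rw [heq, e2] at e1
    rcases h with ⟨a, b⟩ | ⟨a, b⟩
    · rw [a, mul_zero] at e1
      have := mul_pos (ht k') b
      linarith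
    · rw [a, mul_zero] at e1
      have := mul_pos (ht k) b
      linarith
  obtain ⟨c, hcdef⟩ : ∃ c : J → ℝ, c = fun j => (if j = jj 0 then (t 0)⁻¹ else 0) +
      (if j = jj 3 then (t 3)⁻¹ else 0) - (if j = jj 1 then (t 1)⁻¹ else 0) -
      (if j = jj 2 then (t 2)⁻¹ else 0) := ⟨_, rfl⟩
  have hcsum : ∀ i, ∑ j, c j * s j i = (t 0)⁻¹ * s (jj 0) i + (t 3)⁻¹ * s (jj 3) i -
      (t 1)⁻¹ * s (jj 1) i - (t 2)⁻¹ * s (jj 2) i := by
    intro i
    rw [hcdef]
    simp only [sub_mul, add_mul, Finset.sum_add_distrib, Finset.sum_sub_distrib, ite_mul,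
      zero_mul, Finset.sum_ite_eq', Finset.mem_univ, if_true]
  have hW : ∀ i, s o i = 0 → ∑ j, c j * s j i = 0 := by
    intro i hi
    rw [hcsum i, hjt 0 i hi, hjt 1 i hi, hjt 2 i hi, hjt 3 i hi,
      inv_mul_cancel_left₀ (ht 0).ne', inv_mul_cancel_left₀ (ht 1).ne',
      inv_mul_cancel_left₀ (ht 2).ne', inv_mul_cancel_left₀ (ht 3).ne']
    have := hsum i hi
    linarith
  obtain ⟨τ, hτ⟩ := hKER I J s D hs o c hW
  obtain ⟨lam, hlam⟩ : ∃ lam : J → ℝ, lam = fun j => c j - (if j = o then τ else 0) := ⟨_, rfl⟩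
  have hl0 : ∀ i, ∑ j, lam j * s j i = 0 := by
    intro i
    rw [hlam]
    simp only [sub_mul, Finset.sum_sub_distrib, ite_mul, zero_mul, Finset.sum_ite_eq',
      Finset.mem_univ, if_true]
    rw [hτ i, sub_self]
  have hv0 : lam (jj 0) = (t 0)⁻¹ := by
    rw [hlam, hcdef]
    simp only [if_true, if_neg (hinj 0 3 (by decide)), if_neg (hinj 0 1 (by decide)),
      if_neg (hinj 0 2 (by decide)), if_neg (hjo 0)]
    ring
  have hp0 : 0 < (t 0)⁻¹ := inv_pos.2 (ht 0)
  have hp1 : 0 < (t 1)⁻¹ := inv_pos.2 (ht 1)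
  have hp2 : 0 < (t 2)⁻¹ := inv_pos.2 (ht 2)
  have hp3 : 0 < (t 3)⁻¹ := inv_pos.2 (ht 3)
  have hne : lam ≠ 0 := by
    intro h
    rw [h, Pi.zero_apply] at hv0
    linarith
  rcases le_total 0 τ with h | h
  · obtain ⟨a, b, e, hab, hae, hbe, pa, pb, pe⟩ := hN2 I J s D hs lam hl0 hne
    have hx : ∀ j, 0 < lam j → j = jj 0 ∨ j = jj 3 := by
      intro j hj
      by_contra hcon
      push Not at hcon
      rw [hlam, hcdef] at hj
      simp only [if_neg hcon.1, if_neg hcon.2] at hj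
      split_ifs at hj <;> linarith
    exact no_three _ _ a b e hab hae hbe (hx a pa) (hx b pb) (hx e pe)
  · have hl0' : ∀ i, ∑ j, (-lam) j * s j i = 0 := by
      intro i
      simp only [Pi.neg_apply, neg_mul, Finset.sum_neg_distrib, hl0 i, neg_zero]
    obtain ⟨a, b, e, hab, hae, hbe, pa, pb, pe⟩ := hN2 I J s D hs (-lam) hl0' (neg_ne_zero.2 hne)
    have hx : ∀ j, 0 < (-lam) j → j = jj 1 ∨ j = jj 2 := by
      intro j hj
      by_contra hcon
      push Not at hcon
      rw [Pi.neg_apply, hlam, hcdef] at hj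
      simp only [if_neg hcon.1, if_neg hcon.2] at hj
      split_ifs at hj <;> linarith
    exact no_three _ _ a b e hab hae hbe (hx a pa) (hx b pb) (hx e pe)

end Pool.Agent.TNB
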