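import Pool.Agent.TNB.Stmts

set_option autoImplicit false

namespace Pool.Agent.TNB

theorem t1_proof : Stmt_T1 := by
  intro I J _ _ s D h j p q hpq hp hq l hlj
  obtain ⟨r, hr, -, hjr⟩ := h.rowE l l j hlj.symm hlj.symm
  obtain ⟨q', hq'r, hjq'⟩ : ∃ q', r ≠ q' ∧ 0 < s j q' := by
    by_cases hrp : r = p
    · exact ⟨q, by rw [hrp]; exact hpq, hq⟩
    · exact ⟨p, hrp, hp⟩
  obtain ⟨m, hm, -, hmr⟩ := h.colE q' q' r hq'r hq'r
  have hjm : j ≠ m := by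
    rintro rfl
    linarith
  obtain ⟨x, hlx, hmx, hjx⟩ := h.rowE l m j hlj.symm hjm
  refine ⟨r, x, ?_, hjr, hjx, hr, hlx⟩
  rintro rfl
  linarith

end Pool.Agent.TNB
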