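import Pool.Agent.TNB.Final
import Pool.Agent.TNB.N2
import Pool.Agent.TNB.T1
import Pool.Agent.TNB.KER
import Pool.Agent.TNB.DIM
import Pool.Agent.TNB.ANN
import Pool.Agent.TNB.FAC
import Pool.Agent.TNB.SQ
import Pool.Agent.TNB.FULL
import Pool.Agent.TNB.SIM
import Pool.Agent.TNB.Rest
import Pool.Agent.TNB.REL
import Pool.Agent.TNB.COM
import Pool.Agent.TNB.MAIN

/-!
# MP_76926f_co: all modules together
-/

set_option autoImplicit false

namespace Pool.Agent.TNB

theorem full_all : Stmt_FULL := full_proof n2_proof

theorem sq_all : Stmt_SQ := sq_proof n2_proof ker_proof fac_proof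

theorem main_all : Stmt_MAIN :=
  main_proof t1_proof (dim_proof ker_proof)
    (sim_proof n2_proof ker_proof (dim_proof ker_proof) ann_proof fac_proof full_all)
    (one_proof2 n2_proof ann_proof sq_all) (two_proof2 n2_proof ann_proof sq_all) rel_proof com_proof mis_proof2

end Pool.Agent.TNB
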