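import Mathlib

/-!
# MP_76926f_co: definitions

Slack matrices `s : J -> I -> R` (rows `J` = facets, columns `I` = vertices) of polytopes that are 2-neighborly with
2-neighborly dual.  `D` is the dimension of the polytope plus one.
-/

set_option autoImplicit false

namespace Pool.Agent.TNB

open scoped BigOperators

/-- The slack matrix of a `(D-1)`-dimensional polytope any two vertices of which span an edge and any two facets of
which meet in a ridge. -/
structure Good {I J : Type} [Fintype I] [Fintype J] (s : J → I → ℝ) (D : ℕ) : Prop where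
  nonneg : ∀ j i, 0 ≤ s j i
  rank : (Matrix.of s).rank = D
  rowK : ∀ c : J → ℝ, (∀ i, 0 ≤ ∑ j, c j * s j i) →
    ∃ μ : J → ℝ, (∀ j, 0 ≤ μ j) ∧ ∀ i, ∑ j, c j * s j i = ∑ j, μ j * s j i
  colK : ∀ c : I → ℝ, (∀ j, 0 ≤ ∑ i, c i * s j i) →
    ∃ μ : I → ℝ, (∀ i, 0 ≤ μ i) ∧ ∀ j, ∑ i, c i * s j i = ∑ i, μ i * s j i
  rowE : ∀ j j' m, m ≠ j → m ≠ j' → ∃ i, s j i = 0 ∧ s j' i = 0 ∧ 0 < s m i
  colE : ∀ i i' l, l ≠ i → l ≠ i' → ∃ j, s j i = 0 ∧ s j i' = 0 ∧ 0 < s j l
  rowpos : ∀ j, ∃ i, 0 < s j i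
  colpos : ∀ i, ∃ j, 0 < s j i

theorem Good.tr {I J : Type} [Fintype I] [Fintype J] {s : J → I → ℝ} {D : ℕ} (h : Good s D) :
    Good (fun i j => s j i) D where
  nonneg i j := h.nonneg j i
  rank := by
    have e : (Matrix.of fun i j => s j i) = (Matrix.of s).transpose := rfl
    rw [e, Matrix.rank_transpose]
    exact h.rank
  rowK := h.colK
  colK := h.rowK
  rowE := h.colE
  colE := h.rowE
  rowpos := h.colpos
  colpos := h.rowpos

/-- the vertices on facet `j` -/
noncomputable def W {I J : Type} [Fintype I] (s : J → I → ℝ) (j : J) : Finset I := by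
  classical exact Finset.univ.filter fun i => s j i = 0

/-- the vertices missed by facet `j` -/
noncomputable def C {I J : Type} [Fintype I] (s : J → I → ℝ) (j : J) : Finset I := by
  classical exact Finset.univ.filter fun i => 0 < s j i

theorem mem_W {I J : Type} [Fintype I] {s : J → I → ℝ} {j : J} {i : I} : i ∈ W s j ↔ s j i = 0 := by
  classical
  simp [W]

theorem mem_C {I J : Type} [Fintype I] {s : J → I → ℝ} {j : J} {i : I} : i ∈ C s j ↔ 0 < s j i := by
  classical
  simp [C]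

/-- the affine dependencies among the vertices on facet `o` -/
def Rel {I J : Type} [Fintype I] (s : J → I → ℝ) (o : J) : Submodule ℝ (I → ℝ) where
  carrier := {α | (∀ i, s o i ≠ 0 → α i = 0) ∧ ∀ j, ∑ i, α i * s j i = 0}
  add_mem' := by
    rintro a b ⟨ha, ha'⟩ ⟨hb, hb'⟩
    refine ⟨fun i hi => by simp [ha i hi, hb i hi], fun j => ?_⟩
    simp only [Pi.add_apply, add_mul, Finset.sum_add_distrib, ha' j, hb' j, add_zero]
  zero_mem' := ⟨fun i _ => rfl, fun j => by simp⟩
  smul_mem' := by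
    rintro c a ⟨ha, ha'⟩
    refine ⟨fun i hi => by simp [ha i hi], fun j => ?_⟩
    simp only [Pi.smul_apply, smul_eq_mul, mul_assoc, ← Finset.mul_sum, ha' j, mul_zero]

/-- Combinatorics of the partial linear space case: `inc j i` means that vertex `i` is not on facet `j`. -/
structure PL {I J : Type} [Fintype I] [Fintype J] (inc : J → I → Prop) : Prop where
  rowE : ∀ j j' m, m ≠ j → m ≠ j' → ∃ i, ¬ inc j i ∧ ¬ inc j' i ∧ inc m i
  colE : ∀ i i' l, l ≠ i → l ≠ i' → ∃ j, ¬ inc j i ∧ ¬ inc j i' ∧ inc j l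
  pls : ∀ j k i i', j ≠ k → i ≠ i' → inc j i → inc j i' → inc k i → ¬ inc k i'
  rel : ∀ (o : J) (l : I → J), (∀ p, inc o p → l p ≠ o ∧ inc (l p) p) →
    ∀ p x, inc o p → inc (l p) x → x ≠ p →
      ∃ m, inc m x ∧ ∀ i, inc m i → ¬ inc o i ∧ ∃ p', inc o p' ∧ inc (l p') i
  relc : ∀ (o : I) (l : J → I), (∀ p, inc p o → l p ≠ o ∧ inc p (l p)) →
    ∀ p x, inc p o → inc x (l p) → x ≠ p →
      ∃ m, inc x m ∧ ∀ j, inc j m → ¬ inc j o ∧ ∃ p', inc p' o ∧ inc j (l p')

theorem PL.tr {I J : Type} [Fintype I] [Fintype J] {inc : J → I → Prop} (h : PL inc) :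
    PL (fun i j => inc j i) where
  rowE := h.colE
  colE := h.rowE
  pls := fun i i' j j' hi hj h1 h2 h3 h4 => h.pls j j' i i' hj hi h1 h3 h2 h4
  rel := h.relc
  relc := h.rel

end Pool.Agent.TNB
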