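import Pool.Agent.TNB.Defs

/-!
# MP_76926f_co: statements of the modules
-/

set_option autoImplicit false

namespace Pool.Agent.TNB

open scoped BigOperators

/-- every nonzero dependency between facet functionals has at least three positive coefficients -/
def Stmt_N2 : Prop := ∀ (I J : Type) [Fintype I] [Fintype J] (s : J → I → ℝ) (D : ℕ), Good s D →
  ∀ lam : J → ℝ, (∀ i, ∑ j, lam j * s j i = 0) → lam ≠ 0 →
    ∃ a b c, a ≠ b ∧ a ≠ c ∧ b ≠ c ∧ 0 < lam a ∧ 0 < lam b ∧ 0 < lam c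

/-- a facet missing at least two vertices misses at least two vertices lying on any other given facet -/
def Stmt_T1 : Prop := ∀ (I J : Type) [Fintype I] [Fintype J] (s : J → I → ℝ) (D : ℕ), Good s D →
  ∀ j p q, p ≠ q → 0 < s j p → 0 < s j q → ∀ l, l ≠ j →
    ∃ a b, a ≠ b ∧ 0 < s j a ∧ 0 < s j b ∧ s l a = 0 ∧ s l b = 0

/-- a combination of the rows vanishing on facet `o` is a multiple of row `o` -/
def Stmt_KER : Prop := ∀ (I J : Type) [Fintype I] [Fintype J] (s : J → I → ℝ) (D : ℕ), Good s D →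
  ∀ (o : J) (c : J → ℝ), (∀ i, s o i = 0 → ∑ j, c j * s j i = 0) →
    ∃ t : ℝ, ∀ i, ∑ j, c j * s j i = t * s o i

/-- dimension of the space of dependencies of the vertices on a facet -/
def Stmt_DIM : Prop := ∀ (I J : Type) [Fintype I] [Fintype J] (s : J → I → ℝ) (D : ℕ), Good s D →
  ∀ o : J, Module.finrank ℝ (Rel s o) + D = (W s o).card + 1

/-- double annihilator: a vector orthogonal to all dependencies of the vertices on `o` is a combination of rows there -/
def Stmt_ANN : Prop := ∀ (I J : Type) [Fintype I] [Fintype J] (s : J → I → ℝ) (D : ℕ), Good s D →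
  ∀ (o : J) (g : I → ℝ), (∀ α ∈ Rel s o, ∑ i, α i * g i = 0) →
    ∃ c : J → ℝ, ∀ i, s o i = 0 → ∑ j, c j * s j i = g i

/-- a combination of rows which is nonnegative on facet `o` is there a nonnegative combination of the other rows -/
def Stmt_FAC : Prop := ∀ (I J : Type) [Fintype I] [Fintype J] (s : J → I → ℝ) (D : ℕ), Good s D →
  ∀ (o : J) (c : J → ℝ), (∀ i, s o i = 0 → 0 ≤ ∑ j, c j * s j i) →
    ∃ μ : J → ℝ, (∀ j, 0 ≤ μ j) ∧ μ o = 0 ∧ ∀ i, s o i = 0 → ∑ j, c j * s j i = ∑ j, μ j * s j i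

/-- no square: four extreme nonnegative vectors with `g1 + g4 = g2 + g3` on facet `o` do not exist -/
def Stmt_SQ : Prop := ∀ (I J : Type) [Fintype I] [Fintype J] (s : J → I → ℝ) (D : ℕ), Good s D →
  ∀ (o : J) (g : Fin 4 → I → ℝ),
    (∀ k i, s o i = 0 → 0 ≤ g k i) →
    (∀ k, ∃ c : J → ℝ, ∀ i, s o i = 0 → ∑ j, c j * s j i = g k i) →
    (∀ k, ∃ i, s o i = 0 ∧ 0 < g k i) →
    (∀ k j, j ≠ o → (∀ i, s o i = 0 → g k i = 0 → s j i = 0) → ∃ t : ℝ, ∀ i, s o i = 0 → s j i = t * g k i) →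
    (∀ k k', k ≠ k' → ∃ i, s o i = 0 ∧ ((g k i = 0 ∧ 0 < g k' i) ∨ (g k' i = 0 ∧ 0 < g k i))) →
    ¬ (∀ i, s o i = 0 → g 0 i + g 3 i = g 1 i + g 2 i)

/-- as many facets as the rank: simplex -/
def Stmt_FULL : Prop := ∀ (I J : Type) [Fintype I] [Fintype J] (s : J → I → ℝ) (D : ℕ), Good s D →
  Fintype.card J = D → Fintype.card I = D

/-- a facet without dependencies: simplex -/
def Stmt_SIM : Prop := ∀ (I J : Type) [Fintype I] [Fintype J] (s : J → I → ℝ) (D : ℕ), Good s D →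
  ∀ o : J, Rel s o = ⊥ → Fintype.card I = D

/-- the space of dependencies of the vertices on a facet is not one-dimensional -/
def Stmt_ONE : Prop := ∀ (I J : Type) [Fintype I] [Fintype J] (s : J → I → ℝ) (D : ℕ), Good s D →
  ∀ o : J, Module.finrank ℝ (Rel s o) ≠ 1

/-- the space of dependencies of the vertices on a facet is not two-dimensional -/
def Stmt_TWO : Prop := ∀ (I J : Type) [Fintype I] [Fintype J] (s : J → I → ℝ) (D : ℕ), Good s D →
  ∀ o : J, Module.finrank ℝ (Rel s o) ≠ 2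

/-- the relation of the partial linear space case -/
def Stmt_REL : Prop := ∀ (I J : Type) [Fintype I] [Fintype J] (s : J → I → ℝ) (D : ℕ), Good s D →
  (∀ j k i i', j ≠ k → i ≠ i' → 0 < s j i → 0 < s j i' → 0 < s k i → ¬ 0 < s k i') →
  ∀ (o : J) (l : I → J), (∀ p, 0 < s o p → l p ≠ o ∧ 0 < s (l p) p) →
    ∀ p x, 0 < s o p → 0 < s (l p) x → x ≠ p →
      ∃ m, 0 < s m x ∧ ∀ i, 0 < s m i → ¬ 0 < s o i ∧ ∃ p', 0 < s o p' ∧ 0 < s (l p') i

/-- combinatorial no-go for partial linear spaces -/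
def Stmt_COM : Prop := ∀ (I J : Type) [Fintype I] [Fintype J] (inc : J → I → Prop), PL inc →
  ∀ j i i', inc j i → inc j i' → i = i'

/-- every facet misses only one vertex: simplex -/
def Stmt_MIS : Prop := ∀ (I J : Type) [Fintype I] [Fintype J] (s : J → I → ℝ) (D : ℕ), Good s D →
  (∀ j i i', 0 < s j i → 0 < s j i' → i = i') → Fintype.card I = D

/-- the main theorem for slack matrices -/
def Stmt_MAIN : Prop := ∀ (I J : Type) [Fintype I] [Fintype J] (s : J → I → ℝ) (D : ℕ), Good s D →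
  Fintype.card I ≠ D →
    (∀ j, D + 2 ≤ (W s j).card) ∧
    (∃ j k p q, j ≠ k ∧ p ≠ q ∧ 0 < s j p ∧ 0 < s j q ∧ 0 < s k p ∧ 0 < s k q) ∧
    D + 6 ≤ Fintype.card I

end Pool.Agent.TNB
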