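import Pool.Agent.TNB.Geo3
import Pool.Agent.TNB.Stmts

/-!
# MP_76926f_co: assembly
-/

set_option autoImplicit false

namespace Pool.Agent.TNB

variable {d : ℕ}

/-- The dimension (of the affine span) of a set of points. -/
noncomputable def Dim (F : Set (EE d)) : ℕ := Module.finrank ℝ (vectorSpan ℝ F)

/-- `F` is an exposed face of the polytope `Poly S = conv S`. -/
def Face (S : Finset (EE d)) (F : Set (EE d)) : Prop := IsExposed ℝ (Poly S) F

/-- `conv S` affinely spans the space. -/
def FullDim (S : Finset (EE d)) : Prop := affineSpan ℝ (Poly S) = ⊤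

/-- The facets of the polytope `conv S` in `ℝ^d`: its nonempty exposed faces of dimension `d - 1`. -/
def Facets (S : Finset (EE d)) : Set (Set (EE d)) := {F | Face S F ∧ F.Nonempty ∧ Dim F + 1 = d}

/-- The vertices of the polytope `conv S`. -/
def Vertices (S : Finset (EE d)) : Set (EE d) := Set.extremePoints ℝ (Poly S)

/-- `conv S` is a polytope as asked for in the question: full-dimensional in `ℝ^d`, not a simplex, any two vertices
span an edge, and any two facets meet in a face of dimension `d - 2`. -/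
structure IsExample (d : ℕ) (S : Finset (EE d)) : Prop where
  full : FullDim S
  notSimplex : (Vertices S).ncard ≠ d + 1
  edges : ∀ v ∈ Vertices S, ∀ w ∈ Vertices S, v ≠ w → Face S (segment ℝ v w)
  ridges : ∀ F ∈ Facets S, ∀ G ∈ Facets S, F ≠ G → (F ∩ G).Nonempty ∧ Dim (F ∩ G) + 2 = d

variable {S : Finset (EE d)}

theorem Vertices_finite : (Vertices S).Finite :=
  S.finite_toSet.subset extremePoints_convexHull_subset

theorem IsExample.dim_ne (h : IsExample d S) : d ≠ 0 := by
  rintro rfl
  apply h.notSimplex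
  have hne : (S : Set (EuclideanSpace ℝ (Fin 0))).Nonempty := by
    by_contra hc
    rw [Set.not_nonempty_iff_eq_empty] at hc
    have := h.full
    rw [FullDim, Poly, hc, convexHull_empty, AffineSubspace.span_empty] at this
    exact (AffineSubspace.bot_ne_top ℝ _ _) this
  obtain ⟨x, hx⟩ := hne
  have : Vertices S = {x} := by
    ext y
    rw [Set.mem_singleton_iff]
    constructor
    · intro _; exact Subsingleton.elim _ _
    · rintro rfl
      exact ⟨subset_convexHull ℝ _ hx, fun _ _ _ _ _ => Subsingleton.elim _ _⟩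
  rw [this, Set.ncard_singleton]

/-- the vertices as a finite set -/
noncomputable def VT (S : Finset (EuclideanSpace ℝ (Fin d))) : Finset (EE d) :=
  (Vertices_finite (S := S)).toFinset

theorem coe_VT : (VT S : Set (EE d)) = Vertices S := Set.Finite.coe_toFinset _

theorem mem_VT {x : EE d} : x ∈ VT S ↔ x ∈ Vertices S := Set.Finite.mem_toFinset _

theorem Poly_VT : Poly (VT S) = Poly S := by
  have h := closure_convexHull_extremePoints (S.finite_toSet.isCompact_convexHull ℝ)
    (convex_convexHull ℝ (↑S : Set (EuclideanSpace ℝ (Fin d))))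
  have h2 : IsClosed (convexHull ℝ (Vertices S)) := (Vertices_finite.isCompact_convexHull ℝ).isClosed
  rw [Poly, coe_VT]
  rw [Vertices, Poly] at h2 ⊢
  rw [h2.closure_eq] at h
  exact h

theorem isFacet_VT {F : Set (EE d)} : IsFacet (VT S) F ↔ F ∈ Facets S := by
  rw [IsFacet, Poly_VT]
  rfl

theorem IsExample.good (h : IsExample d S) : Good (slk (T := VT S)) (d + 1) := by
  refine good_slk ?_ h.dim_ne ?_ ?_ ?_
  · rw [← affineSpan_convexHull]
    have := Poly_VT (S := S)
    rw [Poly] at this
    rw [this]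
    exact h.full
  · intro x hx
    rw [Poly_VT]
    exact mem_VT.1 hx
  · intro v hv w hw hvw
    rw [Poly_VT]
    exact h.edges v (mem_VT.1 hv) w (mem_VT.1 hw) hvw
  · intro F G hF hG hFG
    exact h.ridges F (isFacet_VT.1 hF) G (isFacet_VT.1 hG) hFG

theorem card_VT : Fintype.card (VT S) = (Vertices S).ncard := by
  rw [Fintype.card_coe, ← coe_VT, Set.ncard_coe_finset]

theorem card_Fct : Fintype.card (Fct (VT S)) = (Facets S).ncard := by
  have h : Facets S = {F | IsFacet (VT S) F} := by
    ext F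
    exact isFacet_VT.symm
  rw [h, ← Nat.card_coe_set_eq, ← Nat.card_eq_fintype_card]
  rfl

theorem main_card (hmain : Stmt_MAIN) (hfull : Stmt_FULL) (h : IsExample d S) :
    d + 7 ≤ (Vertices S).ncard ∧ d + 7 ≤ (Facets S).ncard := by
  have hg := h.good
  have h1 : Fintype.card (VT S) ≠ d + 1 := by
    rw [card_VT]; exact h.notSimplex
  have h2 : Fintype.card (Fct (VT S)) ≠ d + 1 := fun h2 => h1 (hfull _ _ _ _ hg h2)
  have h3 := (hmain _ _ _ _ hg h1).2.2
  have h4 := (hmain _ _ _ _ hg.tr h2).2.2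
  rw [card_VT] at h3
  rw [card_Fct] at h4
  constructor <;> omega

theorem main_facet (hmain : Stmt_MAIN) (hfull : Stmt_FULL) (h : IsExample d S) :
    (∀ F ∈ Facets S, d + 3 ≤ (Vertices S ∩ F).ncard) ∧
    (∀ v ∈ Vertices S, d + 3 ≤ {F ∈ Facets S | v ∈ F}.ncard) := by
  classical
  have hg := h.good
  have h1 : Fintype.card (VT S) ≠ d + 1 := by
    rw [card_VT]; exact h.notSimplex
  have h2 : Fintype.card (Fct (VT S)) ≠ d + 1 := fun h2 => h1 (hfull _ _ _ _ hg h2)
  have h3 := (hmain _ _ _ _ hg h1).1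
  have h4 := (hmain _ _ _ _ hg.tr h2).1
  have hFf : (Facets S).Finite := by
    have : Facets S = {F | IsFacet (VT S) F} := by
      ext F
      exact isFacet_VT.symm
    rw [this]
    exact facets_finite
  constructor
  · intro F hF
    let Fc : Fct (VT S) := ⟨F, isFacet_VT.2 hF⟩
    have h5 : d + 1 + 2 ≤ (W (slk (T := VT S)) Fc).card := h3 Fc
    have h6 : ((W (slk (T := VT S)) Fc).image fun v : VT S => (v : EE d)).card ≤ (Vertices S ∩ F).ncard := by
      rw [← Set.ncard_coe_finset]
      refine Set.ncard_le_ncard ?_ (Vertices_finite.inter_of_left _)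
      intro x hx
      rw [Finset.mem_coe, Finset.mem_image] at hx
      obtain ⟨v, hv, rfl⟩ := hx
      have hv2 : slk Fc v = 0 := mem_W.1 hv
      exact ⟨mem_VT.1 v.2, slk_zero.1 hv2⟩
    rw [Finset.card_image_of_injective _ Subtype.val_injective] at h6
    omega
  · intro v hv
    let vc : VT S := ⟨v, mem_VT.2 hv⟩
    have h5 : d + 1 + 2 ≤ (W (fun (i : VT S) (j : Fct (VT S)) => slk j i) vc).card := h4 vc
    have hinj : Function.Injective fun F : Fct (VT S) => F.1 := fun F G h => Subtype.ext h
    have h6 : ((W (fun (i : VT S) (j : Fct (VT S)) => slk j i) vc).image fun F : Fct (VT S) => F.1).card ≤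
        {F ∈ Facets S | v ∈ F}.ncard := by
      rw [← Set.ncard_coe_finset]
      refine Set.ncard_le_ncard ?_ (hFf.subset fun F hF => hF.1)
      intro x hx
      rw [Finset.mem_coe, Finset.mem_image] at hx
      obtain ⟨F, hF, rfl⟩ := hx
      have hF2 : slk F vc = 0 := (mem_W (s := fun (i : VT S) (j : Fct (VT S)) => slk j i)).1 hF
      exact ⟨isFacet_VT.1 F.2, slk_zero.1 hF2⟩
    rw [Finset.card_image_of_injective _ hinj] at h6
    omega

theorem main_pair (hmain : Stmt_MAIN) (h : IsExample d S) :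
    ∃ F ∈ Facets S, ∃ G ∈ Facets S, F ≠ G ∧
      ∃ v ∈ Vertices S, ∃ w ∈ Vertices S, v ≠ w ∧ v ∉ F ∪ G ∧ w ∉ F ∪ G := by
  have hg := h.good
  have h1 : Fintype.card (VT S) ≠ d + 1 := by
    rw [card_VT]; exact h.notSimplex
  obtain ⟨F, G, v, w, hFG, hvw, h2, h3, h4, h5⟩ := (hmain _ _ _ _ hg h1).2.1
  rw [slk_pos_iff] at h2 h3 h4 h5
  refine ⟨F.1, isFacet_VT.1 F.2, G.1, isFacet_VT.1 G.2, fun e => hFG (Subtype.ext e), v, mem_VT.1 v.2, w,
    mem_VT.1 w.2, fun e => hvw (Subtype.ext e), ?_, ?_⟩
  · rintro (h | h)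
    · exact h2 h
    · exact h4 h
  · rintro (h | h)
    · exact h3 h
    · exact h5 h

end Pool.Agent.TNB
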