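import Pool.Agent.TNB.Defs

/-!
# MP_76926f_co: polytopes and their facet functionals, part 1
-/

set_option autoImplicit false

namespace Pool.Agent.TNB

open scoped BigOperators InnerProductSpace

/-- Euclidean space -/
abbrev EE (d : ℕ) := EuclideanSpace ℝ (Fin d)

variable {d : ℕ}

/-- the affine function `x ↦ b + ⟨a, x⟩` for `g = (b, a)` -/
noncomputable def ev (g : ℝ × EE d) (x : EE d) : ℝ := g.1 + ⟪g.2, x⟫_ℝ

theorem ev_add (g h : ℝ × EE d) (x : EE d) : ev (g + h) x = ev g x + ev h x := by
  simp only [ev, Prod.fst_add, Prod.snd_add, inner_add_left]; ring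

theorem ev_smul (t : ℝ) (g : ℝ × EE d) (x : EE d) : ev (t • g) x = t * ev g x := by
  simp only [ev, Prod.smul_fst, Prod.smul_snd, smul_eq_mul, real_inner_smul_left]; ring

theorem ev_sub (g h : ℝ × EE d) (x : EE d) : ev (g - h) x = ev g x - ev h x := by
  simp only [ev, Prod.fst_sub, Prod.snd_sub, inner_sub_left]; ring

theorem ev_zero (x : EE d) : ev (0 : ℝ × EE d) x = 0 := by simp [ev]

theorem ev_neg (g : ℝ × EE d) (x : EE d) : ev (-g) x = - ev g x := by
  simp only [ev, Prod.fst_neg, Prod.snd_neg, inner_neg_left]; ring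

theorem ev_sum {ι : Type} (t : Finset ι) (f : ι → ℝ × EE d) (x : EE d) :
    ev (∑ i ∈ t, f i) x = ∑ i ∈ t, ev (f i) x := by
  classical
  induction t using Finset.induction_on with
  | empty => simp [ev_zero]
  | insert a t ha ih => rw [Finset.sum_insert ha, Finset.sum_insert ha, ev_add, ih]

/-- `ev g` is an affine function. -/
theorem ev_comb (g : ℝ × EE d) (t u : ℝ) (h : t + u = 1) (x y : EE d) :
    ev g (t • x + u • y) = t * ev g x + u * ev g y := by
  simp only [ev, inner_add_right, real_inner_smul_right]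
  have : g.1 = t * g.1 + u * g.1 := by rw [← add_mul, h, one_mul]
  linear_combination this

theorem ev_centerMass (g : ℝ × EE d) {ι : Type} (t : Finset ι) (w : ι → ℝ) (z : ι → EE d)
    (hw : ∑ i ∈ t, w i = 1) : ev g (∑ i ∈ t, w i • z i) = ∑ i ∈ t, w i * ev g (z i) := by
  simp only [ev, inner_sum, real_inner_smul_right, mul_add, Finset.sum_add_distrib]
  rw [← Finset.sum_mul, hw, one_mul]

theorem ev_continuous (x : EE d) : Continuous fun g : ℝ × EE d => ev g x := by
  unfold ev
  fun_prop

/-- the affine functions vanishing on `X` -/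
noncomputable def Van (X : Set (EE d)) : Submodule ℝ (ℝ × EE d) where
  carrier := {u | ∀ x ∈ X, ev u x = 0}
  add_mem' := by
    intro a b ha hb x hx
    rw [ev_add, ha x hx, hb x hx, add_zero]
  zero_mem' := fun x _ => ev_zero x
  smul_mem' := by
    intro c a ha x hx
    rw [ev_smul, ha x hx, mul_zero]

theorem mem_Van {X : Set (EE d)} {u : ℝ × EE d} : u ∈ Van X ↔ ∀ x ∈ X, ev u x = 0 := Iff.rfl

/-- dimension count -/
theorem finrank_Van {X : Set (EE d)} (hX : X.Nonempty) :
    Module.finrank ℝ (Van X) + Module.finrank ℝ (vectorSpan ℝ X) = d := by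
  obtain ⟨x0, hx0⟩ := hX
  have key : ∀ a : EE d, a ∈ (vectorSpan ℝ X)ᗮ ↔ ∀ x ∈ X, ⟪a, x⟫_ℝ = ⟪a, x0⟫_ℝ := by
    intro a
    rw [Submodule.mem_orthogonal']
    constructor
    · intro h x hx
      have := h (x -ᵥ x0) (vsub_mem_vectorSpan ℝ hx hx0)
      rw [vsub_eq_sub, inner_sub_right] at this
      linarith
    · intro h u hu
      rw [vectorSpan_eq_span_vsub_set_right ℝ hx0] at hu
      induction hu using Submodule.span_induction with
      | mem y hy =>
        obtain ⟨z, hz, rfl⟩ := hy
        show ⟪a, z -ᵥ x0⟫_ℝ = 0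
        rw [vsub_eq_sub, inner_sub_right, h z hz, sub_self]
      | zero => simp
      | add y z _ _ hy hz => rw [inner_add_right, hy, hz, add_zero]
      | smul t y _ hy => rw [real_inner_smul_right, hy, mul_zero]
  let f : (vectorSpan ℝ X)ᗮ →ₗ[ℝ] Van X :=
    { toFun := fun a => ⟨(-⟪(a : EE d), x0⟫_ℝ, (a : EE d)), by
        intro x hx
        have := (key a).1 a.2 x hx
        simp only [ev]
        linarith⟩
      map_add' := by
        intro a b
        apply Subtype.ext
        simp only [Submodule.coe_add, inner_add_left, Prod.mk_add_mk]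
        rw [Prod.mk.injEq]
        exact ⟨by ring, rfl⟩
      map_smul' := by
        intro t a
        apply Subtype.ext
        simp only [Submodule.coe_smul, real_inner_smul_left, RingHom.id_apply, Prod.smul_mk, smul_eq_mul]
        rw [Prod.mk.injEq]
        exact ⟨by ring, rfl⟩ }
  have hf : Function.Bijective f := by
    constructor
    · intro a b hab
      have := congrArg (fun z : Van X => (z : ℝ × EE d).2) hab
      exact Subtype.ext this
    · rintro ⟨⟨b, a⟩, hu⟩
      have h0 : b + ⟪a, x0⟫_ℝ = 0 := hu x0 hx0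
      have ha : a ∈ (vectorSpan ℝ X)ᗮ := by
        rw [key]
        intro x hx
        have h1 : b + ⟪a, x⟫_ℝ = 0 := hu x hx
        linarith
      refine ⟨⟨a, ha⟩, ?_⟩
      apply Subtype.ext
      show (-⟪a, x0⟫_ℝ, a) = (b, a)
      rw [Prod.mk.injEq]
      exact ⟨by linarith, rfl⟩
  have e := (LinearEquiv.ofBijective f hf).finrank_eq
  have h2 := Submodule.finrank_add_finrank_orthogonal (vectorSpan ℝ X)
  rw [finrank_euclideanSpace_fin] at h2
  omega

/-- an affine function vanishing on a set with full affine span is zero -/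
theorem eq_zero_of_span {S : Set (EE d)} (hS : affineSpan ℝ S = ⊤) {g : ℝ × EE d}
    (h : ∀ x ∈ S, ev g x = 0) : g = 0 := by
  have hne : S.Nonempty := by
    by_contra hc
    rw [Set.not_nonempty_iff_eq_empty] at hc
    rw [hc, AffineSubspace.span_empty] at hS
    exact (AffineSubspace.bot_ne_top ℝ (EE d) (EE d)) hS
  have h1 := finrank_Van hne
  have h2 : vectorSpan ℝ S = ⊤ := by
    rw [← direction_affineSpan, hS, AffineSubspace.direction_top]
  rw [h2, finrank_top, finrank_euclideanSpace_fin] at h1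
  have h3 : Module.finrank ℝ (Van S) = 0 := by omega
  rw [Submodule.finrank_eq_zero] at h3
  have : g ∈ Van S := h
  rw [h3] at this
  exact this

section base
variable (S : Finset (EE d))

/-- evaluation of affine functions at the points of `S` -/
noncomputable def evS : (ℝ × EE d) →ₗ[ℝ] (S → ℝ) where
  toFun g := fun x => ev g x
  map_add' g h := by funext x; exact ev_add g h x
  map_smul' t g := by funext x; exact ev_smul t g x

/-- normalised nonnegative affine functions -/
def Base : Set (ℝ × EE d) := evS S ⁻¹' stdSimplex ℝ S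

variable {S}

theorem evS_inj (hS : affineSpan ℝ (S : Set (EE d)) = ⊤) : Function.Injective (evS S) := by
  rw [← LinearMap.ker_eq_bot, LinearMap.ker_eq_bot']
  intro g hg
  apply eq_zero_of_span hS
  intro x hx
  exact congrFun hg ⟨x, hx⟩

theorem mem_Base {g : ℝ × EE d} : g ∈ Base S ↔ (∀ x ∈ S, 0 ≤ ev g x) ∧ ∑ x ∈ S, ev g x = 1 := by
  unfold Base
  rw [Set.mem_preimage]
  constructor
  · rintro ⟨h1, h2⟩
    refine ⟨fun x hx => h1 ⟨x, hx⟩, ?_⟩
    rw [← h2, ← Finset.sum_coe_sort S]
    rfl
  · rintro ⟨h1, h2⟩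
    refine ⟨fun x => h1 x x.2, ?_⟩
    rw [← h2, ← Finset.sum_coe_sort S]
    rfl

theorem Base_compact (hS : affineSpan ℝ (S : Set (EE d)) = ⊤) : IsCompact (Base S) :=
  ((evS S).isClosedEmbedding_of_injective (LinearMap.ker_eq_bot.2 (evS_inj hS))).isCompact_preimage
    (isCompact_stdSimplex ℝ S)

theorem Base_convex : Convex ℝ (Base S) := (convex_stdSimplex ℝ S).linear_preimage (evS S)

/-- an affine function vanishing where an extreme normalised function vanishes is a multiple of it -/
theorem ext_van {g : ℝ × EE d} (hg : g ∈ (Base S).extremePoints ℝ) {u : ℝ × EE d}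
    (hu : ∀ x ∈ S, ev g x = 0 → ev u x = 0) :
    ∃ t : ℝ, u = t • g := by
  classical
  obtain ⟨hgB, hge⟩ := hg
  rw [mem_Base] at hgB
  obtain ⟨hg0, hg1⟩ := hgB
  set σ : ℝ := ∑ x ∈ S, ev u x with hσ
  set v : ℝ × EE d := u - σ • g with hv
  have hv1 : ∑ x ∈ S, ev v x = 0 := by
    simp only [hv, ev_sub, ev_smul, Finset.sum_sub_distrib, ← Finset.mul_sum, hg1]
    rw [hσ]; ring
  have hv0 : ∀ x ∈ S, ev g x = 0 → ev v x = 0 := by
    intro x hx h
    rw [hv, ev_sub, ev_smul, hu x hx h, h]; ring
  -- a small multiple of v can be added and subtracted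
  obtain ⟨ε, hε, hεx⟩ : ∃ ε : ℝ, 0 < ε ∧ ∀ x ∈ S, ε * |ev v x| ≤ ev g x := by
    have : ∀ x ∈ S, ∃ ε : ℝ, 0 < ε ∧ ε * |ev v x| ≤ ev g x := by
      intro x hx
      rcases eq_or_lt_of_le (hg0 x hx) with h | h
      · refine ⟨1, one_pos, ?_⟩
        rw [hv0 x hx h.symm]; simp [← h]
      · refine ⟨ev g x / (|ev v x| + 1), by positivity, ?_⟩
        rw [div_mul_eq_mul_div, div_le_iff₀ (by positivity)]
        nlinarith [abs_nonneg (ev v x)]
    choose! e he1 he2 using this
    by_cases hne : S.Nonempty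
    · refine ⟨S.inf' hne e, ?_, ?_⟩
      · rw [Finset.lt_inf'_iff]; exact fun x hx => he1 x hx
      · intro x hx
        refine le_trans ?_ (he2 x hx)
        exact mul_le_mul_of_nonneg_right (Finset.inf'_le e hx) (abs_nonneg _)
    · exact ⟨1, one_pos, fun x hx => absurd ⟨x, hx⟩ hne⟩
  have hp : g + ε • v ∈ Base S := by
    rw [mem_Base]
    refine ⟨fun x hx => ?_, ?_⟩
    · rw [ev_add, ev_smul]
      have := hεx x hx
      have h2 : -(ε * |ev v x|) ≤ ε * ev v x := by
        rw [← mul_neg]; exact mul_le_mul_of_nonneg_left (neg_abs_le _) hε.le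
      linarith
    · simp only [ev_add, ev_smul, Finset.sum_add_distrib, ← Finset.mul_sum, hv1, hg1]; ring
  have hm : g - ε • v ∈ Base S := by
    rw [mem_Base]
    refine ⟨fun x hx => ?_, ?_⟩
    · rw [ev_sub, ev_smul]
      have := hεx x hx
      have h2 : ε * ev v x ≤ ε * |ev v x| := mul_le_mul_of_nonneg_left (le_abs_self _) hε.le
      linarith
    · simp only [ev_sub, ev_smul, Finset.sum_sub_distrib, ← Finset.mul_sum, hv1, hg1]; ring
  have hopen : g ∈ openSegment ℝ (g + ε • v) (g - ε • v) := by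
    refine ⟨1 / 2, 1 / 2, by norm_num, by norm_num, by norm_num, ?_⟩
    rw [← smul_add]
    have : g + ε • v + (g - ε • v) = (2 : ℝ) • g := by rw [two_smul]; abel
    rw [this, smul_smul]; norm_num
  have h3 : g + ε • v = g := (hge hp hm hopen)
  have h4 : ε • v = 0 := by simpa using h3
  have h5 : v = 0 := by
    rcases smul_eq_zero.1 h4 with h | h
    · exact absurd h hε.ne'
    · exact h
  exact ⟨σ, by rw [hv] at h5; exact sub_eq_zero.1 h5⟩

/-- finitely many extreme normalised functions -/
theorem ext_finite : ((Base S).extremePoints ℝ).Finite := by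
  classical
  have hinj : Set.InjOn (fun g : ℝ × EE d => S.filter fun x => ev g x = 0) ((Base S).extremePoints ℝ) := by
    intro g hg g' hg' h
    have h1 : ∀ x ∈ S, ev g x = 0 → ev g' x = 0 := by
      intro x hx h0
      have : x ∈ S.filter fun x => ev g' x = 0 := by
        have h' : (S.filter fun x => ev g x = 0) = S.filter fun x => ev g' x = 0 := h
        rw [← h', Finset.mem_filter]; exact ⟨hx, h0⟩
      exact (Finset.mem_filter.1 this).2
    obtain ⟨t, ht⟩ := ext_van hg h1
    have hg1 := (mem_Base.1 hg.1).2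
    have hg1' := (mem_Base.1 hg'.1).2
    have : t = 1 := by
      rw [ht] at hg1'
      simp only [ev_smul, ← Finset.mul_sum, hg1] at hg1'
      linarith
    rw [ht, this, one_smul]
  refine Set.Finite.of_finite_image ?_ hinj
  refine Set.Finite.subset (Finset.finite_toSet S.powerset) ?_
  rintro _ ⟨g, _, rfl⟩
  rw [Finset.mem_coe, Finset.mem_powerset]
  exact Finset.filter_subset _ _

/-- Krein-Milman for the base -/
theorem Base_hull (hS : affineSpan ℝ (S : Set (EE d)) = ⊤) :
    Base S = convexHull ℝ ((Base S).extremePoints ℝ) := by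
  have h := closure_convexHull_extremePoints (Base_compact hS) Base_convex
  have h2 : IsClosed (convexHull ℝ ((Base S).extremePoints ℝ)) :=
    (ext_finite.isCompact_convexHull ℝ).isClosed
  rw [h2.closure_eq] at h
  exact h.symm

end base

section facets
variable (S : Finset (EE d))

/-- the polytope -/
def Poly : Set (EE d) := convexHull ℝ (S : Set (EE d))

/-- facets: exposed faces of codimension one -/
def IsFacet (F : Set (EE d)) : Prop :=
  IsExposed ℝ (Poly S) F ∧ F.Nonempty ∧ Module.finrank ℝ (vectorSpan ℝ F) + 1 = d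

variable {S}

theorem nonneg_Poly {g : ℝ × EE d} (h : ∀ x ∈ S, 0 ≤ ev g x) : ∀ x ∈ Poly S, 0 ≤ ev g x := by
  intro x hx
  rw [Poly, Finset.mem_convexHull'] at hx
  obtain ⟨w, hw0, hw1, rfl⟩ := hx
  rw [ev_centerMass g S w (fun y => y) hw1]
  exact Finset.sum_nonneg fun y hy => mul_nonneg (hw0 y hy) (h y hy)

theorem subset_Poly {x : EE d} (hx : x ∈ S) : x ∈ Poly S := subset_convexHull ℝ _ hx

theorem exposed_fun {F : Set (EE d)} (hF : IsExposed ℝ (Poly S) F) (hne : F.Nonempty) :
    ∃ g : ℝ × EE d, (∀ x ∈ Poly S, 0 ≤ ev g x) ∧ F = {x ∈ Poly S | ev g x = 0} := by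
  obtain ⟨l, hl⟩ := hF hne
  obtain ⟨x1, hx1⟩ := hne
  set a : EE d := (InnerProductSpace.toDual ℝ (EE d)).symm l with ha
  have hla : ∀ x, ⟪a, x⟫_ℝ = l x := fun x => InnerProductSpace.toDual_symm_apply
  have hx1' := hx1
  rw [hl] at hx1'
  have hev : ∀ x, ev (l x1, -a) x = l x1 - l x := by
    intro x
    simp only [ev, inner_neg_left, hla]; ring
  refine ⟨(l x1, -a), fun x hx => ?_, ?_⟩
  · rw [hev]; linarith [hx1'.2 x hx]
  · ext x
    rw [hl]
    constructor
    · rintro ⟨hx, hmax⟩
      refine ⟨hx, ?_⟩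
      rw [hev]
      have h1 := hmax x1 hx1'.1
      have h2 := hx1'.2 x hx
      linarith
    · rintro ⟨hx, h0⟩
      refine ⟨hx, fun y hy => ?_⟩
      rw [hev] at h0
      have := hx1'.2 y hy
      linarith

theorem isExposed_zero {g : ℝ × EE d} (h : ∀ x ∈ Poly S, 0 ≤ ev g x) :
    IsExposed ℝ (Poly S) {x ∈ Poly S | ev g x = 0} := by
  rintro ⟨x1, hx1, h1⟩
  refine ⟨InnerProductSpace.toDual ℝ (EE d) (-g.2), ?_⟩
  have hl : ∀ x, (InnerProductSpace.toDual ℝ (EE d) (-g.2)) x = g.1 - ev g x := by
    intro x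
    rw [InnerProductSpace.toDual_apply_apply, inner_neg_left]
    simp only [ev]; ring
  ext x
  constructor
  · rintro ⟨hx, h0⟩
    refine ⟨hx, fun y hy => ?_⟩
    rw [hl, hl, h0]
    linarith [h y hy]
  · rintro ⟨hx, hmax⟩
    refine ⟨hx, ?_⟩
    have h2 := hmax x1 hx1
    rw [hl, hl, h1] at h2
    have := h x hx
    linarith

/-- an exposed face is the convex hull of the points of `S` in it; in particular a function vanishing at the latter
vanishes on the face -/
theorem face_van {g u : ℝ × EE d} (hg : ∀ x ∈ S, 0 ≤ ev g x) (hu : ∀ x ∈ S, ev g x = 0 → ev u x = 0)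
    {x : EE d} (hx : x ∈ Poly S) (h0 : ev g x = 0) : ev u x = 0 := by
  rw [Poly, Finset.mem_convexHull'] at hx
  obtain ⟨w, hw0, hw1, rfl⟩ := hx
  rw [ev_centerMass g S w (fun y => y) hw1] at h0
  rw [ev_centerMass u S w (fun y => y) hw1]
  rw [Finset.sum_eq_zero_iff_of_nonneg (fun y hy => mul_nonneg (hw0 y hy) (hg y hy))] at h0
  refine Finset.sum_eq_zero fun y hy => ?_
  rcases mul_eq_zero.1 (h0 y hy) with h | h
  · rw [h, zero_mul]
  · rw [hu y hy h, mul_zero]

theorem facet_of_ext {g : ℝ × EE d} (hg : g ∈ (Base S).extremePoints ℝ) (hd : d ≠ 0) :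
    IsFacet S {x ∈ Poly S | ev g x = 0} := by
  have hB := mem_Base.1 hg.1
  have hP := nonneg_Poly hB.1
  have hg0 : g ≠ 0 := by
    rintro rfl
    have := hB.2
    simp [ev_zero] at this
  have hspan : ∀ X : Set (EE d), (∀ x ∈ S, ev g x = 0 → x ∈ X) → Van X ≤ Submodule.span ℝ {g} := by
    intro X hX u hu
    obtain ⟨t, ht⟩ := ext_van hg (fun x hx h => hu x (hX x hx h))
    rw [ht]
    exact Submodule.smul_mem _ _ (Submodule.mem_span_singleton_self g)
  have hne : Set.Nonempty {x ∈ Poly S | ev g x = 0} := by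
    by_contra hc
    rw [Set.not_nonempty_iff_eq_empty] at hc
    have h1 : Van (∅ : Set (EE d)) ≤ Submodule.span ℝ {g} := by
      apply hspan
      intro x hx h
      have : x ∈ {x ∈ Poly S | ev g x = 0} := ⟨subset_Poly hx, h⟩
      rw [hc] at this
      exact this
    have h2 : Van (∅ : Set (EE d)) = ⊤ := by
      rw [eq_top_iff]
      intro u _ x hx
      exact absurd hx (Set.notMem_empty x)
    rw [h2] at h1
    have h3 := Submodule.finrank_mono h1
    rw [finrank_top, finrank_span_singleton hg0] at h3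
    simp only [Module.finrank_prod, Module.finrank_self, finrank_euclideanSpace_fin] at h3
    omega
  refine ⟨isExposed_zero hP, hne, ?_⟩
  have h1 := finrank_Van hne
  have h2 : Van {x ∈ Poly S | ev g x = 0} = Submodule.span ℝ {g} := by
    apply le_antisymm
    · exact hspan _ fun x hx h => ⟨subset_Poly hx, h⟩
    · rw [Submodule.span_singleton_le_iff_mem]
      exact fun x hx => hx.2
  rw [h2, finrank_span_singleton hg0] at h1
  omega

theorem eq_smul_of_van {F : Set (EE d)} (hF : IsFacet S F) {g u : ℝ × EE d} (hg : g ∈ Van F) (hg0 : g ≠ 0)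
    (hu : u ∈ Van F) : ∃ t : ℝ, u = t • g := by
  have h1 := finrank_Van hF.2.1
  have h2 := hF.2.2
  have h3 : Module.finrank ℝ (Van F) = 1 := by omega
  have h4 : Submodule.span ℝ {g} = Van F := by
    apply Submodule.eq_of_le_of_finrank_eq
    · rwa [Submodule.span_singleton_le_iff_mem]
    · rw [finrank_span_singleton hg0, h3]
  rw [← h4, Submodule.mem_span_singleton] at hu
  obtain ⟨t, ht⟩ := hu
  exact ⟨t, ht.symm⟩

end facets

end Pool.Agent.TNB
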