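import Pool.Agent.TNB.Geo1

/-!
# MP_76926f_co: polytopes and their facet functionals, part 2
-/

set_option autoImplicit false

namespace Pool.Agent.TNB

open scoped BigOperators InnerProductSpace

variable {d : ℕ} {T : Finset (EE d)}

/-- the type of facets -/
def Fct (T : Finset (EE d)) : Type := {F : Set (EE d) // IsFacet T F}

theorem facet_ext {F G : Set (EE d)} (hF : IsFacet T F) (hG : IsFacet T G)
    (h : ∀ x ∈ T, x ∈ F → x ∈ G) : F ⊆ G := by
  obtain ⟨g, hg0, hg⟩ := exposed_fun hF.1 hF.2.1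
  obtain ⟨u, hu0, hu⟩ := exposed_fun hG.1 hG.2.1
  intro x hx
  rw [hg] at hx
  rw [hu]
  refine ⟨hx.1, face_van (fun y hy => hg0 y (subset_Poly hy)) (fun y hy h0 => ?_) hx.1 hx.2⟩
  have h1 : y ∈ G := h y hy (by rw [hg]; exact ⟨subset_Poly hy, h0⟩)
  rw [hu] at h1
  exact h1.2

theorem facets_finite : {F : Set (EE d) | IsFacet T F}.Finite := by
  classical
  have hinj : Set.InjOn (fun F : Set (EE d) => T.filter fun x => x ∈ F) {F | IsFacet T F} := by
    intro F hF G hG h
    have h' : (T.filter fun x => x ∈ F) = T.filter fun x => x ∈ G := h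
    apply Set.Subset.antisymm
    · refine facet_ext hF hG fun x hx hxF => ?_
      have : x ∈ T.filter fun x => x ∈ G := by rw [← h', Finset.mem_filter]; exact ⟨hx, hxF⟩
      exact (Finset.mem_filter.1 this).2
    · refine facet_ext hG hF fun x hx hxF => ?_
      have : x ∈ T.filter fun x => x ∈ F := by rw [h', Finset.mem_filter]; exact ⟨hx, hxF⟩
      exact (Finset.mem_filter.1 this).2
  refine Set.Finite.of_finite_image ?_ hinj
  refine Set.Finite.subset (Finset.finite_toSet T.powerset) ?_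
  rintro _ ⟨g, _, rfl⟩
  rw [Finset.mem_coe, Finset.mem_powerset]
  exact Finset.filter_subset _ _

noncomputable instance : Fintype (Fct T) := (facets_finite (T := T)).fintype

/-- the facet functional -/
noncomputable def gf (F : Fct T) : ℝ × EE d := (exposed_fun F.2.1 F.2.2.1).choose

theorem gf_nonneg (F : Fct T) : ∀ x ∈ Poly T, 0 ≤ ev (gf F) x := (exposed_fun F.2.1 F.2.2.1).choose_spec.1

theorem gf_eq (F : Fct T) : F.1 = {x ∈ Poly T | ev (gf F) x = 0} := (exposed_fun F.2.1 F.2.2.1).choose_spec.2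

theorem gf_van (F : Fct T) : gf F ∈ Van F.1 := by
  intro x hx
  rw [gf_eq F] at hx
  exact hx.2

theorem gf_ne (hspan : affineSpan ℝ (T : Set (EE d)) = ⊤) (F : Fct T) : gf F ≠ 0 := by
  intro h0
  have h1 : F.1 = Poly T := by
    rw [gf_eq F, h0]
    ext x
    simp [ev_zero]
  have h2 : vectorSpan ℝ F.1 = ⊤ := by
    rw [h1, ← direction_affineSpan, Poly, affineSpan_convexHull, hspan, AffineSubspace.direction_top]
  have h3 := F.2.2.2
  rw [h2, finrank_top, finrank_euclideanSpace_fin] at h3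
  omega

/-- the cone generated by the facet functionals -/
def InCone (T : Finset (EE d)) (g : ℝ × EE d) : Prop :=
  ∃ μ : Fct T → ℝ, (∀ F, 0 ≤ μ F) ∧ g = ∑ F, μ F • gf F

theorem InCone.add {g h : ℝ × EE d} (hg : InCone T g) (hh : InCone T h) : InCone T (g + h) := by
  obtain ⟨μ, h1, rfl⟩ := hg
  obtain ⟨ν, h2, rfl⟩ := hh
  refine ⟨μ + ν, fun F => add_nonneg (h1 F) (h2 F), ?_⟩
  rw [← Finset.sum_add_distrib]
  exact Finset.sum_congr rfl fun F _ => (add_smul _ _ _).symm

theorem InCone.smul {g : ℝ × EE d} (hg : InCone T g) {t : ℝ} (ht : 0 ≤ t) : InCone T (t • g) := by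
  obtain ⟨μ, h1, rfl⟩ := hg
  refine ⟨fun F => t * μ F, fun F => mul_nonneg ht (h1 F), ?_⟩
  rw [Finset.smul_sum]
  exact Finset.sum_congr rfl fun F _ => by rw [smul_smul]

theorem InCone.zero : InCone T 0 := ⟨fun _ => 0, fun _ => le_rfl, by simp⟩

theorem InCone.sum {ι : Type} (t : Finset ι) (f : ι → ℝ × EE d) (h : ∀ i ∈ t, InCone T (f i)) :
    InCone T (∑ i ∈ t, f i) := by
  classical
  induction t using Finset.induction_on with
  | empty => simpa using InCone.zero
  | insert a t ha ih =>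
    rw [Finset.sum_insert ha]
    exact (h a (Finset.mem_insert_self a t)).add (ih fun i hi => h i (Finset.mem_insert_of_mem hi))

theorem InCone.gf (F : Fct T) : InCone T (gf F) := by
  classical
  refine ⟨fun G => if G = F then 1 else 0, fun G => ?_, ?_⟩
  · dsimp only; split_ifs <;> norm_num
  · simp [ite_smul]

/-- every nonnegative affine function is a nonnegative combination of facet functionals -/
theorem inCone_of_nonneg (hspan : affineSpan ℝ (T : Set (EE d)) = ⊤) (hd : d ≠ 0) {g : ℝ × EE d}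
    (hg : ∀ x ∈ T, 0 ≤ ev g x) : InCone T g := by
  classical
  have hext : ∀ h ∈ (Base T).extremePoints ℝ, InCone T h := by
    intro h hh
    have hF := facet_of_ext hh hd
    have hB := mem_Base.1 hh.1
    set F : Fct T := ⟨{x ∈ Poly T | ev h x = 0}, hF⟩ with hFdef
    obtain ⟨t, ht⟩ := eq_smul_of_van hF (gf_van F) (gf_ne hspan F) (fun x hx => hx.2)
    have ht0 : 0 ≤ t := by
      by_contra hc
      push Not at hc
      have h1 : ∑ x ∈ T, ev h x ≤ 0 := by
        refine Finset.sum_nonpos fun x hx => ?_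
        rw [ht, ev_smul]
        exact mul_nonpos_of_nonpos_of_nonneg hc.le (gf_nonneg F x (subset_Poly hx))
      rw [hB.2] at h1
      linarith
    rw [ht]
    exact (InCone.gf F).smul ht0
  set σ : ℝ := ∑ x ∈ T, ev g x with hσ
  have hσ0 : 0 ≤ σ := Finset.sum_nonneg fun x hx => hg x hx
  rcases eq_or_lt_of_le hσ0 with h0 | hpos
  · have h1 : ∀ x ∈ T, ev g x = 0 := (Finset.sum_eq_zero_iff_of_nonneg hg).1 h0.symm
    rw [eq_zero_of_span hspan h1]
    exact InCone.zero
  · have hb : σ⁻¹ • g ∈ Base T := by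
      rw [mem_Base]
      refine ⟨fun x hx => ?_, ?_⟩
      · rw [ev_smul]; exact mul_nonneg (inv_nonneg.2 hσ0) (hg x hx)
      · simp only [ev_smul, ← Finset.mul_sum]
        rw [← hσ]; exact inv_mul_cancel₀ hpos.ne'
    rw [Base_hull hspan] at hb
    have hfin : ((Base T).extremePoints ℝ).Finite := ext_finite
    rw [← hfin.coe_toFinset, Finset.mem_convexHull'] at hb
    obtain ⟨w, hw0, hw1, hw⟩ := hb
    have h2 : InCone T (σ⁻¹ • g) := by
      rw [← hw]
      refine InCone.sum _ _ fun h hh => ?_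
      exact (hext h (hfin.mem_toFinset.1 hh)).smul (hw0 h hh)
    have h3 := h2.smul hσ0
    rwa [smul_smul, mul_inv_cancel₀ hpos.ne', one_smul] at h3

/-- the constant function one -/
theorem ev_one (x : EE d) : ev ((1, 0) : ℝ × EE d) x = 1 := by simp [ev]

/-- description of the polytope by its facets -/
theorem mem_Poly_of_facets (hspan : affineSpan ℝ (T : Set (EE d)) = ⊤) (hd : d ≠ 0) {x : EE d}
    (hx : ∀ F : Fct T, 0 ≤ ev (gf F) x) : x ∈ Poly T := by
  by_contra hc
  have hcl : IsClosed (Poly T) := (T.finite_toSet.isCompact_convexHull ℝ).isClosed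
  obtain ⟨f, u, hu1, hu2⟩ := geometric_hahn_banach_closed_point (convex_convexHull ℝ _) hcl hc
  -- f < u on the polytope, u < f x
  set a : EE d := (InnerProductSpace.toDual ℝ (EE d)).symm f with ha
  have hla : ∀ x, ⟪a, x⟫_ℝ = f x := fun x => InnerProductSpace.toDual_symm_apply
  have hev : ∀ y, ev (u, -a) y = u - f y := by
    intro y
    simp only [ev, inner_neg_left, hla]; ring
  obtain ⟨μ, hμ, he⟩ := inCone_of_nonneg hspan hd (g := (u, -a)) (fun y hy => by
    rw [hev]; linarith [hu1 y (subset_Poly hy)])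
  have h1 : ev (u, -a) x = ∑ F, μ F * ev (gf F) x := by
    rw [he, ev_sum]
    exact Finset.sum_congr rfl fun F _ => ev_smul _ _ _
  rw [hev] at h1
  have h2 : 0 ≤ ∑ F, μ F * ev (gf F) x := Finset.sum_nonneg fun F _ => mul_nonneg (hμ F) (hx F)
  linarith

/-- the slack matrix -/
noncomputable def slk (F : Fct T) (v : T) : ℝ := ev (gf F) v

theorem ev_sum_slk (c : Fct T → ℝ) (v : T) : ∑ F, c F * slk F v = ev (∑ F, c F • gf F) v := by
  rw [ev_sum]
  exact Finset.sum_congr rfl fun F _ => (ev_smul _ _ _).symm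

theorem slk_nonneg (F : Fct T) (v : T) : 0 ≤ slk F v := gf_nonneg F v (subset_Poly v.2)

theorem slk_pos {F : Fct T} {v : T} (h : (v : EE d) ∉ F.1) : 0 < slk F v := by
  rcases eq_or_lt_of_le (slk_nonneg F v) with h0 | h0
  · exact absurd (by rw [gf_eq F]; exact ⟨subset_Poly v.2, h0.symm⟩) h
  · exact h0

theorem slk_zero {F : Fct T} {v : T} : slk F v = 0 ↔ (v : EE d) ∈ F.1 := by
  constructor
  · intro h
    rw [gf_eq F]
    exact ⟨subset_Poly v.2, h⟩
  · intro h
    exact gf_van F v h

theorem slk_pos_iff {F : Fct T} {v : T} : 0 < slk F v ↔ (v : EE d) ∉ F.1 := by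
  constructor
  · intro h h2
    rw [slk_zero.2 h2] at h
    exact lt_irrefl _ h
  · exact slk_pos

end Pool.Agent.TNB
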