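import Pool.Agent.TNB.Geo2

/-!
# MP_76926f_co: the slack matrix of an example satisfies `Good`
-/

set_option autoImplicit false

namespace Pool.Agent.TNB

open scoped BigOperators InnerProductSpace

variable {d : ℕ} {T : Finset (EE d)}

theorem rank_slk (hspan : affineSpan ℝ (T : Set (EE d)) = ⊤) (hd : d ≠ 0) :
    (Matrix.of (slk (T := T))).rank = d + 1 := by
  classical
  -- the span of the facet functionals is everything
  have hcone : ∀ g : ℝ × EE d, ∃ c : Fct T → ℝ, g = ∑ F, c F • gf F := by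
    intro g
    obtain ⟨M, hM⟩ : ∃ M : ℝ, ∀ x ∈ T, -M ≤ ev g x := by
      refine ⟨∑ x ∈ T, |ev g x|, fun x hx => ?_⟩
      have h1 : |ev g x| ≤ ∑ x ∈ T, |ev g x| :=
        Finset.single_le_sum (f := fun x => |ev g x|) (fun y _ => abs_nonneg _) hx
      linarith [neg_abs_le (ev g x)]
    obtain ⟨μ, _, h1⟩ := inCone_of_nonneg hspan hd (g := g + M • (1, 0)) (fun x hx => by
      rw [ev_add, ev_smul, ev_one]; linarith [hM x hx])
    obtain ⟨ν, _, h2⟩ := inCone_of_nonneg hspan hd (g := ((1, 0) : ℝ × EE d)) (fun x hx => by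
      rw [ev_one]; exact zero_le_one)
    refine ⟨fun F => μ F - M * ν F, ?_⟩
    have : g = (∑ F, μ F • gf F) - M • ∑ F, ν F • gf F := by
      rw [← h1, ← h2]; abel
    rw [this, Finset.smul_sum, ← Finset.sum_sub_distrib]
    exact Finset.sum_congr rfl fun F _ => by rw [sub_smul, mul_smul]
  rw [← Matrix.rank_transpose, Matrix.rank]
  have hr : LinearMap.range (Matrix.of (slk (T := T))).transpose.mulVecLin = LinearMap.range (evS T) := by
    apply le_antisymm
    · rintro _ ⟨c, rfl⟩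
      refine ⟨∑ F, c F • gf F, ?_⟩
      funext v
      show ev (∑ F, c F • gf F) v = _
      rw [← ev_sum_slk]
      simp only [Matrix.mulVecLin_apply, Matrix.mulVec, dotProduct, Matrix.transpose_apply, Matrix.of_apply]
      exact Finset.sum_congr rfl fun F _ => mul_comm _ _
    · rintro _ ⟨g, rfl⟩
      obtain ⟨c, rfl⟩ := hcone g
      refine ⟨c, ?_⟩
      funext v
      show _ = ev (∑ F, c F • gf F) v
      rw [← ev_sum_slk]
      simp only [Matrix.mulVecLin_apply, Matrix.mulVec, dotProduct, Matrix.transpose_apply, Matrix.of_apply]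
      exact Finset.sum_congr rfl fun F _ => mul_comm _ _
  rw [hr, LinearMap.finrank_range_of_inj (evS_inj hspan)]
  simp only [Module.finrank_prod, Module.finrank_self, finrank_euclideanSpace_fin]
  omega

/-- membership in a face through vertices -/
theorem vertex_of_face {F G M : Fct T} (h : ∀ v : T, slk F v = 0 → slk G v = 0 → slk M v = 0) :
    ∀ x ∈ F.1 ∩ G.1, ev (gf M) x = 0 := by
  rintro x ⟨hxF, hxG⟩
  rw [gf_eq F] at hxF
  rw [gf_eq G] at hxG
  refine face_van (g := gf F + gf G) (fun y hy => ?_) (fun y hy h0 => ?_) hxF.1 ?_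
  · rw [ev_add]
    exact add_nonneg (gf_nonneg F y (subset_Poly hy)) (gf_nonneg G y (subset_Poly hy))
  · rw [ev_add] at h0
    have h1 := gf_nonneg F y (subset_Poly hy)
    have h2 := gf_nonneg G y (subset_Poly hy)
    exact h ⟨y, hy⟩ (show ev (gf F) y = 0 by linarith) (show ev (gf G) y = 0 by linarith)
  · rw [ev_add, hxF.2, hxG.2, add_zero]

theorem facet_eq_of_smul {F G : Fct T} {t : ℝ} (ht : t ≠ 0) (h : gf G = t • gf F) : G = F := by
  apply Subtype.ext
  rw [gf_eq G, gf_eq F, h]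
  ext x
  simp only [ev_smul, Set.mem_ofPred_eq, mul_eq_zero, ht, false_or]

theorem rowE_same (hspan : affineSpan ℝ (T : Set (EE d)) = ⊤) {F M : Fct T} (hM : M ≠ F) :
    ∃ v : T, slk F v = 0 ∧ 0 < slk M v := by
  by_contra hc
  push Not at hc
  have h0 : ∀ v : T, slk F v = 0 → slk F v = 0 → slk M v = 0 := fun v hv _ =>
    le_antisymm (hc v hv) (slk_nonneg M v)
  have h1 := vertex_of_face h0
  rw [Set.inter_self] at h1
  obtain ⟨t, ht⟩ := eq_smul_of_van F.2 (gf_van F) (gf_ne hspan F) h1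
  have ht0 : t ≠ 0 := by
    rintro rfl
    rw [zero_smul] at ht
    exact gf_ne hspan M ht
  exact hM (facet_eq_of_smul ht0 ht)

theorem rowE_diff (hspan : affineSpan ℝ (T : Set (EE d)) = ⊤)
    (hfac : ∀ F G : Set (EE d), IsFacet T F → IsFacet T G → F ≠ G →
      (F ∩ G).Nonempty ∧ Module.finrank ℝ (vectorSpan ℝ (F ∩ G)) + 2 = d)
    {F G M : Fct T} (hFG : F ≠ G) (hMF : M ≠ F) (hMG : M ≠ G) :
    ∃ v : T, slk F v = 0 ∧ slk G v = 0 ∧ 0 < slk M v := by
  by_contra hc
  push Not at hc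
  have h0 : ∀ v : T, slk F v = 0 → slk G v = 0 → slk M v = 0 := fun v hv hv' =>
    le_antisymm (hc v hv hv') (slk_nonneg M v)
  have h1 := vertex_of_face h0
  obtain ⟨hne, hdim⟩ := hfac F.1 G.1 F.2 G.2 (fun h => hFG (Subtype.ext h))
  have h2 := finrank_Van hne
  have hF0 := gf_ne hspan F
  have hG0 := gf_ne hspan G
  have hM0 := gf_ne hspan M
  have hFv : gf F ∈ Van (F.1 ∩ G.1) := fun x hx => gf_van F x hx.1
  have hGv : gf G ∈ Van (F.1 ∩ G.1) := fun x hx => gf_van G x hx.2
  have hind : LinearIndependent ℝ ![gf F, gf G] := by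
    rw [LinearIndependent.pair_iff]
    intro a b hab
    by_cases hb : b = 0
    · subst hb
      rw [zero_smul, add_zero] at hab
      exact ⟨(smul_eq_zero.1 hab).resolve_right hF0, rfl⟩
    · exfalso
      have h3 : gf G = (-(b⁻¹ * a)) • gf F := by
        have h4 : b • gf G = (-a) • gf F := by
          rw [neg_smul]; exact eq_neg_of_add_eq_zero_right hab
        calc gf G = b⁻¹ • (b • gf G) := by rw [smul_smul, inv_mul_cancel₀ hb, one_smul]
          _ = _ := by rw [h4, smul_smul]; congr 1; ring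
      have h5 : -(b⁻¹ * a) ≠ 0 := by
        intro h5
        rw [h5, zero_smul] at h3
        exact hG0 h3
      exact hFG (facet_eq_of_smul h5 h3).symm
  have hspan2 : Submodule.span ℝ (Set.range ![gf F, gf G]) = Van (F.1 ∩ G.1) := by
    apply Submodule.eq_of_le_of_finrank_eq
    · rw [Submodule.span_le]
      rintro _ ⟨i, rfl⟩
      fin_cases i
      · exact hFv
      · exact hGv
    · rw [finrank_span_eq_card hind, Fintype.card_fin]
      omega
  have hM : gf M ∈ Van (F.1 ∩ G.1) := h1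
  rw [← hspan2, Matrix.range_cons, Matrix.range_cons, Matrix.range_empty, Set.union_empty,
    Set.singleton_union, Submodule.mem_span_pair] at hM
  obtain ⟨a, b, hab⟩ := hM
  -- signs
  have hdF := F.2.2.2
  have hdG := G.2.2.2
  have hnFG : ∃ x ∈ F.1, x ∉ G.1 := by
    by_contra hc2
    push Not at hc2
    have : F.1 ∩ G.1 = F.1 := Set.inter_eq_left.2 hc2
    rw [this] at hdim
    omega
  have hnGF : ∃ x ∈ G.1, x ∉ F.1 := by
    by_contra hc2
    push Not at hc2
    have : F.1 ∩ G.1 = G.1 := Set.inter_eq_right.2 hc2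
    rw [this] at hdim
    omega
  have hpos : ∀ (K : Fct T) (x : EE d), x ∈ Poly T → x ∉ K.1 → 0 < ev (gf K) x := by
    intro K x hx hxK
    rcases eq_or_lt_of_le (gf_nonneg K x hx) with h | h
    · exact absurd (by rw [gf_eq K]; exact ⟨hx, h.symm⟩) hxK
    · exact h
  have hsub : ∀ (K : Fct T) (x : EE d), x ∈ K.1 → x ∈ Poly T := by
    intro K x hx
    rw [gf_eq K] at hx
    exact hx.1
  have hb : 0 ≤ b := by
    obtain ⟨x, hxF, hxG⟩ := hnFG
    have h3 := gf_nonneg M x (hsub F x hxF)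
    rw [← hab, ev_add, ev_smul, ev_smul, gf_van F x hxF, mul_zero, zero_add] at h3
    have h4 := hpos G x (hsub F x hxF) hxG
    exact nonneg_of_mul_nonneg_left h3 h4
  have ha : 0 ≤ a := by
    obtain ⟨x, hxG, hxF⟩ := hnGF
    have h3 := gf_nonneg M x (hsub G x hxG)
    rw [← hab, ev_add, ev_smul, ev_smul, gf_van G x hxG, mul_zero, add_zero] at h3
    have h4 := hpos F x (hsub G x hxG) hxF
    exact nonneg_of_mul_nonneg_left h3 h4
  rcases eq_or_lt_of_le ha with ha0 | ha0
  · rw [← ha0, zero_smul, zero_add] at hab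
    have : b ≠ 0 := by
      rintro rfl
      rw [zero_smul] at hab
      exact hM0 hab.symm
    exact hMG (facet_eq_of_smul this hab.symm)
  rcases eq_or_lt_of_le hb with hb0 | hb0
  · rw [← hb0, zero_smul, add_zero] at hab
    exact hMF (facet_eq_of_smul ha0.ne' hab.symm)
  have hMeq : M.1 = F.1 ∩ G.1 := by
    ext x
    rw [gf_eq M, gf_eq F, gf_eq G]
    constructor
    · rintro ⟨hx, h3⟩
      rw [← hab, ev_add, ev_smul, ev_smul] at h3
      have h4 := mul_nonneg ha (gf_nonneg F x hx)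
      have h5 := mul_nonneg hb (gf_nonneg G x hx)
      have h6 : a * ev (gf F) x = 0 := by linarith
      have h7 : b * ev (gf G) x = 0 := by linarith
      exact ⟨⟨hx, (mul_eq_zero.1 h6).resolve_left ha0.ne'⟩, ⟨hx, (mul_eq_zero.1 h7).resolve_left hb0.ne'⟩⟩
    · rintro ⟨⟨hx, h3⟩, ⟨_, h4⟩⟩
      refine ⟨hx, ?_⟩
      rw [← hab, ev_add, ev_smul, ev_smul, h3, h4]; ring
  have h8 := M.2.2.2
  rw [hMeq] at h8
  omega

theorem colK_slk (hspan : affineSpan ℝ (T : Set (EE d)) = ⊤) (hd : d ≠ 0) (c : T → ℝ)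
    (hc : ∀ F : Fct T, 0 ≤ ∑ v, c v * slk F v) :
    ∃ μ : T → ℝ, (∀ v, 0 ≤ μ v) ∧ ∀ F : Fct T, ∑ v, c v * slk F v = ∑ v, μ v * slk F v := by
  classical
  -- extend the inequality to all nonnegative affine functions
  have hlin : ∀ g : ℝ × EE d, InCone T g → 0 ≤ ∑ v, c v * ev g v := by
    rintro _ ⟨μ, hμ, rfl⟩
    have : ∑ v, c v * ev (∑ F, μ F • gf F) v = ∑ F, μ F * ∑ v, c v * slk F v := by
      simp only [← ev_sum_slk, Finset.mul_sum]
      rw [Finset.sum_comm]
      refine Finset.sum_congr rfl fun F _ => Finset.sum_congr rfl fun v _ => ?_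
      ring
    rw [this]
    exact Finset.sum_nonneg fun F _ => mul_nonneg (hμ F) (hc F)
  set τ : ℝ := ∑ v, c v with hτ
  set w : EE d := ∑ v, c v • (v : EE d) with hw
  have hev : ∀ g : ℝ × EE d, ∑ v, c v * ev g v = τ * g.1 + ⟪g.2, w⟫_ℝ := by
    intro g
    simp only [ev, mul_add, Finset.sum_add_distrib, hw, inner_sum, real_inner_smul_right]
    rw [← Finset.sum_mul]
  have hτ0 : 0 ≤ τ := by
    have h := hlin (1, 0) (inCone_of_nonneg hspan hd fun x _ => by rw [ev_one]; exact zero_le_one)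
    rw [hev] at h
    simpa using h
  rcases eq_or_lt_of_le hτ0 with h0 | hpos
  · have hw0 : w = 0 := by
      -- (M, -w) is nonnegative for large M
      obtain ⟨M, hM⟩ : ∃ M : ℝ, ∀ x ∈ T, 0 ≤ ev ((M, -w) : ℝ × EE d) x := by
        refine ⟨∑ x ∈ T, |⟪w, x⟫_ℝ|, fun x hx => ?_⟩
        have h1 : |⟪w, x⟫_ℝ| ≤ ∑ x ∈ T, |⟪w, x⟫_ℝ| :=
          Finset.single_le_sum (f := fun x => |⟪w, x⟫_ℝ|) (fun y _ => abs_nonneg _) hx
        simp only [ev, inner_neg_left]
        linarith [le_abs_self (⟪w, x⟫_ℝ)]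
      have h := hlin (M, -w) (inCone_of_nonneg hspan hd hM)
      rw [hev, ← h0] at h
      simp only [zero_mul, zero_add, inner_neg_left] at h
      have h2 : ⟪w, w⟫_ℝ ≤ 0 := by linarith
      rw [real_inner_self_eq_norm_sq] at h2
      have h3 : ‖w‖ = 0 := by nlinarith [norm_nonneg w]
      exact norm_eq_zero.1 h3
    refine ⟨fun _ => 0, fun _ => le_rfl, fun F => ?_⟩
    have h := hev (gf F)
    rw [← h0, hw0, inner_zero_right, zero_mul, add_zero] at h
    simp only [zero_mul, Finset.sum_const_zero]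
    exact h
  · have hz : τ⁻¹ • w ∈ Poly T := by
      refine mem_Poly_of_facets hspan hd fun F => ?_
      have h := hc F
      have h2 : ∑ v, c v * slk F v = τ * (gf F).1 + ⟪(gf F).2, w⟫_ℝ := hev (gf F)
      rw [h2] at h
      have h3 : ev (gf F) (τ⁻¹ • w) = τ⁻¹ * (τ * (gf F).1 + ⟪(gf F).2, w⟫_ℝ) := by
        simp only [ev, real_inner_smul_right]
        field_simp
      rw [h3]
      exact mul_nonneg (inv_nonneg.2 hτ0) h
    rw [Poly, Finset.mem_convexHull'] at hz
    obtain ⟨u, hu0, hu1, hu⟩ := hz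
    refine ⟨fun v => τ * u v, fun v => mul_nonneg hτ0 (hu0 v v.2), fun F => ?_⟩
    have h1 : ∑ v, c v * slk F v = τ * (gf F).1 + ⟪(gf F).2, w⟫_ℝ := hev (gf F)
    have h2 : ∑ v : T, u v * slk F v = ev (gf F) (τ⁻¹ • w) := by
      rw [← hu, ev_centerMass (gf F) T u (fun y => y) hu1]
      exact Finset.sum_coe_sort T (fun y => u y * ev (gf F) y)
    rw [h1]
    simp only [mul_assoc, ← Finset.mul_sum]
    rw [h2]
    simp only [ev, real_inner_smul_right]
    field_simp

theorem colE_diff (hspan : affineSpan ℝ (T : Set (EE d)) = ⊤) (hd : d ≠ 0)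
    (hext : ∀ x ∈ T, x ∈ (Poly T).extremePoints ℝ)
    (hedge : ∀ v ∈ T, ∀ w ∈ T, v ≠ w → IsExposed ℝ (Poly T) (segment ℝ v w))
    {v w l : T} (hvw : v ≠ w) (hlv : l ≠ v) (hlw : l ≠ w) :
    ∃ F : Fct T, slk F v = 0 ∧ slk F w = 0 ∧ 0 < slk F l := by
  have hvw' : (v : EE d) ≠ w := fun h => hvw (Subtype.ext h)
  obtain ⟨g, hg0, hg⟩ := exposed_fun (hedge v v.2 w w.2 hvw') ⟨v, left_mem_segment ℝ _ _⟩
  have hl : (l : EE d) ∉ segment ℝ (v : EE d) w := by
    intro h
    rw [← insert_endpoints_openSegment] at h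
    rcases h with h | h | h
    · exact hlv (Subtype.ext h)
    · exact hlw (Subtype.ext h)
    · have h1 := (hext l l.2).2 (subset_Poly v.2) (subset_Poly w.2) h
      exact hlv (Subtype.ext h1.symm)
  have hgl : 0 < ev g l := by
    rcases eq_or_lt_of_le (hg0 l (subset_Poly l.2)) with h | h
    · exact absurd (by rw [hg]; exact ⟨subset_Poly l.2, h.symm⟩) hl
    · exact h
  have hgv : ev g v = 0 := by
    have : (v : EE d) ∈ segment ℝ (v : EE d) w := left_mem_segment ℝ _ _
    rw [hg] at this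
    exact this.2
  have hgw : ev g w = 0 := by
    have : (w : EE d) ∈ segment ℝ (v : EE d) w := right_mem_segment ℝ _ _
    rw [hg] at this
    exact this.2
  obtain ⟨μ, hμ, he⟩ := inCone_of_nonneg hspan hd (g := g) (fun x hx => hg0 x (subset_Poly hx))
  have hs : ∀ x : T, ev g x = ∑ F, μ F * slk F x := by
    intro x
    rw [he, ← ev_sum_slk]
  rw [hs] at hgl hgv hgw
  obtain ⟨F, hF⟩ : ∃ F, 0 < μ F * slk F l := by
    by_contra hc
    push Not at hc
    exact absurd hgl (not_lt.2 (Finset.sum_nonpos fun F _ => hc F))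
  have hμF : 0 < μ F := by
    rcases eq_or_lt_of_le (hμ F) with h | h
    · rw [← h, zero_mul] at hF; exact absurd hF (lt_irrefl _)
    · exact h
  have hz : ∀ x : T, ∑ F, μ F * slk F x = 0 → slk F x = 0 := by
    intro x hx
    rw [Finset.sum_eq_zero_iff_of_nonneg (fun G _ => mul_nonneg (hμ G) (slk_nonneg G x))] at hx
    exact (mul_eq_zero.1 (hx F (Finset.mem_univ F))).resolve_left hμF.ne'
  exact ⟨F, hz v hgv, hz w hgw, (mul_pos_iff_of_pos_left hμF).1 hF⟩

theorem colE_same (hspan : affineSpan ℝ (T : Set (EE d)) = ⊤) (hd : d ≠ 0)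
    (hext : ∀ x ∈ T, x ∈ (Poly T).extremePoints ℝ) {v l : T} (hlv : l ≠ v) :
    ∃ F : Fct T, slk F v = 0 ∧ 0 < slk F l := by
  classical
  by_contra hc
  push Not at hc
  -- move slightly beyond v, away from l
  obtain ⟨ε, hε, hεF⟩ : ∃ ε : ℝ, 0 < ε ∧ ∀ F : Fct T, ε * (slk F l) ≤ slk F v := by
    have : ∀ F : Fct T, ∃ ε : ℝ, 0 < ε ∧ ε * (slk F l) ≤ slk F v := by
      intro F
      rcases eq_or_lt_of_le (slk_nonneg F v) with h | h
      · have h1 : slk F l = 0 := le_antisymm (hc F h.symm) (slk_nonneg F l)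
        exact ⟨1, one_pos, by rw [h1, ← h]; simp⟩
      · have h1 := slk_nonneg F l
        refine ⟨slk F v / (slk F l + 1), by positivity, ?_⟩
        rw [div_mul_eq_mul_div, div_le_iff₀ (by positivity)]
        nlinarith
    choose e he1 he2 using this
    by_cases hne : Nonempty (Fct T)
    · refine ⟨Finset.univ.inf' Finset.univ_nonempty e, ?_, ?_⟩
      · rw [Finset.lt_inf'_iff]; exact fun x _ => he1 x
      · intro F
        refine le_trans ?_ (he2 F)
        exact mul_le_mul_of_nonneg_right (Finset.inf'_le e (Finset.mem_univ F)) (slk_nonneg F l)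
    · exact ⟨1, one_pos, fun F => absurd ⟨F⟩ hne⟩
  have hz : (1 + ε) • (v : EE d) + (-ε) • (l : EE d) ∈ Poly T := by
    refine mem_Poly_of_facets hspan hd fun F => ?_
    rw [ev_comb _ _ _ (by ring)]
    have h1 := hεF F
    have h2 := slk_nonneg F v
    simp only [slk] at h1 h2
    nlinarith
  have hmem : (v : EE d) ∈ openSegment ℝ ((1 + ε) • (v : EE d) + (-ε) • (l : EE d)) (l : EE d) := by
    refine ⟨1 / (1 + ε), ε / (1 + ε), by positivity, by positivity, by field_simp, ?_⟩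
    rw [smul_add, smul_smul, smul_smul, add_assoc, ← add_smul]
    have h1 : 1 / (1 + ε) * (1 + ε) = 1 := by field_simp
    have h2 : 1 / (1 + ε) * -ε + ε / (1 + ε) = 0 := by field_simp; ring
    rw [h1, h2, one_smul, zero_smul, add_zero]
  have h3 := (hext v v.2).2 hz (subset_Poly l.2) hmem
  -- so (1+ε) v - ε l = v, hence v = l
  have h4 : ε • ((v : EE d) - l) = 0 := by
    have h5 : (1 + ε) • (v : EE d) + (-ε) • (l : EE d) - v = ε • ((v : EE d) - l) := by
      rw [add_smul, one_smul, neg_smul, smul_sub]; abel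
    rw [← h5, h3, sub_self]
  rcases smul_eq_zero.1 h4 with h | h
  · exact hε.ne' h
  · exact hlv (Subtype.ext (sub_eq_zero.1 h).symm)

theorem rowpos_slk (hspan : affineSpan ℝ (T : Set (EE d)) = ⊤) (F : Fct T) : ∃ v : T, 0 < slk F v := by
  by_contra hc
  push Not at hc
  apply gf_ne hspan F
  exact eq_zero_of_span hspan fun x hx => le_antisymm (hc ⟨x, hx⟩) (slk_nonneg F ⟨x, hx⟩)

theorem colpos_slk (hspan : affineSpan ℝ (T : Set (EE d)) = ⊤) (hd : d ≠ 0) (v : T) :
    ∃ F : Fct T, 0 < slk F v := by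
  by_contra hc
  push Not at hc
  obtain ⟨μ, hμ, he⟩ := inCone_of_nonneg hspan hd (g := ((1, 0) : ℝ × EE d)) (fun x _ => by
    rw [ev_one]; exact zero_le_one)
  have h1 : ev ((1, 0) : ℝ × EE d) v = ∑ F, μ F * slk F v := by
    rw [he, ← ev_sum_slk]
  rw [ev_one] at h1
  have h2 : ∑ F, μ F * slk F v ≤ 0 :=
    Finset.sum_nonpos fun F _ => mul_nonpos_of_nonneg_of_nonpos (hμ F) (hc F)
  linarith

/-- the slack matrix of an example -/
theorem good_slk (hspan : affineSpan ℝ (T : Set (EE d)) = ⊤) (hd : d ≠ 0)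
    (hext : ∀ x ∈ T, x ∈ (Poly T).extremePoints ℝ)
    (hedge : ∀ v ∈ T, ∀ w ∈ T, v ≠ w → IsExposed ℝ (Poly T) (segment ℝ v w))
    (hfac : ∀ F G : Set (EE d), IsFacet T F → IsFacet T G → F ≠ G →
      (F ∩ G).Nonempty ∧ Module.finrank ℝ (vectorSpan ℝ (F ∩ G)) + 2 = d) :
    Good (slk (T := T)) (d + 1) where
  nonneg := slk_nonneg
  rank := rank_slk hspan hd
  rowK c hc := by
    obtain ⟨μ, hμ, he⟩ := inCone_of_nonneg hspan hd (g := ∑ F, c F • gf F) (fun x hx => by
      have := hc ⟨x, hx⟩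
      rwa [ev_sum_slk] at this)
    refine ⟨μ, hμ, fun v => ?_⟩
    rw [ev_sum_slk, ev_sum_slk, ← he]
  colK := colK_slk hspan hd
  rowE j j' m h h' := by
    by_cases hj : j = j'
    · subst hj
      obtain ⟨v, h1, h2⟩ := rowE_same hspan h
      exact ⟨v, h1, h1, h2⟩
    · exact rowE_diff hspan hfac hj h h'
  colE i i' l h h' := by
    by_cases hi : i = i'
    · subst hi
      obtain ⟨F, h1, h2⟩ := colE_same hspan hd hext h
      exact ⟨F, h1, h1, h2⟩
    · exact colE_diff hspan hd hext hedge hi h h'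
  rowpos := rowpos_slk hspan
  colpos := colpos_slk hspan hd

end Pool.Agent.TNB
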