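import Pool.Agent.TNB.Stmts

/-!
# MP_76926f_co: module ONE
-/

set_option autoImplicit false

namespace Pool.Agent.TNB

open scoped BigOperators

open Classical in
/-- the test vectors of module ONE -/
noncomputable def gOne {I : Type} (al : I → ℝ) (x y : I) (i : I) : ℝ :=
  (if i = x then 1 / al x else 0) + (if i = y then 1 / (-al y) else 0)

theorem one_proof (hN2 : Stmt_N2) (hANN : Stmt_ANN) (hSQ : Stmt_SQ) : Stmt_ONE := by
  classical
  intro I J _ _ s D h o hfin
  obtain ⟨⟨al, hal⟩, hne, hspan⟩ := finrank_eq_one_iff'.1 hfin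
  have hal0 : al ≠ 0 := by
    intro h0
    exact hne (Subtype.ext h0)
  have hsupp : ∀ i, s o i ≠ 0 → al i = 0 := hal.1
  have hrel : ∀ j, ∑ i, al i * s j i = 0 := hal.2
  have hsupp' : ∀ i, al i ≠ 0 → s o i = 0 := by
    intro i hi
    by_contra hcon
    exact hi (hsupp i hcon)
  obtain ⟨a, a', _, haa, _, _, ha, ha', _⟩ := hN2 J I (fun i j => s j i) D h.tr al hrel hal0
  obtain ⟨b, b', _, hbb, _, _, hb, hb', _⟩ := hN2 J I (fun i j => s j i) D h.tr (-al)
    (by
      intro j
      have := hrel j
      simp only [Pi.neg_apply, neg_mul, Finset.sum_neg_distrib]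
      rw [this, neg_zero])
    (by simpa using hal0)
  simp only [Pi.neg_apply, Left.neg_pos_iff] at hb hb'
  -- facts about one test vector
  have hxy : ∀ x y, 0 < al x → al y < 0 → x ≠ y := by
    rintro x y hx hy rfl
    linarith
  have vx : ∀ x y, 0 < al x → al y < 0 → gOne al x y x = 1 / al x := by
    intro x y hx hy
    simp [gOne, hxy x y hx hy]
  have vy : ∀ x y, 0 < al x → al y < 0 → gOne al x y y = 1 / (-al y) := by
    intro x y hx hy
    simp [gOne, (hxy x y hx hy).symm]
  have vz : ∀ x y i, i ≠ x → i ≠ y → gOne al x y i = 0 := by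
    intro x y i h1 h2
    simp [gOne, h1, h2]
  have f1 : ∀ x y, 0 < al x → al y < 0 → ∀ i, 0 ≤ gOne al x y i := by
    intro x y hx hy i
    unfold gOne
    have h1 : 0 ≤ 1 / al x := by positivity
    have h2 : 0 ≤ 1 / (-al y) := by
      have : 0 < -al y := by linarith
      positivity
    split_ifs <;> linarith
  have f2 : ∀ x y, 0 < al x → al y < 0 →
      ∃ c : J → ℝ, ∀ i, s o i = 0 → ∑ j, c j * s j i = gOne al x y i := by
    intro x y hx hy
    refine hANN I J s D h o (gOne al x y) ?_
    intro α hα
    obtain ⟨c, hc⟩ := hspan ⟨α, hα⟩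
    have hc' : α = c • al := (congrArg Subtype.val hc).symm
    have hsum : ∑ i, al i * gOne al x y i = 0 := by
      have e : ∀ i, al i * gOne al x y i =
          (if i = x then 1 else 0) + (if i = y then (-1 : ℝ) else 0) := by
        intro i
        by_cases h1 : i = x
        · subst h1
          rw [vx i y hx hy]
          simp [hxy i y hx hy, hx.ne']
        · by_cases h2 : i = y
          · subst h2
            rw [vy x i hx hy]
            have : al i ≠ 0 := hy.ne
            simp only [h1, if_false, if_true, zero_add]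
            field_simp
          · rw [vz x y i h1 h2]
            simp [h1, h2]
      simp_rw [e]
      rw [Finset.sum_add_distrib]
      simp
    rw [hc']
    simp only [Pi.smul_apply, smul_eq_mul, mul_assoc]
    rw [← Finset.mul_sum, hsum, mul_zero]
  have f3 : ∀ x y, 0 < al x → al y < 0 → ∃ i, s o i = 0 ∧ 0 < gOne al x y i := by
    intro x y hx hy
    refine ⟨x, hsupp' x hx.ne', ?_⟩
    rw [vx x y hx hy]
    positivity
  have f4 : ∀ x y, 0 < al x → al y < 0 → ∀ j,
      (∀ i, s o i = 0 → gOne al x y i = 0 → s j i = 0) →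
        ∃ t : ℝ, ∀ i, s o i = 0 → s j i = t * gOne al x y i := by
    intro x y hx hy j hj
    have hne : x ≠ y := hxy x y hx hy
    have hsum : al x * s j x + al y * s j y = 0 := by
      have h1 := hrel j
      have h2 : ∑ i, al i * s j i = ∑ i ∈ ({x, y} : Finset I), al i * s j i := by
        symm
        refine Finset.sum_subset (Finset.subset_univ _) ?_
        intro i _ hi
        rw [Finset.mem_insert, Finset.mem_singleton, not_or] at hi
        by_cases h0 : al i = 0
        · rw [h0, zero_mul]
        · rw [hj i (hsupp' i h0) (vz x y i hi.1 hi.2), mul_zero]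
      rw [h2, Finset.sum_pair hne] at h1
      exact h1
    refine ⟨al x * s j x, ?_⟩
    intro i hi
    by_cases h1 : i = x
    · subst h1
      rw [vx i y hx hy]
      field_simp
    · by_cases h2 : i = y
      · subst h2
        rw [vy x i hx hy]
        have h3 : al i ≠ 0 := hy.ne
        have h4 : al x * s j x = -(al i * s j i) := by linarith
        rw [h4]
        field_simp
      · rw [vz x y i h1 h2, mul_zero]
        exact hj i hi (vz x y i h1 h2)
  have sa : s o a = 0 := hsupp' a ha.ne'
  have sb : s o b = 0 := hsupp' b hb.ne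
  -- the four vectors
  let X : Fin 4 → I := ![a, a, a', a']
  let Y : Fin 4 → I := ![b, b', b, b']
  have hX : ∀ k, 0 < al (X k) := by
    intro k; fin_cases k <;> simp [X, ha, ha']
  have hY : ∀ k, al (Y k) < 0 := by
    intro k; fin_cases k <;> simp [Y, hb, hb']
  refine hSQ I J s D h o (fun k => gOne al (X k) (Y k)) ?_ ?_ ?_ ?_ ?_ ?_
  · intro k i _
    exact f1 _ _ (hX k) (hY k) i
  · intro k
    exact f2 _ _ (hX k) (hY k)
  · intro k
    exact f3 _ _ (hX k) (hY k)
  · intro k j _ hj
    exact f4 _ _ (hX k) (hY k) j hj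
  · have dX : ∀ k k', X k ≠ X k' → ∃ i, s o i = 0 ∧ ((gOne al (X k) (Y k) i = 0 ∧
        0 < gOne al (X k') (Y k') i) ∨ (gOne al (X k') (Y k') i = 0 ∧ 0 < gOne al (X k) (Y k) i)) := by
      intro k k' hkk
      refine ⟨X k, hsupp' _ (hX k).ne', Or.inr ⟨?_, ?_⟩⟩
      · exact vz _ _ _ hkk (hxy _ _ (hX k) (hY k'))
      · rw [vx _ _ (hX k) (hY k)]
        have := hX k
        positivity
    have dY : ∀ k k', Y k ≠ Y k' → ∃ i, s o i = 0 ∧ ((gOne al (X k) (Y k) i = 0 ∧
        0 < gOne al (X k') (Y k') i) ∨ (gOne al (X k') (Y k') i = 0 ∧ 0 < gOne al (X k) (Y k) i)) := by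
      intro k k' hkk
      refine ⟨Y k, hsupp' _ (hY k).ne, Or.inr ⟨?_, ?_⟩⟩
      · exact vz _ _ _ (hxy _ _ (hX k') (hY k)).symm hkk
      · rw [vy _ _ (hX k) (hY k)]
        have : 0 < -al (Y k) := by linarith [hY k]
        positivity
    intro k k' hkk
    by_cases h1 : X k = X k'
    · refine dY k k' ?_
      intro h2
      apply hkk
      fin_cases k <;> fin_cases k' <;> simp_all [X, Y]
    · exact dX k k' h1
  · intro i _
    simp only [X, Y, gOne]
    simp
    ring

end Pool.Agent.TNB
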